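import Pool.Agent.H135R2.VS.Der

set_option autoImplicit false

/-! # Real algebraically independent families over subfields of `ℝ` -/

namespace Pool.Agent.H135R2.VS

open MvPolynomial Set

/-- Subfields of `ℝ`. -/
abbrev SF := IntermediateField ℚ ℝ

/-- The derivation `D` vanishes on `K`. -/
def Van (K : SF) (D : Derivation ℚ ℝ ℝ) : Prop := ∀ k ∈ K, D k = 0

theorem van_adjoin {S : Set ℝ} {D : Derivation ℚ ℝ ℝ} (h : ∀ s ∈ S, D s = 0) :
    Van (IntermediateField.adjoin ℚ S) D := by
  intro k hk
  induction hk using IntermediateField.adjoin_induction with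
  | mem x hx => exact h x hx
  | algebraMap x => exact D.map_algebraMap x
  | add x y _ _ hx hy => rw [map_add, hx, hy, add_zero]
  | inv x _ hx =>
    rw [Derivation.leibniz_inv, hx, smul_zero]
  | mul x y _ _ hx hy => rw [Derivation.leibniz, hx, hy, smul_zero, smul_zero, add_zero]

theorem van_bot (D : Derivation ℚ ℝ ℝ) : Van ⊥ D := by
  intro k hk
  rw [IntermediateField.mem_bot] at hk
  obtain ⟨q, rfl⟩ := hk
  exact D.map_algebraMap q

theorem Van.add {K : SF} {D D' : Derivation ℚ ℝ ℝ} (h : Van K D) (h' : Van K D') :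
    Van K (D + D') := fun k hk => by rw [Derivation.add_apply, h k hk, h' k hk, add_zero]

theorem Van.smul {K : SF} {D : Derivation ℚ ℝ ℝ} (h : Van K D) (a : ℝ) :
    Van K (a • D) := fun k hk => by rw [Derivation.smul_apply, h k hk, smul_zero]

theorem van_zero (K : SF) : Van K 0 := fun _ _ => rfl

theorem Van.mono {K K' : SF} {D : Derivation ℚ ℝ ℝ} (h : Van K D) (hK : K' ≤ K) : Van K' D :=
  fun k hk => h k (hK hk)

variable {ι : Type*} {z : ι → ℝ} {K : SF}

theorem exists_derK (hz : AlgebraicIndependent K z) (v : ι → ℝ) :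
    ∃ D : Derivation ℚ ℝ ℝ, Van K D ∧ ∀ i, D (z i) = v i := by
  obtain ⟨D, hD⟩ := exists_der hz v
  refine ⟨D.restrictScalars ℚ, ?_, hD⟩
  intro k hk
  exact D.map_algebraMap (⟨k, hk⟩ : K)

theorem algInd_of_derK (h : ∀ v : ι → ℝ, ∃ D : Derivation ℚ ℝ ℝ, Van K D ∧ ∀ i, D (z i) = v i) :
    AlgebraicIndependent K z := by
  apply algInd_of_der
  intro v
  obtain ⟨D, hD, hv⟩ := h v
  refine ⟨Derivation.mk' (R := K) { D with map_smul' := ?_ } ?_, hv⟩
  · intro k x
    change D ((k : ℝ) * x) = (k : ℝ) * D x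
    rw [Derivation.leibniz, hD k k.2]
    simp
  · intro a b
    exact D.leibniz a b

/-- The field generated by `K` and `S`. -/
noncomputable def adj (K : SF) (S : Set ℝ) : SF := IntermediateField.adjoin ℚ ((K : Set ℝ) ∪ S)

theorem le_adj (K : SF) (S : Set ℝ) : K ≤ adj K S := fun _ hk =>
  IntermediateField.subset_adjoin _ _ (Or.inl hk)

theorem mem_adj (K : SF) {S : Set ℝ} {s : ℝ} (hs : s ∈ S) : s ∈ adj K S :=
  IntermediateField.subset_adjoin _ _ (Or.inr hs)

theorem van_adj {S : Set ℝ} {D : Derivation ℚ ℝ ℝ} (hK : Van K D) (h : ∀ s ∈ S, D s = 0) :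
    Van (adj K S) D := van_adjoin (by
  rintro s (hs | hs)
  · exact hK s hs
  · exact h s hs)

theorem algInd_sum {κ : Type*} {u : κ → ℝ} (hz : AlgebraicIndependent K z)
    (hu : AlgebraicIndependent (adj K (range z)) u) :
    AlgebraicIndependent K (Sum.elim z u) := by
  apply algInd_of_derK
  intro v
  obtain ⟨D, hD, hv⟩ := exists_derK hz (fun i => v (Sum.inl i))
  obtain ⟨D', hD', hv'⟩ := exists_derK hu (fun i => v (Sum.inr i) - D (u i))
  refine ⟨D + D', hD.add (hD'.mono (le_adj K _)), ?_⟩
  rintro (i | i)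
  · simp only [Sum.elim_inl, Derivation.add_apply]
    rw [hv, hD' (z i) (mem_adj K ⟨i, rfl⟩), add_zero]
  · simp only [Sum.elim_inr, Derivation.add_apply]
    rw [hv']; ring

theorem countable_adjoin {S : Set ℝ} (hS : S.Countable) :
    Countable (IntermediateField.adjoin ℚ S) := by
  rw [← Cardinal.mk_le_aleph0_iff]
  refine (IntermediateField.cardinalMk_adjoin_le ℚ S).trans ?_
  have h1 : Cardinal.mk S ≤ Cardinal.aleph0 := by
    rw [Cardinal.mk_le_aleph0_iff]; exact hS.to_subtype
  have h2 : Cardinal.mk ℚ ≤ Cardinal.aleph0 := by simp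
  simp [h1]

theorem countable_adj [Countable K] {S : Set ℝ} (hS : S.Countable) : Countable (adj K S) :=
  countable_adjoin ((countable_coe_iff.1 (inferInstance : Countable K)).union hS)

instance : Countable (⊥ : SF) := by
  have : (⊥ : SF) = IntermediateField.adjoin ℚ ∅ := by simp
  rw [this]
  exact countable_adjoin countable_empty

theorem continuous_aeval (g : MvPolynomial ι K) : Continuous fun x : ι → ℝ => aeval x g := by
  induction g using MvPolynomial.induction_on with
  | C a => simpa using continuous_const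
  | add p q hp hq =>
    simp only [map_add]
    exact hp.add hq
  | mul_X p i hp =>
    simp only [map_mul, aeval_X]
    exact hp.mul (continuous_apply i)

theorem dense_ne [Finite ι] {g : MvPolynomial ι K} (hg : g ≠ 0) :
    Dense {x : ι → ℝ | aeval x g ≠ 0} := by
  classical
  have := Fintype.ofFinite ι
  rw [dense_iff_inter_open]
  intro U hU ⟨x₀, hx₀⟩
  by_contra hcon
  have hz : ∀ q ∈ U, aeval q g = 0 := by
    intro q hq
    by_contra h
    exact hcon ⟨q, hq, h⟩
  obtain ⟨ε, hε, hball⟩ := Metric.isOpen_iff.1 hU x₀ hx₀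
  apply hg
  have hinj : Function.Injective (MvPolynomial.map (σ := ι) (algebraMap K ℝ)) :=
    MvPolynomial.map_injective _ (algebraMap K ℝ).injective
  apply hinj
  rw [map_zero]
  refine MvPolynomial.funext_set (fun i : ι => Metric.ball (x₀ i) ε) ?_ ?_
  · intro i
    exact infinite_of_mem_nhds (x₀ i) (Metric.ball_mem_nhds _ hε)
  · intro x hx
    rw [map_zero, eval_map, ← aeval_def]
    refine hz _ (hball ?_)
    rw [Metric.mem_ball, dist_pi_lt_iff hε]
    intro v
    exact hx v (mem_univ _)

theorem countable_polyK [Finite ι] [Countable K] : Countable (MvPolynomial ι K) := by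
  rw [← Cardinal.mk_le_aleph0_iff]
  refine le_trans MvPolynomial.cardinalMk_le_max_lift ?_
  have h1 : Cardinal.mk K ≤ Cardinal.aleph0 := by
    rw [Cardinal.mk_le_aleph0_iff]; infer_instance
  simp [h1]

theorem dense_algInd [Finite ι] [Countable K] :
    Dense {x : ι → ℝ | AlgebraicIndependent K x} := by
  have := Fintype.ofFinite ι
  have hc : Countable (MvPolynomial ι K) := countable_polyK
  have h1 : Dense (⋂ g : {g : MvPolynomial ι K // g ≠ 0}, {x : ι → ℝ | aeval x g.1 ≠ 0}) := by
    refine dense_iInter_of_isOpen (fun g => ?_) (fun g => dense_ne g.2)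
    exact isOpen_compl_singleton.preimage (continuous_aeval g.1)
  refine h1.mono ?_
  intro x hx
  rw [mem_iInter] at hx
  change AlgebraicIndependent K x
  rw [algebraicIndependent_iff]
  intro g hg
  by_contra h
  exact hx ⟨g, h⟩ hg

theorem exists_algInd [Finite ι] [Countable K] {U : Set (ι → ℝ)} (hU : IsOpen U)
    (hne : U.Nonempty) : ∃ x ∈ U, AlgebraicIndependent K x := by
  obtain ⟨x, h1, h2⟩ := (dense_algInd (ι := ι) (K := K)).inter_open_nonempty U hU hne
  exact ⟨x, h1, h2⟩

/-- Kernels of matrices with entries in `K` are spanned by vectors with entries in `K`. -/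
theorem ker_rational {m n : Type*} [Fintype n] (M : Matrix m n ℝ) (hM : ∀ i j, M i j ∈ K)
    {x : n → ℝ} (hx : M.mulVec x = 0) :
    x ∈ Submodule.span ℝ {y : n → ℝ | M.mulVec y = 0 ∧ ∀ j, y j ∈ K} := by
  classical
  let b := Module.Basis.ofVectorSpace K ℝ
  let T : Finset (Module.Basis.ofVectorSpaceIndex K ℝ) := Finset.univ.biUnion fun j => (b.repr (x j)).support
  have hxT : x = ∑ t ∈ T, (b t) • (fun j => ((b.repr (x j) t : K) : ℝ)) := by
    ext j
    rw [Finset.sum_apply]
    have h1 := b.linearCombination_repr (x j)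
    rw [Finsupp.linearCombination_apply, Finsupp.sum_of_support_subset (s := T)] at h1
    · conv_lhs => rw [← h1]
      refine Finset.sum_congr rfl fun t _ => ?_
      simp only [Pi.smul_apply, smul_eq_mul]
      rw [mul_comm]
      rfl
    · intro t ht
      exact Finset.mem_biUnion.2 ⟨j, Finset.mem_univ _, ht⟩
    · intro t _
      simp
  rw [hxT]
  refine Submodule.sum_mem _ fun t _ => Submodule.smul_mem _ _ (Submodule.subset_span ⟨?_, ?_⟩)
  · ext i
    have h1 : ∑ j, M i j * x j = 0 := congrFun hx i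
    have h2 : ∑ j, (⟨M i j, hM i j⟩ : K) * b.repr (x j) t = 0 := by
      have h3 : b.repr (∑ j, (⟨M i j, hM i j⟩ : K) • x j) t = 0 := by
        have : ∑ j, (⟨M i j, hM i j⟩ : K) • x j = 0 := h1
        rw [this]; simp
      rw [map_sum, Finsupp.finsetSum_apply] at h3
      simpa using h3
    change ∑ j, M i j * ((b.repr (x j) t : K) : ℝ) = 0
    have h4 := congrArg (fun k : K => (k : ℝ)) h2
    simp only [AddSubmonoidClass.coe_finsetSum, MulMemClass.coe_mul, ZeroMemClass.coe_zero] at h4
    exact h4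
  · intro j
    exact (b.repr (x j) t).2

/-- A real subspace spanned by vectors with entries in `K` has a basis of such vectors. -/
theorem exists_rat_basis {n : Type*} [Finite n] (S : Submodule ℝ (n → ℝ))
    (hS : ∀ x ∈ S, x ∈ Submodule.span ℝ {y : n → ℝ | y ∈ S ∧ ∀ j, y j ∈ K}) :
    ∃ (r : ℕ) (w : Fin r → n → ℝ), LinearIndependent ℝ w ∧ (∀ l j, w l j ∈ K) ∧
      Submodule.span ℝ (range w) = S := by
  obtain ⟨b, hb1, hb2, hb3⟩ := exists_linearIndependent ℝ {y : n → ℝ | y ∈ S ∧ ∀ j, y j ∈ K}
  have hfin : Finite b := hb3.finite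
  have := Fintype.ofFinite b
  let e := Fintype.equivFin b
  refine ⟨Fintype.card b, fun l => (e.symm l : n → ℝ), ?_, ?_, ?_⟩
  · exact hb3.comp _ e.symm.injective
  · intro l j
    exact (hb1 (e.symm l).2).2 j
  · have h1 : range (fun l => (e.symm l : n → ℝ)) = b := by
      ext y
      constructor
      · rintro ⟨l, rfl⟩; exact (e.symm l).2
      · intro hy; exact ⟨e ⟨y, hy⟩, by simp⟩
    rw [h1, hb2]
    apply le_antisymm
    · rw [Submodule.span_le]
      intro y hy
      exact hy.1
    · exact fun x hx => hS x hx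

end Pool.Agent.H135R2.VS
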