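import Pool.Agent.H135R2.VS.Null

set_option autoImplicit false
set_option linter.unusedSectionVars false

/-! # Infinitesimal rigidity of split frameworks with coincident vertices -/

namespace Pool.Agent.H135R2.VS

open Set Matrix

section der

variable {n k : Type*} [Fintype n] [Fintype k] (D : Derivation ℚ ℝ ℝ)

/-- Coordinatewise application of a derivation. -/
noncomputable def dv {n : Type*} (D : Derivation ℚ ℝ ℝ) (x : n → ℝ) : n → ℝ := fun i => D (x i)

theorem der_dot (x y : n → ℝ) : D (x ⬝ᵥ y) = dv D x ⬝ᵥ y + x ⬝ᵥ dv D y := by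
  simp only [dotProduct, map_sum, Derivation.leibniz, smul_eq_mul, dv]
  rw [← Finset.sum_add_distrib]
  exact Finset.sum_congr rfl fun k _ => by ring

theorem dv_mulVec (M : Matrix k n ℝ) (x : n → ℝ) :
    dv D (M *ᵥ x) = (M.map D) *ᵥ x + M *ᵥ dv D x := by
  ext i
  simp only [dv, Matrix.mulVec, Pi.add_apply, Matrix.map_apply]
  rw [der_dot]
  rfl

theorem dv_sub {n : Type*} (x y : n → ℝ) : dv D (x - y) = dv D x - dv D y := by
  ext i; simp [dv]

theorem dv_add {n : Type*} (x y : n → ℝ) : dv D (x + y) = dv D x + dv D y := by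
  ext i; simp [dv]

end der

variable {V : Type*} {d : ℕ} [Fintype V] [DecidableEq V]

section coin

variable {H : SimpleGraph V} {p : Conf d V} {ω : V → V → ℝ} {v : V} {A B C : Finset V}

/-- The sign of the edges which are moved to the new vertex. -/
noncomputable def sg (v : V) (A : Finset V) (i j : V) : ℝ :=
  (if i = v ∧ j ∈ A then 1 else 0) - (if j = v ∧ i ∈ A then 1 else 0)

/-- Vectors perpendicular to the `p v - p c`. -/
theorem perp_zero (hp : Gen p) (hC : C.card + 1 = d) (hvC : v ∉ C) {w : V} (hwv : w ≠ v)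
    (hwC : w ∉ C) {y : Fin d → ℝ} (hy : ∀ c ∈ C, y ⬝ᵥ (p v - p c) = 0)
    (hw : y ⬝ᵥ (p v - p w) = 0) : y = 0 := by
  have hcard : d + 1 ≤ (insert w (insert v C)).card := by
    rw [Finset.card_insert_of_notMem, Finset.card_insert_of_notMem hvC, hC]
    rw [Finset.mem_insert, not_or]
    exact ⟨hwv, hwC⟩
  refine (hp.affine_inj hcard (b := -(y ⬝ᵥ p v)) fun i hi => ?_).1
  rw [Finset.mem_insert, Finset.mem_insert] at hi
  rcases hi with rfl | rfl | hi
  · rw [dotProduct_sub] at hw; linarith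
  · ring
  · have := hy i hi
    rw [dotProduct_sub] at this; linarith

/-- Test functions vanishing at the hinge suffice. -/
theorem mem_Ker_of_test (hp : Gen p) (hω : Str H p ω) (hC : C.card + 1 = d) (hvC : v ∉ C)
    {w : V} (hwv : w ≠ v) (hwC : w ∉ C) {y : V → ℝ}
    (h : ∀ z : V → ℝ, (∀ i ∈ insert v C, z i = 0) → en ω y z = 0) : y ∈ Ker ω := by
  have hcard : (insert w (insert v C)).card = d + 1 := by
    rw [Finset.card_insert_of_notMem, Finset.card_insert_of_notMem hvC, hC]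
    rw [Finset.mem_insert, not_or]
    exact ⟨hwv, hwC⟩
  intro z
  obtain ⟨a, b, hab⟩ := hp.affine_surj hcard z
  have h1 := h (z + (-1 : ℝ) • (fun i => a ⬝ᵥ p i + b)) (by
    intro i hi
    have := hab i (Finset.mem_insert_of_mem hi)
    simp only [Pi.add_apply, Pi.smul_apply, smul_eq_mul]
    rw [this]; ring)
  rw [en_add, en_smul, en_symm ω y (fun i => a ⬝ᵥ p i + b), hω.affine a b y] at h1
  linarith

/-- Step 1: the components perpendicular to `ν` of the flex are affine functions. -/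
theorem step1 (hp : Gen p) (hω : Str H p ω) (hK : ∀ y ∈ Ker ω, ∃ a b, ∀ i, y i = a ⬝ᵥ p i + b)
    (hC : C.card + 1 = d) (hvC : v ∉ C) {w : V} (hwv : w ≠ v) (hwC : w ∉ C)
    {ν : Fin d → ℝ}
    (hνD : ∀ D : Derivation ℚ ℝ ℝ, (∀ i ∈ insert v C, dv D (p i) = 0) → dv D ν = 0)
    {m : Conf d V}
    (hm : ∀ i j, H.Adj i j → (p i - p j) ⬝ᵥ (m i - m j + sg v A i j • ν) = 0)
    {e : Fin d → ℝ} (he : e ⬝ᵥ ν = 0) : ∃ a b, ∀ i, e ⬝ᵥ m i = a ⬝ᵥ p i + b := by
  apply hK
  refine mem_Ker_of_test hp hω hC hvC hwv hwC fun z hz => ?_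
  obtain ⟨D, hD⟩ := hp.der (fun i => z i • e)
  have hD' : ∀ i, dv D (p i) = z i • e := fun i => by ext a; exact hD i a
  have hDν : dv D ν = 0 := hνD D (fun i hi => by rw [hD', hz i hi, zero_smul])
  have h1 : ∀ i j, H.Adj i j → fl p (fun i => dv D (m i)) i j =
      - ((z i - z j) * (e ⬝ᵥ m i - e ⬝ᵥ m j)) := by
    intro i j hij
    have h2 := congrArg D (hm i j hij)
    rw [map_zero, der_dot] at h2
    have h3 : dv D (m i - m j + sg v A i j • ν) = dv D (m i) - dv D (m j) := by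
      rw [dv_add, dv_sub]
      have : dv D (sg v A i j • ν) = 0 := by
        ext k
        simp only [dv, Pi.smul_apply, smul_eq_mul, Pi.zero_apply]
        rw [Derivation.leibniz]
        have h4 : D (ν k) = 0 := congrFun hDν k
        have h5 : D (sg v A i j) = 0 := by
          unfold sg
          split_ifs <;> simp
        rw [h4, h5, smul_zero, smul_zero, add_zero]
      rw [this, add_zero]
    rw [h3, dv_sub, hD', hD', ← sub_smul, smul_dotProduct, dotProduct_add, dotProduct_smul, he,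
      smul_zero, add_zero, dotProduct_sub] at h2
    rw [fl_dot]
    rw [smul_eq_mul] at h2
    linarith
  have h2 := hω.sum_fl (fun i => dv D (m i))
  have h3 : ∑ i, ∑ j, ω i j * fl p (fun i => dv D (m i)) i j =
      - en ω (fun i => e ⬝ᵥ m i) z := by
    unfold en
    rw [← Finset.sum_neg_distrib]
    refine Finset.sum_congr rfl fun i _ => ?_
    rw [← Finset.sum_neg_distrib]
    refine Finset.sum_congr rfl fun j _ => ?_
    by_cases hij : H.Adj i j
    · rw [h1 i j hij]; ring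
    · rw [hω.1 i j hij]; ring
  rw [h3] at h2
  linarith

/-- Step 2: normal form of the flex. -/
theorem step2 {ν : Fin d → ℝ} (hν : ν ≠ 0) (hAS : AS p) {m : Conf d V}
    (hm : ∀ i j, H.Adj i j → (p i - p j) ⬝ᵥ (m i - m j + sg v A i j • ν) = 0)
    (haff : ∀ e : Fin d → ℝ, e ⬝ᵥ ν = 0 → ∃ a b, ∀ i, e ⬝ᵥ m i = a ⬝ᵥ p i + b) :
    ∃ (M : Matrix (Fin d) (Fin d) ℝ) (μ : V → ℝ), Mᵀ = M ∧ M *ᵥ ν = 0 ∧
      ∀ i j, H.Adj i j → (p i - p j) ⬝ᵥ (M *ᵥ (p i - p j)) +
        (ν ⬝ᵥ (p i - p j)) * (μ i - μ j + sg v A i j) = 0 := by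
  classical
  have hn : ν ⬝ᵥ ν ≠ 0 := fun h0 => hν (dotProduct_self_eq_zero.1 h0)
  set n2 := ν ⬝ᵥ ν with hn2
  -- the projection
  let e : Fin d → Fin d → ℝ := fun k => Pi.single k 1 - (ν k / n2) • ν
  have he : ∀ k, e k ⬝ᵥ ν = 0 := by
    intro k
    simp only [e, sub_dotProduct, smul_dotProduct, smul_eq_mul]
    rw [← hn2, div_mul_cancel₀ _ hn, single_dotProduct, one_mul, sub_self]
  choose a b hab using fun k => haff (e k) (he k)
  let L : Matrix (Fin d) (Fin d) ℝ := Matrix.of a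
  have hmi : ∀ i, m i = L *ᵥ p i + b + ((ν ⬝ᵥ m i) / n2) • ν := by
    intro i
    ext k
    have h1 := hab k i
    simp only [Pi.add_apply, Pi.smul_apply, smul_eq_mul, Matrix.mulVec, L, Matrix.of_apply]
    rw [← h1]
    simp only [e, sub_dotProduct, smul_dotProduct, smul_eq_mul, single_dotProduct, one_mul]
    ring
  -- `ν` is perpendicular to the image of `L`
  have hνL : ∀ x, ν ⬝ᵥ (L *ᵥ x) = 0 := by
    have h1 : ∀ i, (ν ᵥ* L) ⬝ᵥ p i + ν ⬝ᵥ b = 0 := by
      intro i
      have h2 := congrArg (fun x => ν ⬝ᵥ x) (hmi i)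
      simp only [dotProduct_add, dotProduct_smul, smul_eq_mul] at h2
      rw [← hn2, div_mul_cancel₀ _ hn, Matrix.dotProduct_mulVec] at h2
      linarith
    have h2 := hAS _ _ h1
    intro x
    rw [Matrix.dotProduct_mulVec, h2, zero_dotProduct]
  -- the symmetric part
  let P : Matrix (Fin d) (Fin d) ℝ := 1 - (1 / n2) • Matrix.vecMulVec ν ν
  have hP : ∀ x, P *ᵥ x = x - ((ν ⬝ᵥ x) / n2) • ν := by
    intro x
    ext k
    simp only [P, Matrix.sub_mulVec, Matrix.one_mulVec, Matrix.smul_mulVec, Pi.sub_apply,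
      Pi.smul_apply, smul_eq_mul]
    congr 1
    simp only [Matrix.mulVec, dotProduct, Matrix.vecMulVec_apply, Finset.mul_sum, Finset.sum_div,
      Finset.sum_mul]
    refine Finset.sum_congr rfl fun l _ => ?_
    ring
  have hPT : Pᵀ = P := by
    ext k l
    simp only [P, Matrix.transpose_apply, Matrix.sub_apply, Matrix.smul_apply,
      Matrix.vecMulVec_apply, Matrix.one_apply, smul_eq_mul, eq_comm (a := l) (b := k)]
    ring
  have hPν : P *ᵥ ν = 0 := by
    rw [hP, ← hn2, div_self hn, one_smul, sub_self]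
  have hPL : ∀ x y, (P *ᵥ x) ⬝ᵥ (L *ᵥ y) = x ⬝ᵥ (L *ᵥ y) := by
    intro x y
    rw [hP, sub_dotProduct, smul_dotProduct, hνL, smul_zero, sub_zero]
  let M : Matrix (Fin d) (Fin d) ℝ := (1 / 2 : ℝ) • (P * L * P + (P * L * P)ᵀ)
  have hPLP : ∀ x, x ⬝ᵥ ((P * L * P) *ᵥ x) = x ⬝ᵥ (L *ᵥ (P *ᵥ x)) := by
    intro x
    rw [← Matrix.mulVec_mulVec, ← Matrix.mulVec_mulVec, Matrix.dotProduct_mulVec,
      ← Matrix.mulVec_transpose, hPT, hPL]
  have hPLPT : ∀ x, x ⬝ᵥ ((P * L * P)ᵀ *ᵥ x) = x ⬝ᵥ (L *ᵥ (P *ᵥ x)) := by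
    intro x
    rw [Matrix.mulVec_transpose, dotProduct_comm, ← Matrix.dotProduct_mulVec, hPLP]
  have hMx : ∀ x, x ⬝ᵥ (M *ᵥ x) = x ⬝ᵥ (L *ᵥ x) - (ν ⬝ᵥ x) * ((L *ᵥ ν) ⬝ᵥ x) / n2 := by
    intro x
    simp only [M]
    rw [Matrix.smul_mulVec, dotProduct_smul, Matrix.add_mulVec, dotProduct_add, hPLP, hPLPT, hP,
      Matrix.mulVec_sub, Matrix.mulVec_smul, dotProduct_sub, dotProduct_smul,
      dotProduct_comm (L *ᵥ ν) x]
    simp only [smul_eq_mul]
    ring
  refine ⟨M, fun i => (ν ⬝ᵥ m i) / n2 + ((L *ᵥ ν) ⬝ᵥ p i) / n2, ?_, ?_, ?_⟩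
  · simp only [M]
    rw [Matrix.transpose_smul, Matrix.transpose_add, Matrix.transpose_transpose, add_comm]
  · simp only [M]
    rw [Matrix.smul_mulVec, Matrix.add_mulVec]
    have h1 : (P * L * P) *ᵥ ν = 0 := by
      rw [← Matrix.mulVec_mulVec, hPν, Matrix.mulVec_zero]
    have h2 : (P * L * P)ᵀ *ᵥ ν = 0 := by
      apply dotProduct_self_eq_zero.1
      set y := (P * L * P)ᵀ *ᵥ ν with hy
      have h3 : ∀ x, y ⬝ᵥ x = 0 := by
        intro x
        rw [hy, Matrix.mulVec_transpose, ← Matrix.dotProduct_mulVec, ← Matrix.mulVec_mulVec,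
          ← Matrix.mulVec_mulVec, Matrix.dotProduct_mulVec, ← Matrix.mulVec_transpose, hPT, hPν,
          zero_dotProduct]
      exact h3 y
    rw [h1, h2, add_zero, smul_zero]
  · intro i j hij
    have h1 := hm i j hij
    have h2 : m i - m j = L *ᵥ (p i - p j) + ((ν ⬝ᵥ m i) / n2 - (ν ⬝ᵥ m j) / n2) • ν := by
      conv_lhs => rw [hmi i, hmi j]
      rw [Matrix.mulVec_sub, sub_smul]
      abel
    rw [h2, dotProduct_add, dotProduct_add, dotProduct_smul, dotProduct_smul] at h1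
    rw [hMx]
    simp only [smul_eq_mul] at h1
    rw [dotProduct_comm (p i - p j) ν] at h1
    have h3 : (L *ᵥ ν) ⬝ᵥ (p i - p j) = (L *ᵥ ν) ⬝ᵥ p i - (L *ᵥ ν) ⬝ᵥ p j := dotProduct_sub _ _ _
    rw [h3]
    linear_combination h1

theorem sg_der (D : Derivation ℚ ℝ ℝ) (i j : V) : D (sg v A i j) = 0 := by
  unfold sg
  split_ifs <;> simp

/-- Step 3: the matrix of the normal form vanishes. -/
theorem step3 (hp : Gen p) (hIR : IR H p) (hV : d + 2 ≤ Fintype.card V)
    (hC : C.card + 1 = d) (hvC : v ∉ C) {ν : Fin d → ℝ} (hν : ν ≠ 0)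
    (hνD : ∀ D : Derivation ℚ ℝ ℝ, (∀ i ∈ insert v C, dv D (p i) = 0) → dv D ν = 0)
    {M : Matrix (Fin d) (Fin d) ℝ} {μ : V → ℝ} (hMT : Mᵀ = M) (hMν : M *ᵥ ν = 0)
    (hM : ∀ i j, H.Adj i j → (p i - p j) ⬝ᵥ (M *ᵥ (p i - p j)) +
        (ν ⬝ᵥ (p i - p j)) * (μ i - μ j + sg v A i j) = 0) : M = 0 := by
  classical
  have hAS : AS p := hp.as (by omega)
  have hn : ν ⬝ᵥ ν ≠ 0 := fun h0 => hν (dotProduct_self_eq_zero.1 h0)
  have hsymm : ∀ x y, x ⬝ᵥ (M *ᵥ y) = y ⬝ᵥ (M *ᵥ x) := by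
    intro x y
    rw [Matrix.dotProduct_mulVec, ← Matrix.mulVec_transpose, hMT, dotProduct_comm]
  -- a vertex outside the hinge
  obtain ⟨w, hw⟩ : ∃ w, w ∉ insert v C := by
    by_contra hcon
    push Not at hcon
    have h1 : (insert v C) = Finset.univ := Finset.eq_univ_iff_forall.2 hcon
    have h2 := Finset.card_insert_of_notMem hvC
    rw [h1, Finset.card_univ] at h2
    omega
  have key : ∀ e η : Fin d → ℝ, e ⬝ᵥ ν = 0 → η ⬝ᵥ ν = 0 → e ⬝ᵥ (M *ᵥ η) = 0 := by
    intro e η he hη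
    obtain ⟨D, hD⟩ := hp.der (fun i => if i = w then η else 0)
    have hD' : ∀ i, dv D (p i) = if i = w then η else 0 := by
      intro i
      ext a
      exact hD i a
    have hDν : dv D ν = 0 := hνD D (fun i hi => by
      rw [hD', if_neg (by rintro rfl; exact hw hi)])
    have hDη : ∀ i, dv D (p i) ⬝ᵥ ν = 0 := by
      intro i
      rw [hD']
      split_ifs
      · exact hη
      · exact zero_dotProduct _
    let m' : Conf d V := fun i => (M.map D) *ᵥ (p i) + (2 : ℝ) • (M *ᵥ dv D (p i)) + D (μ i) • ν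
    have hm' : ∀ i j, H.Adj i j → fl p m' i j = 0 := by
      intro i j hij
      have h1 := congrArg D (hM i j hij)
      rw [map_zero, map_add, der_dot, dv_mulVec, Derivation.leibniz, der_dot, hDν, dv_sub] at h1
      have h2 : ν ⬝ᵥ (dv D (p i) - dv D (p j)) = 0 := by
        rw [dotProduct_sub, dotProduct_comm, hDη, dotProduct_comm, hDη, sub_zero]
      have h3 : D (μ i - μ j + sg v A i j) = D (μ i) - D (μ j) := by
        rw [map_add, map_sub, sg_der, add_zero]
      rw [h2, h3, zero_dotProduct, add_zero, smul_zero, add_zero] at h1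
      have h4 : (dv D (p i) - dv D (p j)) ⬝ᵥ (M *ᵥ (p i - p j)) =
          (p i - p j) ⬝ᵥ (M *ᵥ (dv D (p i) - dv D (p j))) := hsymm _ _
      rw [h4, dotProduct_add] at h1
      rw [fl_dot]
      have h5 : m' i - m' j = (M.map D) *ᵥ (p i - p j) +
          (2 : ℝ) • (M *ᵥ (dv D (p i) - dv D (p j))) + (D (μ i) - D (μ j)) • ν := by
        simp only [m']
        rw [Matrix.mulVec_sub, Matrix.mulVec_sub, smul_sub, sub_smul]
        abel
      rw [h5, dotProduct_add, dotProduct_add, dotProduct_smul, dotProduct_smul,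
        dotProduct_comm _ ν]
      simp only [smul_eq_mul] at h1 ⊢
      linear_combination h1
    obtain ⟨S, b, hS, hmS⟩ := trivial_motion hAS (hIR m' hm')
    let a : Fin d → ℝ := fun k => e ⬝ᵥ ((M.map D) *ᵥ Pi.single k 1) - e ⬝ᵥ S (Pi.single k 1)
    have ha : ∀ x : Fin d → ℝ, a ⬝ᵥ x = e ⬝ᵥ ((M.map D) *ᵥ x) - e ⬝ᵥ S x := by
      intro x
      have hx : x = ∑ k, x k • (Pi.single k 1 : Fin d → ℝ) := by
        conv_lhs => rw [← Finset.univ_sum_single x]
        refine Finset.sum_congr rfl fun k _ => ?_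
        rw [← Pi.single_smul]; simp
      conv_rhs => rw [hx]
      rw [map_sum, Matrix.mulVec_sum, dotProduct_sum, dotProduct_sum, ← Finset.sum_sub_distrib]
      refine Finset.sum_congr rfl fun k _ => ?_
      rw [map_smul, Matrix.mulVec_smul, dotProduct_smul, dotProduct_smul]
      simp only [a, smul_eq_mul]
      ring
    have hai : ∀ i, a ⬝ᵥ p i + - (e ⬝ᵥ b) = - (2 * (e ⬝ᵥ (M *ᵥ dv D (p i)))) := by
      intro i
      have h1 := congrArg (fun x => e ⬝ᵥ x) (hmS i)
      simp only [m', dotProduct_add, dotProduct_smul, he, smul_eq_mul, mul_zero, add_zero] at h1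
      rw [ha]
      linarith
    have hcard : d + 1 ≤ (Finset.univ.erase w).card := by
      rw [Finset.card_erase_of_mem (Finset.mem_univ w), Finset.card_univ]; omega
    obtain ⟨h1, h2⟩ := hp.affine_inj hcard (a := a) (b := -(e ⬝ᵥ b)) (fun i hi => by
      rw [hai, hD', if_neg (Finset.ne_of_mem_erase hi), Matrix.mulVec_zero, dotProduct_zero]
      simp)
    have h3 := hai w
    rw [h1, h2, hD', if_pos rfl, zero_dotProduct] at h3
    linarith
  -- conclusion
  have hall : ∀ x y, x ⬝ᵥ (M *ᵥ y) = 0 := by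
    intro x y
    have hx : x = (x - ((x ⬝ᵥ ν) / (ν ⬝ᵥ ν)) • ν) + ((x ⬝ᵥ ν) / (ν ⬝ᵥ ν)) • ν := by abel
    have hy : y = (y - ((y ⬝ᵥ ν) / (ν ⬝ᵥ ν)) • ν) + ((y ⬝ᵥ ν) / (ν ⬝ᵥ ν)) • ν := by abel
    have hperp : ∀ x : Fin d → ℝ, (x - ((x ⬝ᵥ ν) / (ν ⬝ᵥ ν)) • ν) ⬝ᵥ ν = 0 := by
      intro x
      rw [sub_dotProduct, smul_dotProduct, smul_eq_mul, div_mul_cancel₀ _ hn, sub_self]
    have hνM : ∀ z, ν ⬝ᵥ (M *ᵥ z) = 0 := by
      intro z
      rw [hsymm, hMν, dotProduct_zero]
    rw [hx, hy, Matrix.mulVec_add, Matrix.mulVec_smul, hMν, smul_zero, add_zero, add_dotProduct,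
      smul_dotProduct, hνM, smul_zero, add_zero]
    exact key _ _ (hperp x) (hperp y)
  ext k l
  have := hall (Pi.single k 1) (Pi.single l 1)
  simpa using this

/-- Step 4: contradiction from the vanishing of the matrix. -/
theorem step4 (hp : Gen p) (hω : Str H p ω)
    (hK : ∀ y ∈ Ker ω, ∃ a b, ∀ i, y i = a ⬝ᵥ p i + b)
    (hC : C.card + 1 = d) (hvC : v ∉ C) {ν : Fin d → ℝ} (hν : ν ≠ 0)
    (hνD : ∀ D : Derivation ℚ ℝ ℝ, (∀ i ∈ insert v C, dv D (p i) = 0) → dv D ν = 0)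
    (hνC : ∀ c ∈ C, ν ⬝ᵥ (p v - p c) = 0)
    (hAN : ∀ w ∈ A, H.Adj v w) (hBN : ∀ w ∈ B, H.Adj v w)
    (hAC : Disjoint A C) (hBC : Disjoint B C) (hAB : Disjoint A B)
    (hA : A.Nonempty) (hB : B.Nonempty) {μ : V → ℝ}
    (hμ : ∀ i j, H.Adj i j → (ν ⬝ᵥ (p i - p j)) * (μ i - μ j + sg v A i j) = 0) : False := by
  classical
  have hn : ν ⬝ᵥ ν ≠ 0 := fun h0 => hν (dotProduct_self_eq_zero.1 h0)
  -- genericity
  have hne : ∀ i j, i ∉ insert v C → i ≠ j → ν ⬝ᵥ (p i - p j) ≠ 0 := by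
    intro i j hi hij h0
    obtain ⟨D, hD⟩ := hp.der (fun k => if k = i then ν else 0)
    have hD' : ∀ k, dv D (p k) = if k = i then ν else 0 := by
      intro k; ext a; exact hD k a
    have hDν : dv D ν = 0 := hνD D (fun k hk => by
      rw [hD', if_neg (by rintro rfl; exact hi hk)])
    have h1 := congrArg D h0
    rw [map_zero, der_dot, hDν, zero_dotProduct, zero_add, dv_sub, hD', hD', if_pos rfl,
      if_neg hij.symm, sub_zero] at h1
    exact hn h1
  have hμ' : ∀ i j, H.Adj i j → i ∉ insert v C → μ i - μ j + sg v A i j = 0 := by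
    intro i j hij hi
    exact (mul_eq_zero.1 (hμ i j hij)).resolve_left (hne i j hi hij.ne)
  obtain ⟨wA, hwA⟩ := hA
  obtain ⟨wB, hwB⟩ := hB
  have hA0 : ∀ w ∈ A, w ∉ insert v C := by
    intro w hw h
    rw [Finset.mem_insert] at h
    rcases h with rfl | h
    · exact H.loopless.irrefl _ (hAN w hw)
    · exact Finset.disjoint_left.1 hAC hw h
  have hB0 : ∀ w ∈ B, w ∉ insert v C := by
    intro w hw h
    rw [Finset.mem_insert] at h
    rcases h with rfl | h
    · exact H.loopless.irrefl _ (hBN w hw)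
    · exact Finset.disjoint_left.1 hBC hw h
  have hvA : v ∉ A := fun h => H.loopless.irrefl _ (hAN v h)
  have hμA : ∀ w ∈ A, μ w = μ v + 1 := by
    intro w hw
    have h1 := hμ' w v (hAN w hw).symm (hA0 w hw)
    have h2 : sg v A w v = -1 := by
      unfold sg
      rw [if_neg (fun h => (hAN w hw).ne h.1.symm), if_pos ⟨rfl, hw⟩]; ring
    rw [h2] at h1; linarith
  have hμB : ∀ w ∈ B, μ w = μ v := by
    intro w hw
    have h1 := hμ' w v (hBN w hw).symm (hB0 w hw)
    have h2 : sg v A w v = 0 := by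
      unfold sg
      rw [if_neg (fun h => (hBN w hw).ne h.1.symm), if_neg (fun h =>
        Finset.disjoint_left.1 hAB h.2 hw)]; ring
    rw [h2] at h1; linarith
  have hμW : ∀ i j, H.Adj i j → i ∉ insert v C → j ∉ insert v C → μ i = μ j := by
    intro i j hij hi hj
    have h1 := hμ' i j hij hi
    have h2 : sg v A i j = 0 := by
      unfold sg
      rw [if_neg (fun h => hi (by rw [h.1]; exact Finset.mem_insert_self _ _)),
        if_neg (fun h => hj (by rw [h.1]; exact Finset.mem_insert_self _ _))]; ring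
    rw [h2] at h1; linarith
  -- the side of `A`
  let X : Set V := {i | i ∉ insert v C ∧ μ i = μ v + 1}
  let h : V → ℝ := fun i => ν ⬝ᵥ p i + - (ν ⬝ᵥ p v)
  have hh : h ∈ Ker ω := hω.affine ν _
  have hh0 : ∀ i ∈ insert v C, h i = 0 := by
    intro i hi
    rw [Finset.mem_insert] at hi
    rcases hi with rfl | hi
    · simp [h]
    · have := hνC i hi
      rw [dotProduct_sub] at this
      simp only [h]; linarith
  let y : V → ℝ := fun i => if i ∈ X then h i else 0
  have hy : y ∈ Ker ω := by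
    have hwA0 := hA0 wA hwA
    rw [Finset.mem_insert, not_or] at hwA0
    refine mem_Ker_of_test hp hω hC hvC hwA0.1 hwA0.2 fun z hz => ?_
    have h1 := hh (fun i => if i ∈ X then z i else 0)
    rw [← h1]
    unfold en
    refine Finset.sum_congr rfl fun i _ => Finset.sum_congr rfl fun j _ => ?_
    by_cases hij : H.Adj i j
    · congr 1
      simp only [y]
      have hX0 : ∀ i, i ∈ insert v C → i ∉ X := fun i hi h => h.1 hi
      by_cases hi : i ∈ insert v C
      · rw [if_neg (hX0 i hi), if_neg (hX0 i hi), hz i hi]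
        by_cases hj : j ∈ insert v C
        · rw [if_neg (hX0 j hj), if_neg (hX0 j hj), hz j hj]
          ring
        · rw [hh0 i hi]
          split_ifs <;> ring
      · by_cases hj : j ∈ insert v C
        · rw [if_neg (hX0 j hj), if_neg (hX0 j hj), hz j hj, hh0 j hj]
          split_ifs <;> ring
        · have h2 := hμW i j hij hi hj
          by_cases hiX : i ∈ X
          · have hjX : j ∈ X := ⟨hj, by rw [← h2]; exact hiX.2⟩
            rw [if_pos hiX, if_pos hjX, if_pos hiX, if_pos hjX]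
          · have hjX : j ∉ X := fun hjX => hiX ⟨hi, by rw [h2]; exact hjX.2⟩
            rw [if_neg hiX, if_neg hjX, if_neg hiX, if_neg hjX]
            ring
    · rw [hω.1 i j hij]; ring
  obtain ⟨a, b, hab⟩ := hK y hy
  have hcard : d + 1 ≤ (insert wB (insert v C)).card := by
    rw [Finset.card_insert_of_notMem (hB0 wB hwB), Finset.card_insert_of_notMem hvC, hC]
  obtain ⟨ha, hb⟩ := hp.affine_inj hcard (a := a) (b := b) (by
    intro i hi
    rw [← hab i]
    rw [Finset.mem_insert] at hi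
    rcases hi with rfl | hi
    · have : i ∉ X := by
        intro hX
        have h1 := hX.2
        rw [hμB i hwB] at h1
        linarith
      simp only [y, if_neg this]
    · have : i ∉ X := fun hX => hX.1 hi
      simp only [y, if_neg this])
  have h1 := hab wA
  have h2 : wA ∈ X := ⟨hA0 wA hwA, hμA wA hwA⟩
  rw [ha, hb, zero_dotProduct, add_zero] at h1
  simp only [y, if_pos h2, h] at h1
  apply hne wA v (hA0 wA hwA) (hAN wA hwA).ne'
  rw [dotProduct_sub]; linarith

/-- **Infinitesimal rigidity of the coincident split framework.** -/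
theorem coin (hp : Gen p) (hIR : IR H p) (hω : Str H p ω)
    (hK : ∀ y ∈ Ker ω, ∃ a b, ∀ i, y i = a ⬝ᵥ p i + b) (hV : d + 2 ≤ Fintype.card V)
    (hC : C.card + 1 = d) (hCN : ∀ w ∈ C, H.Adj v w)
    (hAN : ∀ w ∈ A, H.Adj v w) (hBN : ∀ w ∈ B, H.Adj v w)
    (hN : ∀ w, H.Adj v w → w ∈ A ∨ w ∈ B ∨ w ∈ C)
    (hAC : Disjoint A C) (hBC : Disjoint B C) (hAB : Disjoint A B)
    (hA : A.Nonempty) (hB : B.Nonempty) {m : Conf d V} {x : Fin d → ℝ}
    (h1 : ∀ i j, i ≠ v → j ≠ v → H.Adj i j → (p i - p j) ⬝ᵥ (m i - m j) = 0)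
    (h2 : ∀ w, w ∈ A ∨ w ∈ C → (p v - p w) ⬝ᵥ (x - m w) = 0)
    (h3 : ∀ w, w ∈ B ∨ w ∈ C → (p v - p w) ⬝ᵥ (m v - m w) = 0) : x = m v := by
  classical
  by_contra hne
  have hvC : v ∉ C := fun h => H.loopless.irrefl _ (hCN v h)
  have hδ : x - m v ≠ 0 := sub_ne_zero.2 hne
  obtain ⟨w₀, hw₀⟩ := id hA
  have hw₀v : w₀ ≠ v := (hAN w₀ hw₀).ne'
  have hw₀C : w₀ ∉ C := Finset.disjoint_left.1 hAC hw₀
  -- the rational normal
  let K : SF := IntermediateField.adjoin ℚ {r | ∃ i ∈ insert v C, ∃ a, p i a = r}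
  have hKp : ∀ i ∈ insert v C, ∀ a, p i a ∈ K := fun i hi a =>
    IntermediateField.subset_adjoin _ _ ⟨i, hi, a, rfl⟩
  let M : Matrix C (Fin d) ℝ := Matrix.of fun c => p v - p c
  have hM : ∀ y : Fin d → ℝ, M *ᵥ y = 0 ↔ ∀ c ∈ C, y ⬝ᵥ (p v - p c) = 0 := by
    intro y
    constructor
    · intro h c hc
      have := congrFun h ⟨c, hc⟩
      rw [dotProduct_comm]
      exact this
    · intro h
      ext c
      have := h c c.2
      rw [dotProduct_comm] at this
      exact this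
  have hδM : M *ᵥ (x - m v) = 0 := by
    rw [hM]
    intro c hc
    have e1 := h2 c (Or.inr hc)
    have e2 := h3 c (Or.inr hc)
    rw [dotProduct_comm]
    have : x - m v = (x - m c) - (m v - m c) := by abel
    rw [this, dotProduct_sub, e1, e2, sub_zero]
  have hspan := ker_rational (K := K) M (by
    intro c a
    exact K.sub_mem (hKp v (Finset.mem_insert_self _ _) a)
      (hKp c (Finset.mem_insert_of_mem c.2) a)) hδM
  obtain ⟨ν, ⟨hνM, hνK⟩, hν⟩ : ∃ ν ∈ {y : Fin d → ℝ | M *ᵥ y = 0 ∧ ∀ j, y j ∈ K}, ν ≠ 0 := by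
    by_contra hcon
    push Not at hcon
    have : Submodule.span ℝ {y : Fin d → ℝ | M *ᵥ y = 0 ∧ ∀ j, y j ∈ K} = ⊥ := by
      rw [Submodule.span_eq_bot]
      exact hcon
    rw [this, Submodule.mem_bot] at hspan
    exact hδ hspan
  have hνC := (hM ν).1 hνM
  have hνD : ∀ D : Derivation ℚ ℝ ℝ, (∀ i ∈ insert v C, dv D (p i) = 0) → dv D ν = 0 := by
    intro D hD
    have hvan : Van K D := van_adjoin (by
      rintro r ⟨i, hi, a, rfl⟩
      exact congrFun (hD i hi) a)
    ext k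
    exact hvan _ (hνK k)
  -- the difference is a multiple of the normal
  have hνw : ν ⬝ᵥ (p v - p w₀) ≠ 0 := fun h0 => hν (perp_zero hp hC hvC hw₀v hw₀C hνC h0)
  set s := ((x - m v) ⬝ᵥ (p v - p w₀)) / (ν ⬝ᵥ (p v - p w₀)) with hs
  have hδν : x - m v = s • ν := by
    rw [← sub_eq_zero]
    refine perp_zero hp hC hvC hw₀v hw₀C (fun c hc => ?_) ?_
    · rw [sub_dotProduct, smul_dotProduct, hνC c hc, smul_zero, sub_zero]
      exact (hM _).1 hδM c hc
    · rw [sub_dotProduct, smul_dotProduct, smul_eq_mul, hs, div_mul_cancel₀ _ hνw, sub_self]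
  have hs0 : s ≠ 0 := by
    intro h0
    rw [h0, zero_smul] at hδν
    exact hδ hδν
  -- rescale
  let m₁ : Conf d V := fun i => s⁻¹ • m i
  have hx : s⁻¹ • x = m₁ v + ν := by
    have : x = m v + s • ν := by rw [← hδν]; abel
    rw [this, smul_add, smul_smul, inv_mul_cancel₀ hs0, one_smul]
  have hm₁ : ∀ i j, H.Adj i j → (p i - p j) ⬝ᵥ (m₁ i - m₁ j + sg v A i j • ν) = 0 := by
    have hkey : ∀ w, H.Adj v w → (p v - p w) ⬝ᵥ (m₁ v - m₁ w + sg v A v w • ν) = 0 := by
      intro w hw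
      by_cases hwA : w ∈ A
      · have e1 : sg v A v w = 1 := by
          unfold sg
          rw [if_pos ⟨rfl, hwA⟩, if_neg (fun h => hw.ne h.1.symm)]; ring
        rw [e1, one_smul]
        have e2 : m₁ v - m₁ w + ν = s⁻¹ • (x - m w) := by
          rw [smul_sub, hx]
          simp only [m₁]; abel
        rw [e2, dotProduct_smul, h2 w (Or.inl hwA), smul_zero]
      · have e1 : sg v A v w = 0 := by
          unfold sg
          rw [if_neg (fun h => hwA h.2), if_neg (fun h => hw.ne h.1.symm)]; ring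
        rw [e1, zero_smul, add_zero]
        have e2 : m₁ v - m₁ w = s⁻¹ • (m v - m w) := by
          simp only [m₁]; rw [smul_sub]
        rw [e2, dotProduct_smul, h3 w ?_, smul_zero]
        rcases hN w hw with h | h | h
        · exact absurd h hwA
        · exact Or.inl h
        · exact Or.inr h
    intro i j hij
    by_cases hi : i = v
    · subst hi; exact hkey j hij
    · by_cases hj : j = v
      · subst hj
        have e1 := hkey i hij.symm
        have e2 : sg j A i j = - sg j A j i := by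
          unfold sg; ring
        rw [e2, neg_smul]
        have e3 : m₁ i - m₁ j + -(sg j A j i • ν) = -(m₁ j - m₁ i + sg j A j i • ν) := by abel
        have e4 : p i - p j = - (p j - p i) := by abel
        rw [e3, e4, neg_dotProduct, dotProduct_neg, e1]; simp
      · have e1 : sg v A i j = 0 := by
          unfold sg
          rw [if_neg (fun h => hi h.1), if_neg (fun h => hj h.1)]; ring
        rw [e1, zero_smul, add_zero]
        have e2 : m₁ i - m₁ j = s⁻¹ • (m i - m j) := by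
          simp only [m₁]; rw [smul_sub]
        rw [e2, dotProduct_smul, h1 i j hi hj hij, smul_zero]
  have hAS : AS p := hp.as (by omega)
  obtain ⟨M', μ, hM1, hM2, hM3⟩ := step2 hν hAS hm₁ (fun e he =>
    step1 hp hω hK hC hvC hw₀v hw₀C hνD hm₁ he)
  have hM0 := step3 hp hIR hV hC hvC hν hνD hM1 hM2 hM3
  refine step4 hp hω hK hC hvC hν hνD hνC hAN hBN hAC hBC hAB hA hB (μ := μ) ?_
  intro i j hij
  have := hM3 i j hij
  rw [hM0, Matrix.zero_mulVec, dotProduct_zero, zero_add] at this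
  exact this

end coin

end Pool.Agent.H135R2.VS
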