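import Pool.Agent.H135R2.VS.Coin

set_option autoImplicit false
set_option linter.unusedSectionVars false

/-! # Rigidity matrix; Connelly's sufficient condition for global rigidity -/

namespace Pool.Agent.H135R2.VS

open Set Matrix MvPolynomial

variable {V : Type*} {d : ℕ} [Fintype V] [DecidableEq V]

open Classical in
/-- The rigidity matrix (with a zero row for each nonadjacent pair). -/
noncomputable def Rp (d : ℕ) (K : SF) (G : SimpleGraph V) :
    Matrix (V × V) (V × Fin d) (MvPolynomial (V × Fin d) K) :=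
  Matrix.of fun e c => if G.Adj e.1 e.2 then
    (if c.1 = e.1 then X (e.1, c.2) - X (e.2, c.2) else 0) +
      (if c.1 = e.2 then X (e.2, c.2) - X (e.1, c.2) else 0) else 0

/-- Uncurrying. -/
def unc (p : Conf d V) : V × Fin d → ℝ := fun i => p i.1 i.2

theorem evm_Rp (K : SF) (G : SimpleGraph V) (p m : Conf d V) (i j : V) (hij : G.Adj i j) :
    (evm (Rp d K G) (unc p) *ᵥ unc m) (i, j) = fl p m i j := by
  classical
  simp only [Matrix.mulVec, dotProduct, evm, Matrix.map_apply, Rp, Matrix.of_apply, if_pos hij]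
  rw [Fintype.sum_prod_type]
  have h1 : ∀ k : V, ∑ a : Fin d, aeval (unc p) ((if k = i then
      (X (i, a) : MvPolynomial (V × Fin d) K) - X (j, a) else 0) +
      (if k = j then X (j, a) - X (i, a) else 0)) * unc m (k, a) =
      (if k = i then ∑ a, (p i a - p j a) * m k a else 0) +
        (if k = j then ∑ a, (p j a - p i a) * m k a else 0) := by
    intro k
    by_cases hi : k = i
    · by_cases hj : k = j
      · exact absurd (hi.symm.trans hj) hij.ne
      · simp [hi, hij.ne, unc]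
    · by_cases hj : k = j
      · subst hj
        simp [hij.ne', unc]
      · simp [hi, hj]
  rw [Finset.sum_congr rfl fun k _ => h1 k, Finset.sum_add_distrib, Finset.sum_ite_eq' Finset.univ i,
    Finset.sum_ite_eq' Finset.univ j, if_pos (Finset.mem_univ _), if_pos (Finset.mem_univ _),
    ← Finset.sum_add_distrib]
  unfold fl
  refine Finset.sum_congr rfl fun a _ => ?_
  ring

theorem evm_Rp_zero (K : SF) (G : SimpleGraph V) (p m : Conf d V) (i j : V) (hij : ¬ G.Adj i j) :
    (evm (Rp d K G) (unc p) *ᵥ unc m) (i, j) = 0 := by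
  simp [Matrix.mulVec, dotProduct, evm, Matrix.map_apply, Rp, Matrix.of_apply, hij]

theorem evm_Rp_eq_iff (K : SF) (G : SimpleGraph V) (p q m m' : Conf d V) :
    evm (Rp d K G) (unc p) *ᵥ unc m = evm (Rp d K G) (unc q) *ᵥ unc m' ↔
      ∀ i j, G.Adj i j → fl p m i j = fl q m' i j := by
  constructor
  · intro h i j hij
    have := congrFun h (i, j)
    rwa [evm_Rp _ _ _ _ _ _ hij, evm_Rp _ _ _ _ _ _ hij] at this
  · intro h
    ext ⟨i, j⟩
    by_cases hij : G.Adj i j
    · rw [evm_Rp _ _ _ _ _ _ hij, evm_Rp _ _ _ _ _ _ hij, h i j hij]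
    · rw [evm_Rp_zero _ _ _ _ _ _ hij, evm_Rp_zero _ _ _ _ _ _ hij]

theorem unc_surj (m : V × Fin d → ℝ) : ∃ m' : Conf d V, unc m' = m :=
  ⟨fun i a => m (i, a), rfl⟩

theorem der_fl (D : Derivation ℚ ℝ ℝ) (p m : Conf d V) (i j : V) :
    D (fl p m i j) = fl (fun i => dv D (p i)) m i j + fl p (fun i => dv D (m i)) i j := by
  rw [fl_dot, der_dot, dv_sub, dv_sub, fl_dot, fl_dot]

/-- The flexes of an equivalent framework. -/
theorem range_eq {G : SimpleGraph V} {p q : Conf d V} (hp : Gen p)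
    (hq : ∀ i j, G.Adj i j → fl q q i j = fl p p i j) (m : Conf d V) :
    ∃ m' : Conf d V, ∀ i j, G.Adj i j → fl q m i j = fl p m' i j := by
  have hp' : AlgebraicIndependent (⊥ : SF) (unc p) := bot_of_rat hp
  have h1 : LinearMap.range (evm (Rp d ⊥ G) (unc p)).mulVecLin ≤
      LinearMap.range (evm (Rp d ⊥ G) (unc q)).mulVecLin := by
    rintro _ ⟨v, rfl⟩
    obtain ⟨v, rfl⟩ := unc_surj v
    obtain ⟨D, hD⟩ := hp.der v
    have hD' : (fun i => dv D (p i)) = v := by
      ext i a; exact hD i a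
    refine ⟨unc (fun i => dv D (q i)), ?_⟩
    change evm _ (unc q) *ᵥ _ = evm _ (unc p) *ᵥ _
    rw [evm_Rp_eq_iff]
    intro i j hij
    have h2 := congrArg D (hq i j hij)
    rw [der_fl, der_fl, hD', fl_comm _ q, fl_comm _ p] at h2
    linarith
  have h2 : LinearMap.range (evm (Rp d ⊥ G) (unc p)).mulVecLin =
      LinearMap.range (evm (Rp d ⊥ G) (unc q)).mulVecLin := by
    apply Submodule.eq_of_le_of_finrank_le h1
    exact rank_le_generic (Rp d ⊥ G) hp'
  have h3 : evm (Rp d ⊥ G) (unc q) *ᵥ unc m ∈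
      LinearMap.range (evm (Rp d ⊥ G) (unc p)).mulVecLin := by
    rw [h2]; exact ⟨unc m, rfl⟩
  obtain ⟨m', hm'⟩ := h3
  obtain ⟨m', rfl⟩ := unc_surj m'
  exact ⟨m', fun i j hij => ((evm_Rp_eq_iff _ _ _ _ _ _).1 hm' i j hij).symm⟩

/-- Weights on a single coordinate. -/
theorem en_eq_sum_fl (ω : V → V → ℝ) (q : Conf d V) (a : Fin d) (z : V → ℝ) :
    en ω (fun i => q i a) z = ∑ i, ∑ j, ω i j * fl q (fun i => z i • Pi.single a 1) i j := by
  unfold en
  refine Finset.sum_congr rfl fun i _ => Finset.sum_congr rfl fun j _ => ?_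
  congr 1
  rw [fl_dot, ← sub_smul, dotProduct_smul, dotProduct_single, smul_eq_mul]
  simp only [Pi.sub_apply]
  ring

/-- Equivalent frameworks of generic frameworks have the same stresses. -/
theorem Str.transfer {G : SimpleGraph V} {p q : Conf d V} {ω : V → V → ℝ} (hω : Str G p ω)
    (hp : Gen p) (hq : ∀ i j, G.Adj i j → fl q q i j = fl p p i j) : Str G q ω := by
  refine ⟨hω.1, fun a z => ?_⟩
  obtain ⟨m', hm'⟩ := range_eq hp hq (fun i => z i • Pi.single a 1)
  rw [en_eq_sum_fl, ← hω.sum_fl m']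
  refine Finset.sum_congr rfl fun i _ => Finset.sum_congr rfl fun j _ => ?_
  by_cases hij : G.Adj i j
  · rw [hm' i j hij]
  · rw [hω.1 i j hij, zero_mul, zero_mul]

/-- **Connelly's theorem.** -/
theorem connelly {G : SimpleGraph V} {p q : Conf d V} {ω : V → V → ℝ} (hp : Gen p)
    (hIR : IR G p) (hω : Str G p ω) (hK : ∀ y ∈ Ker ω, ∃ a b, ∀ i, y i = a ⬝ᵥ p i + b)
    (hq : ∀ i j, G.Adj i j → fl q q i j = fl p p i j) (i j : V) : fl q q i j = fl p p i j := by
  have h1 := hω.transfer hp hq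
  choose a b hab using fun k => hK _ (h1.2 k)
  let L : Matrix (Fin d) (Fin d) ℝ := Matrix.of a
  have hqL : ∀ i, q i = L *ᵥ p i + b := by
    intro i; ext k
    exact hab k i
  have hfl : ∀ i j, fl q q i j = (p i - p j) ⬝ᵥ ((Lᵀ * L) *ᵥ (p i - p j)) := by
    intro i j
    have : q i - q j = L *ᵥ (p i - p j) := by
      rw [hqL i, hqL j, Matrix.mulVec_sub]; abel
    rw [fl_dot, this, ← Matrix.mulVec_mulVec, Matrix.dotProduct_mulVec _ Lᵀ,
      Matrix.vecMul_transpose]
  have h2 : ∀ i j, fl p (fun i => (Lᵀ * L - 1) *ᵥ p i) i j = fl q q i j - fl p p i j := by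
    intro i j
    rw [hfl, fl_dot, fl_dot]
    have : (Lᵀ * L - 1) *ᵥ p i - (Lᵀ * L - 1) *ᵥ p j =
        (Lᵀ * L) *ᵥ (p i - p j) - (p i - p j) := by
      rw [← Matrix.mulVec_sub, Matrix.sub_mulVec, Matrix.one_mulVec]
    rw [this, dotProduct_sub]
  have h3 := hIR (fun i => (Lᵀ * L - 1) *ᵥ p i) (fun i j hij => by
    rw [h2, hq i j hij, sub_self]) i j
  rw [h2] at h3
  linarith

end Pool.Agent.H135R2.VS
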