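import Pool.Agent.H135R2.VS.Min

set_option autoImplicit false
set_option linter.unusedSectionVars false

/-! # Critical configurations affinely span -/

namespace Pool.Agent.H135R2.VS

open Set Matrix

variable {V : Type*} {d : ℕ} [Fintype V] [DecidableEq V]

/-- The linear parts of affine functions vanishing on the configuration. -/
def Yc (c : Conf d V) : Submodule ℝ (Fin d → ℝ) where
  carrier := {y | ∃ β : ℝ, ∀ i, y ⬝ᵥ c i + β = 0}
  add_mem' := by
    rintro y y' ⟨β, h⟩ ⟨β', h'⟩
    refine ⟨β + β', fun i => ?_⟩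
    rw [add_dotProduct]
    linarith [h i, h' i]
  zero_mem' := ⟨0, fun i => by simp⟩
  smul_mem' := by
    rintro r y ⟨β, h⟩
    refine ⟨r * β, fun i => ?_⟩
    rw [smul_dotProduct, smul_eq_mul, ← mul_add, h i, mul_zero]

theorem Isom_skew {d : ℕ} (S : Isom d) (x y : Fin d → ℝ) : x ⬝ᵥ S.1.1 y = - (y ⬝ᵥ S.1.1 x) :=
  S.2 x y

theorem Isom_self {d : ℕ} (S : Isom d) (x : Fin d → ℝ) : x ⬝ᵥ S.1.1 x = 0 := by
  have := Isom_skew S x x
  linarith

theorem mem_Ker_lin {ω : V → V → ℝ} {c : Conf d V} (hc : ∀ a, (fun i => c i a) ∈ Ker ω)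
    (S : (Fin d → ℝ) →ₗ[ℝ] (Fin d → ℝ)) (a : Fin d) : (fun i => S (c i) a) ∈ Ker ω := by
  have h1 : (fun i => S (c i) a) = ∑ e, (S (Pi.single e 1) a) • (fun i => c i e) := by
    ext i
    conv_lhs => rw [fun_eq_sum_single (c i), map_sum]
    simp only [Finset.sum_apply, map_smul, Pi.smul_apply, smul_eq_mul]
    exact Finset.sum_congr rfl fun e _ => mul_comm _ _
  rw [h1]
  exact Submodule.sum_mem _ fun e _ => Submodule.smul_mem _ _ (hc e)

section count

variable {ω : V → V → ℝ} {k : ℕ} {b : Fin k → V → ℝ} {j r : ℕ}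

/-- A space of motions not changing any distance to first order. -/
noncomputable def Psi (E : (Fin r → ℝ) →ₗ[ℝ] Isom d) (b : Fin k → V → ℝ) (c : Conf d V)
    (y : Fin j → Fin d → ℝ) :
    ((Fin r → ℝ) × (Fin j → Fin k → ℝ)) →ₗ[ℝ] Conf d V where
  toFun S i := (E S.1).1.1 (c i) + (E S.1).1.2 + ∑ l, (∑ m, S.2 l m * b m i) • y l
  map_add' S T := by
    funext i
    simp only [Prod.fst_add, Prod.snd_add, Submodule.coe_add, LinearMap.add_apply, Pi.add_apply,
      add_mul, Finset.sum_add_distrib, add_smul, map_add]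
    abel
  map_smul' r S := by
    funext i
    simp only [Prod.smul_fst, Prod.smul_snd, Submodule.coe_smul, LinearMap.smul_apply,
      Pi.smul_apply, smul_eq_mul, RingHom.id_apply, smul_add, Finset.smul_sum, smul_smul,
      Finset.mul_sum, mul_assoc, map_smul]

variable {E : (Fin r → ℝ) →ₗ[ℝ] Isom d}

theorem Psi_apply (c : Conf d V) (y : Fin j → Fin d → ℝ) (S : (Fin r → ℝ) × (Fin j → Fin k → ℝ))
    (i : V) : Psi E b c y S i = (E S.1).1.1 (c i) + (E S.1).1.2 +
      ∑ l, (∑ m, S.2 l m * b m i) • y l := rfl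

theorem Psi_fl {c : Conf d V} {y : Fin j → Fin d → ℝ} (hy : ∀ l, y l ∈ Yc c)
    (S : (Fin r → ℝ) × (Fin j → Fin k → ℝ)) (i i' : V) : fl c (Psi E b c y S) i i' = 0 := by
  rw [fl_dot, Psi_apply, Psi_apply]
  have h1 : ∀ l, (c i - c i') ⬝ᵥ y l = 0 := by
    intro l
    obtain ⟨β, hβ⟩ := hy l
    have h2 := hβ i
    have h3 := hβ i'
    rw [dotProduct_comm, dotProduct_sub]
    linarith
  have h2 : (E S.1).1.1 (c i) + (E S.1).1.2 + ∑ l, (∑ m, S.2 l m * b m i) • y l -
      ((E S.1).1.1 (c i') + (E S.1).1.2 + ∑ l, (∑ m, S.2 l m * b m i') • y l) =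
      (E S.1).1.1 (c i - c i') + (∑ l, (∑ m, S.2 l m * b m i) • y l -
        ∑ l, (∑ m, S.2 l m * b m i') • y l) := by
    rw [map_sub]; abel
  rw [h2, dotProduct_add, Isom_self, dotProduct_sub, dotProduct_sum, dotProduct_sum]
  simp only [dotProduct_smul, h1, smul_zero, Finset.sum_const_zero]
  ring

theorem Psi_mem (hbs : Submodule.span ℝ (range b) = Ker ω) {c : Conf d V}
    (hc : ∀ a, (fun i => c i a) ∈ Ker ω) (y : Fin j → Fin d → ℝ)
    (S : (Fin r → ℝ) × (Fin j → Fin k → ℝ)) (a : Fin d) :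
    (fun i => Psi E b c y S i a) ∈ Ker ω := by
  have h1 : (fun i => Psi E b c y S i a) = (fun i => (E S.1).1.1 (c i) a) +
      (fun _ => (E S.1).1.2 a) + ∑ l, y l a • ∑ m, S.2 l m • b m := by
    ext i
    simp only [Psi_apply, Pi.add_apply, Finset.sum_apply, Pi.smul_apply, smul_eq_mul]
    congr 1
    exact Finset.sum_congr rfl fun l _ => mul_comm _ _
  rw [h1]
  refine Submodule.add_mem _ (Submodule.add_mem _ (mem_Ker_lin hc _ a) (const_mem_Ker _ _)) ?_
  refine Submodule.sum_mem _ fun l _ => Submodule.smul_mem _ _ ?_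
  rw [← hbs]
  exact Submodule.sum_mem _ fun m _ => Submodule.smul_mem _ _ (Submodule.subset_span ⟨m, rfl⟩)

/-- The size of the kernel. -/
theorem Psi_ker (hE : Function.Injective E) (hb : LinearIndependent ℝ b) [Nonempty V]
    {c : Conf d V} {y : Fin j → Fin d → ℝ} (hy : LinearIndependent ℝ y)
    (hys : Submodule.span ℝ (range y) = Yc c) (hj : 0 < j) :
    Module.finrank ℝ (LinearMap.ker (Psi E b c y)) + 1 ≤ j * d + j := by
  let φ : ((Fin j → Fin d → ℝ) × (Fin j → ℝ)) →ₗ[ℝ] ℝ :=
    { toFun := fun u => y ⟨0, hj⟩ ⬝ᵥ u.1 ⟨0, hj⟩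
      map_add' := fun u v => by simp only [Prod.fst_add, Pi.add_apply, dotProduct_add]
      map_smul' := fun r u => by
        simp only [Prod.smul_fst, Pi.smul_apply, dotProduct_smul, RingHom.id_apply] }
  have hφ : φ ≠ 0 := by
    intro h0
    have h1 : φ (fun _ => y ⟨0, hj⟩, 0) = 0 := by rw [h0]; rfl
    have h2 : y ⟨0, hj⟩ ⬝ᵥ y ⟨0, hj⟩ = 0 := h1
    exact hy.ne_zero _ (dotProduct_self_eq_zero.1 h2)
  have hφ1 : 1 ≤ Module.finrank ℝ (LinearMap.range φ) := by
    have : Nontrivial (LinearMap.range φ) := by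
      rw [Submodule.nontrivial_iff_ne_bot]
      intro h
      exact hφ (LinearMap.range_eq_bot.1 h)
    exact Module.finrank_pos
  have hdim := LinearMap.finrank_range_add_finrank_ker φ
  have hdim2 : Module.finrank ℝ ((Fin j → Fin d → ℝ) × (Fin j → ℝ)) = j * d + j := by
    rw [Module.finrank_prod, Module.finrank_pi_fintype]
    simp
  rw [hdim2] at hdim
  let κ : ((Fin r → ℝ) × (Fin j → Fin k → ℝ)) →ₗ[ℝ] ((Fin j → Fin d → ℝ) × (Fin j → ℝ)) :=
    { toFun := fun S => (fun l => (E S.1).1.1 (y l), fun l => y l ⬝ᵥ (E S.1).1.2)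
      map_add' := fun S T => by
        ext l
        · simp
        · simp [dotProduct_add]
      map_smul' := fun r S => by
        ext l
        · simp
        · simp [dotProduct_smul] }
  have hmaps : ∀ S ∈ LinearMap.ker (Psi E b c y), κ S ∈ LinearMap.ker φ := by
    intro S _
    change y ⟨0, hj⟩ ⬝ᵥ (E S.1).1.1 (y ⟨0, hj⟩) = 0
    exact Isom_self _ _
  have hinj : Function.Injective (κ.restrict hmaps) := by
    rw [injective_iff_map_eq_zero]
    rintro ⟨S, hS⟩ h0
    have h0' : κ S = 0 := congrArg Subtype.val h0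
    have hSy : ∀ l, (E S.1).1.1 (y l) = 0 := fun l => congrFun (congrArg Prod.fst h0') l
    have hby : ∀ l, y l ⬝ᵥ (E S.1).1.2 = 0 := fun l => congrFun (congrArg Prod.snd h0') l
    have hΨ : ∀ i, (E S.1).1.1 (c i) + (E S.1).1.2 + ∑ l, (∑ m, S.2 l m * b m i) • y l = 0 :=
      fun i => congrFun hS i
    -- the normal part vanishes
    have hw : ∀ i, ∑ l, (∑ m, S.2 l m * b m i) • y l = 0 := by
      intro i
      set w := ∑ l, (∑ m, S.2 l m * b m i) • y l with hwdef
      have h1 : ∀ l, y l ⬝ᵥ w = 0 := by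
        intro l
        have h2 := congrArg (fun v => y l ⬝ᵥ v) (hΨ i)
        simp only [dotProduct_add, dotProduct_zero] at h2
        rw [Isom_skew, hSy, dotProduct_zero, hby] at h2
        linarith
      apply dotProduct_self_eq_zero.1
      conv_lhs => arg 1; rw [hwdef]
      rw [sum_dotProduct]
      refine Finset.sum_eq_zero fun l _ => ?_
      rw [smul_dotProduct, h1, smul_zero]
    have hz : S.2 = 0 := by
      funext l m
      have h1 : ∀ i, ∑ m, S.2 l m * b m i = 0 := fun i =>
        Fintype.linearIndependent_iff.1 hy _ (hw i) l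
      have h2 : ∑ m, S.2 l m • b m = 0 := by
        ext i
        simpa [Finset.sum_apply] using h1 i
      exact Fintype.linearIndependent_iff.1 hb _ h2 m
    have hΨ' : ∀ i, (E S.1).1.1 (c i) + (E S.1).1.2 = 0 := by
      intro i
      have := hΨ i
      rwa [hw i, add_zero] at this
    -- the linear part vanishes
    have hSY : ∀ v ∈ Yc c, (E S.1).1.1 v = 0 := by
      intro v hv
      rw [← hys] at hv
      induction hv using Submodule.span_induction with
      | mem x hx => obtain ⟨l, rfl⟩ := hx; exact hSy l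
      | zero => exact map_zero _
      | add x y _ _ hx hy => rw [map_add, hx, hy, add_zero]
      | smul r x _ hx => rw [map_smul, hx, smul_zero]
    have hSv : ∀ v, (E S.1).1.1 v = 0 := by
      intro v
      have h1 : (E S.1).1.1 v ∈ Yc c := by
        refine ⟨- (v ⬝ᵥ (E S.1).1.2), fun i => ?_⟩
        have h2 := congrArg (fun u => v ⬝ᵥ u) (hΨ' i)
        simp only [dotProduct_add, dotProduct_zero] at h2
        rw [Isom_skew] at h2
        rw [dotProduct_comm]
        linarith
      have h3 := hSY _ h1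
      apply dotProduct_self_eq_zero.1
      rw [Isom_skew, h3, dotProduct_zero, neg_zero]
    have hS1 : S.1 = 0 := by
      apply hE
      rw [map_zero]
      apply Subtype.ext
      refine Prod.ext ?_ ?_
      · exact LinearMap.ext hSv
      · obtain ⟨i⟩ := (inferInstance : Nonempty V)
        have := hΨ' i
        rw [hSv, zero_add] at this
        exact this
    apply Subtype.ext
    exact Prod.ext hS1 hz
  have hle := LinearMap.finrank_le_finrank_of_injective hinj
  omega

/-- Degenerate configurations have many motions. -/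
theorem dim_T (hE : Function.Injective E) (hb : LinearIndependent ℝ b) (hbs : Submodule.span ℝ (range b) = Ker ω)
    (hk : d + 2 ≤ k) {c : Conf d V} (hc : ∀ a, (fun i => c i a) ∈ Ker ω) [Nonempty V]
    (hnAS : ¬ AS c) (N : Submodule ℝ (Conf d V))
    (hN : ∀ m : Conf d V, (∀ a, (fun i => m i a) ∈ Ker ω) → (∀ i j, fl c m i j = 0) → m ∈ N) :
    r + 2 ≤ Module.finrank ℝ N := by
  classical
  let B := Module.finBasis ℝ (Yc c)
  let j := Module.finrank ℝ (Yc c)
  let y : Fin j → Fin d → ℝ := fun l => (B l : Fin d → ℝ)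
  have hyY : ∀ l, y l ∈ Yc c := fun l => (B l).2
  have hy : LinearIndependent ℝ y :=
    B.linearIndependent.map' (Yc c).subtype (Submodule.ker_subtype _)
  have hys : Submodule.span ℝ (range y) = Yc c := by
    have h1 : range y = (Yc c).subtype '' range B := by
      rw [← range_comp]; rfl
    rw [h1, ← Submodule.map_span, B.span_eq, Submodule.map_top, Submodule.range_subtype]
  have hj : 0 < j := by
    unfold AS at hnAS
    push Not at hnAS
    obtain ⟨a, β, h1, h2⟩ := hnAS
    have : Nontrivial (Yc c) := ⟨⟨⟨a, β, h1⟩, 0, fun h => h2 (congrArg Subtype.val h)⟩⟩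
    exact Module.finrank_pos
  have hker := Psi_ker hE hb hy hys hj
  have hdim := LinearMap.finrank_range_add_finrank_ker (Psi E b c y)
  have hdim2 : Module.finrank ℝ ((Fin r → ℝ) × (Fin j → Fin k → ℝ)) = r + j * k := by
    simp [Module.finrank_prod, Module.finrank_pi_fintype]
  have hle : Module.finrank ℝ (LinearMap.range (Psi E b c y)) ≤ Module.finrank ℝ N := by
    apply Submodule.finrank_mono
    rintro _ ⟨S, rfl⟩
    exact hN _ (fun a => Psi_mem hbs hc y S a) (fun i i' => Psi_fl hyY S i i')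
  have h3 : j * (d + 2) ≤ j * k := Nat.mul_le_mul_left j hk
  have h4 : j * (d + 2) = j * d + j + j := by ring
  omega

end count

end Pool.Agent.H135R2.VS
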