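import Pool.Agent.H135R2.VS.Count

set_option autoImplicit false
set_option linter.unusedSectionVars false

namespace Pool.Agent.H135R2.VS

open Set Matrix

variable {V : Type*} {d : ℕ} [Fintype V] [DecidableEq V]

variable {H : SimpleGraph V} {p : Conf d V} {ω : V → V → ℝ} {k : ℕ} {b : Fin k → V → ℝ}
  {xp : Fin k × Fin d → ℝ} {L : Set (V × V)} [Fintype L]

/-- Flexes in the kernel space are trivial. -/
theorem Dat.trivial (D : Dat H p ω k b xp L) (hAS : AS p) {y : Fin k × Fin d → ℝ}
    (hy : Bq (AA d b L) xp y = 0) : ∃ S : Isom d, ∀ i, cW d b y i = S.1.1 (p i) + S.1.2 := by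
  have h1 : ∀ i j, H.Adj i j → fl p (cW d b y) i j = 0 := by
    intro i j hij
    obtain ⟨γ, hγ⟩ := D.rel hij
    have := hγ xp y
    rw [D.hxp] at this
    rw [this, hy]
    simp
  obtain ⟨S, β, hS, hm⟩ := trivial_motion hAS (D.hIR _ h1)
  exact ⟨⟨(S, β), hS⟩, hm⟩

theorem finrank_range_ge {ι F : Type*} [Fintype ι] [Fintype F] [DecidableEq ι] [DecidableEq F]
    {A : F → Matrix ι ι ℝ} {K : SF} {c : ι → ℝ} {e₀ : F} (h : Fold A K c e₀) :
    Fintype.card F ≤ Module.finrank ℝ (LinearMap.range (BL A c)) + 1 := by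
  let π : (F → ℝ) →ₗ[ℝ] ({e // e ≠ e₀} → ℝ) := LinearMap.funLeft ℝ ℝ Subtype.val
  have hsurj : Function.Surjective (π ∘ₗ BL A c) := by
    intro v
    obtain ⟨D, hD, hDv⟩ := h.ex_der (fun e => if he : e ≠ e₀ then v ⟨e, he⟩ else 0)
    refine ⟨dv D c, ?_⟩
    ext ⟨e, he⟩
    have := hDv e he
    rw [dif_pos he] at this
    exact this
  have h1 : Module.finrank ℝ (LinearMap.range (π ∘ₗ BL A c)) = Fintype.card F - 1 := by
    rw [LinearMap.range_eq_top.2 hsurj, finrank_top, Module.finrank_fintype_fun_eq_card]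
    simp [Fintype.card_subtype_compl]
  have h2 : Module.finrank ℝ (LinearMap.range (π ∘ₗ BL A c)) ≤
      Module.finrank ℝ (LinearMap.range (BL A c)) := by
    rw [LinearMap.range_comp]
    exact Submodule.finrank_map_le _ _
  omega

/-- **Critical configurations affinely span.** -/
theorem Dat.as_c (D : Dat H p ω k b xp L) (hAS : AS p) (hk : d + 2 ≤ k) [Nonempty V]
    {c : Fin k × Fin d → ℝ} {e₀ : L} (hF : Fold (AA d b L) (K0 ω) c e₀) : AS (cW d b c) := by
  classical
  by_contra hnAS
  let N : Submodule ℝ (Conf d V) := Submodule.map (cW d b) (LinearMap.ker (BL (AA d b L) c))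
  have hN : ∀ m : Conf d V, (∀ a, (fun i => m i a) ∈ Ker ω) →
      (∀ i j, fl (cW d b c) m i j = 0) → m ∈ N := by
    intro m hm hfl
    obtain ⟨y, rfl⟩ := cW_surj D.hbs hm
    refine ⟨y, ?_, rfl⟩
    change Bq (AA d b L) c y = 0
    ext e
    rw [Bq_AA, hfl]; rfl
  -- trivial motions of `p`
  let B := Module.finBasis ℝ (LinearMap.ker (BL (AA d b L) xp))
  have hB : ∀ l, ∃ S : Isom d, ∀ i, cW d b (B l : Fin k × Fin d → ℝ) i = S.1.1 (p i) + S.1.2 :=
    fun l => D.trivial hAS (B l).2
  choose T hT using hB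
  let E : (Fin (Module.finrank ℝ (LinearMap.ker (BL (AA d b L) xp))) → ℝ) →ₗ[ℝ] Isom d :=
    Fintype.linearCombination ℝ T
  have hE : Function.Injective E := by
    rw [injective_iff_map_eq_zero]
    intro s hs
    have h1 : E s = ∑ l, s l • T l := Fintype.linearCombination_apply ℝ T s
    have h2 : cW d b (∑ l, s l • (B l : Fin k × Fin d → ℝ)) = 0 := by
      funext i
      rw [map_sum, Finset.sum_apply]
      have h3 : ∀ l, (cW d b (s l • (B l : Fin k × Fin d → ℝ))) i =
          s l • ((T l).1.1 (p i) + (T l).1.2) := by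
        intro l
        rw [map_smul, Pi.smul_apply, hT]
      rw [Finset.sum_congr rfl fun l _ => h3 l]
      have h4 : ∑ l, s l • ((T l).1.1 (p i) + (T l).1.2) = (E s).1.1 (p i) + (E s).1.2 := by
        rw [h1]
        simp only [Submodule.coe_sum, Submodule.coe_smul, Prod.fst_sum, Prod.snd_sum,
          Prod.smul_fst, Prod.smul_snd, LinearMap.sum_apply, LinearMap.smul_apply, smul_add,
          Finset.sum_add_distrib]
      rw [h4, hs]
      simp
    have h3 : ∑ l, s l • (B l : Fin k × Fin d → ℝ) = 0 := cW_inj D.hb (by rw [h2, map_zero])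
    have h4 : ∑ l, s l • B l = 0 := by
      apply Subtype.ext
      rw [Submodule.coe_sum]
      exact h3
    funext l
    exact Fintype.linearIndependent_iff.1 B.linearIndependent s h4 l
  have h1 := dim_T hE D.hb D.hbs hk (fun a => cW_mem D.hbs c a) hnAS N hN
  have h2 : Module.finrank ℝ N ≤ Module.finrank ℝ (LinearMap.ker (BL (AA d b L) c)) :=
    Submodule.finrank_map_le _ _
  have h3 := finrank_range_ge hF
  have h4 := LinearMap.finrank_range_add_finrank_ker (BL (AA d b L) c)
  have h5 := LinearMap.finrank_range_add_finrank_ker (BL (AA d b L) xp)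
  have h6 : Module.finrank ℝ (LinearMap.range (BL (AA d b L) xp)) = Fintype.card L := by
    rw [LinearMap.range_eq_top.2 D.reg_xp.surj, finrank_top, Module.finrank_fintype_fun_eq_card]
  omega

end Pool.Agent.H135R2.VS
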