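import Mathlib

set_option autoImplicit false

/-! # Global rigidity and vertex splitting: definitions -/

namespace Pool.Agent.H135R2.VS

/-- A configuration `p : V → ℝ^d` is generic if its `d |V|` coordinates are algebraically
independent over `ℚ`. -/
def IsGeneric {V : Type*} {d : ℕ} (p : V → EuclideanSpace ℝ (Fin d)) : Prop :=
  AlgebraicIndependent ℚ (fun i : V × Fin d => p i.1 i.2)

/-- The framework `(G, p)` is globally rigid: every framework `(G, q)` with the same edge lengths
has the same distances between all pairs of vertices. -/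
def FrameworkGloballyRigid {V : Type*} {d : ℕ} (G : SimpleGraph V)
    (p : V → EuclideanSpace ℝ (Fin d)) : Prop :=
  ∀ q : V → EuclideanSpace ℝ (Fin d), (∀ u v, G.Adj u v → ‖q u - q v‖ = ‖p u - p v‖) →
    ∀ u v, ‖q u - q v‖ = ‖p u - p v‖

/-- The graph `G` is globally rigid in `ℝ^d`: every generic framework `(G, p)` in `ℝ^d` is
globally rigid. -/
def GloballyRigid {V : Type*} (d : ℕ) (G : SimpleGraph V) : Prop :=
  ∀ p : V → EuclideanSpace ℝ (Fin d), IsGeneric p → FrameworkGloballyRigid G p

/-- The graph obtained from `H` by deleting the vertex `v` and adding two new adjacent vertices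
`0` and `1`, where the new vertex `i` is joined to the vertices in `N i`. -/
def split {V : Type*} (H : SimpleGraph V) (v : V) (N : Fin 2 → Set V) :
    SimpleGraph ({x : V // x ≠ v} ⊕ Fin 2) where
  Adj
    | Sum.inl x, Sum.inl y => H.Adj x y
    | Sum.inl x, Sum.inr i => (x : V) ∈ N i
    | Sum.inr i, Sum.inl x => (x : V) ∈ N i
    | Sum.inr i, Sum.inr j => i ≠ j
  symm := ⟨by
    rintro (x | i) (y | j) h
    · exact SimpleGraph.Adj.symm (G := H) h
    · exact h
    · exact h
    · exact Ne.symm h⟩
  loopless := ⟨by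
    rintro (x | i) h
    · exact H.loopless.irrefl _ h
    · exact h rfl⟩

/-- `G` is obtained from `H` by a nontrivial `d`-dimensional vertex splitting: the neighbour set
of some vertex `v` of `H` is partitioned into `A₁`, `C`, `A₂` with `|C| = d - 1` and `A₁`, `A₂`
nonempty, and `G` is isomorphic to the graph obtained from `H` by deleting `v` and adding two
adjacent new vertices, joined to `A₁ ∪ C` and to `A₂ ∪ C` respectively. -/
def IsNontrivialVertexSplit {V W : Type*} (d : ℕ) (H : SimpleGraph V) (G : SimpleGraph W) : Prop :=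
  ∃ (v : V) (A₁ C A₂ : Set V), A₁ ∪ C ∪ A₂ = H.neighborSet v ∧
    Disjoint A₁ C ∧ Disjoint A₁ A₂ ∧ Disjoint C A₂ ∧ C.ncard + 1 = d ∧
    A₁.Nonempty ∧ A₂.Nonempty ∧ Nonempty (G ≃g split H v ![A₁ ∪ C, A₂ ∪ C])

end Pool.Agent.H135R2.VS
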