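import Mathlib

set_option autoImplicit false

/-! # Derivations with prescribed values on algebraically independent elements -/

namespace Pool.Agent.H135R2.VS

open MvPolynomial Algebra

section ext

variable {K L : Type*} [Field K] [Field L] [Algebra K L] {κ : Type*} {x : κ → L}

/-- The derivation of `K[x]` with prescribed values on the algebraically independent elements
`x`. -/
theorem exists_derAdjoin (hx : AlgebraicIndependent K x) (v : κ → L) :
    ∃ d : Derivation K (adjoin K (Set.range x)) L,
      ∀ i, d ⟨x i, subset_adjoin ⟨i, rfl⟩⟩ = v i := by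
  let : Module (MvPolynomial κ K) L := Module.compHom L (aeval (R := K) x).toRingHom
  have : IsScalarTower K (MvPolynomial κ K) L := ⟨fun a f l => by
    change (aeval (R := K) x (a • f)) * l = a • ((aeval (R := K) x f) * l)
    rw [map_smul, smul_mul_assoc]⟩
  refine ⟨Derivation.mk'
    ((mkDerivation K v : Derivation K (MvPolynomial κ K) L).toLinearMap ∘ₗ
      hx.aevalEquiv.symm.toLinearMap) ?_, ?_⟩
  · intro a b
    simp only [LinearMap.comp_apply, AlgEquiv.toLinearMap_apply, map_mul]
    change (mkDerivation K v : Derivation K (MvPolynomial κ K) L) _ = _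
    rw [Derivation.leibniz]
    have h : ∀ (a : adjoin K (Set.range x)) (l : L), (hx.aevalEquiv.symm a) • l = a • l := by
      intro a l
      change (aeval (R := K) x (hx.aevalEquiv.symm a)) * l = (a : L) * l
      congr 1
      rw [← hx.algebraMap_aevalEquiv, AlgEquiv.apply_symm_apply]
      rfl
    rw [h, h]
    rfl
  · intro i
    change (mkDerivation K v : Derivation K (MvPolynomial κ K) L) (hx.aevalEquiv.symm _) = _
    have h : hx.aevalEquiv.symm ⟨x i, subset_adjoin ⟨i, rfl⟩⟩ = X i := by
      rw [AlgEquiv.symm_apply_eq]
      apply Subtype.ext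
      have := hx.algebraMap_aevalEquiv (X i)
      rw [aeval_X] at this
      exact this.symm
    rw [h, mkDerivation_X]

open scoped IntermediateField.algebraAdjoinAdjoin in
theorem exists_der_basis [CharZero K] (hx : IsTranscendenceBasis K x) (v : κ → L) :
    ∃ D : Derivation K L L, ∀ i, D (x i) = v i := by
  obtain ⟨d, hd⟩ := exists_derAdjoin hx.1 v
  have h1 : FormallyEtale (adjoin K (Set.range x)) (IntermediateField.adjoin K (Set.range x)) :=
    FormallyEtale.of_isLocalization (nonZeroDivisors _)
  have h2 : Algebra.IsAlgebraic (IntermediateField.adjoin K (Set.range x)) L :=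
    hx.isAlgebraic_field
  have h2' : Algebra.IsSeparable (IntermediateField.adjoin K (Set.range x)) L := inferInstance
  have h3 : FormallyEtale (IntermediateField.adjoin K (Set.range x)) L :=
    Algebra.FormallyEtale.of_isSeparable _ L
  have h4 : FormallyEtale (adjoin K (Set.range x)) L :=
    FormallyEtale.comp _ (IntermediateField.adjoin K (Set.range x)) _
  have hb := KaehlerDifferential.isBaseChange_of_formallyEtale K (adjoin K (Set.range x)) L
  let g := hb.lift d.liftKaehlerDifferential
  refine ⟨g.compDer (KaehlerDifferential.D K L), fun i => ?_⟩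
  have h5 := hb.lift_eq d.liftKaehlerDifferential
    (KaehlerDifferential.D K (adjoin K (Set.range x)) ⟨x i, subset_adjoin ⟨i, rfl⟩⟩)
  rw [KaehlerDifferential.map_D, Derivation.liftKaehlerDifferential_comp_D, hd] at h5
  exact h5

/-- Derivations with prescribed values. -/
theorem exists_der [CharZero K] (hx : AlgebraicIndependent K x) (v : κ → L) :
    ∃ D : Derivation K L L, ∀ i, D (x i) = v i := by
  classical
  have h1 : AlgebraicIndepOn K id (Set.range x) := hx.coe_range
  obtain ⟨t, ht1, ht2⟩ := exists_isTranscendenceBasis_superset h1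
  obtain ⟨D, hD⟩ := exists_der_basis ht2
    (fun y => if h : ∃ i, x i = y.1 then v h.choose else 0)
  refine ⟨D, fun i => ?_⟩
  have h2 := hD ⟨x i, ht1 ⟨i, rfl⟩⟩
  have h3 : ∃ j, x j = x i := ⟨i, rfl⟩
  rw [dif_pos h3] at h2
  rw [h2]
  congr 1
  exact hx.injective h3.choose_spec

/-- The chain rule. -/
theorem der_aeval [DecidableEq κ] (D : Derivation K L L) (i : κ)
    (hD : ∀ j, D (x j) = if j = i then 1 else 0) (g : MvPolynomial κ K) :
    D (aeval x g) = aeval x (pderiv i g) := by
  induction g using MvPolynomial.induction_on with
  | C a => simp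
  | add p q hp hq => simp [hp, hq]
  | mul_X p j hp =>
    rw [map_mul, aeval_X, Derivation.leibniz, hp, hD, Derivation.leibniz, map_add]
    simp only [smul_eq_mul, map_mul, aeval_X, pderiv_X, Pi.single_apply]
    by_cases h : j = i
    · subst h
      simp
    · rw [if_neg h, if_neg h]
      simp

/-- If the derivations take all values on `x`, then `x` is algebraically independent. -/
theorem algInd_of_der [CharZero K] (h : ∀ v : κ → L, ∃ D : Derivation K L L, ∀ i, D (x i) = v i) :
    AlgebraicIndependent K x := by
  classical
  rw [algebraicIndependent_iff]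
  suffices hs : ∀ n : ℕ, ∀ g : MvPolynomial κ K, g.totalDegree ≤ n → aeval x g = 0 → g = 0 from
    fun g hg => hs _ g le_rfl hg
  intro n
  induction n with
  | zero =>
    intro g hg h0
    rw [Nat.le_zero, totalDegree_eq_zero_iff_eq_C] at hg
    rw [hg, aeval_C] at h0
    have : coeff 0 g = 0 := (FaithfulSMul.algebraMap_injective K L) (by rw [h0, map_zero])
    rw [hg, this, C_0]
  | succ n ih =>
    intro g hg h0
    have hz : ∀ i, pderiv i g = 0 := by
      intro i
      apply ih
      · unfold totalDegree
        refine Finset.sup_le fun m hm => ?_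
        rw [mem_support_iff, coeff_pderiv] at hm
        have h1 : m + Finsupp.single i 1 ∈ g.support := by
          rw [mem_support_iff]
          intro h2
          rw [h2, zero_mul] at hm
          exact hm rfl
        have h2 := le_totalDegree h1
        rw [Finsupp.sum_add_index' (fun _ => rfl) (fun _ _ _ => rfl),
          Finsupp.sum_single_index rfl] at h2
        omega
      · obtain ⟨D, hD⟩ := h (fun j => if j = i then 1 else 0)
        rw [← der_aeval D i hD, h0, map_zero]
    have hc : ∀ m, m ≠ 0 → coeff m g = 0 := by
      intro m hm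
      obtain ⟨i, hi⟩ := Finsupp.ne_iff.1 hm
      rw [Finsupp.zero_apply] at hi
      have h1 : m = (m - Finsupp.single i 1) + Finsupp.single i 1 := by
        rw [tsub_add_cancel_of_le]
        rw [Finsupp.single_le_iff]
        omega
      have h2 := coeff_pderiv (i := i) g (m - Finsupp.single i 1)
      rw [hz i, coeff_zero, ← h1] at h2
      rcases mul_eq_zero.1 h2.symm with h3 | h3
      · exact h3
      · exfalso
        have : ((m - Finsupp.single i 1 : κ →₀ ℕ) i : K) + 1 ≠ 0 := Nat.cast_add_one_ne_zero _
        exact this h3
    have hg' : g = C (coeff 0 g) := by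
      ext m
      rw [coeff_C]
      by_cases hm : m = 0
      · rw [hm]; simp
      · rw [hc m hm, if_neg (Ne.symm hm)]
    rw [hg', aeval_C] at h0
    have : coeff 0 g = 0 := (FaithfulSMul.algebraMap_injective K L) (by rw [h0, map_zero])
    rw [hg', this, C_0]

theorem algInd_iff_der [CharZero K] : AlgebraicIndependent K x ↔
    ∀ v : κ → L, ∃ D : Derivation K L L, ∀ i, D (x i) = v i :=
  ⟨fun h v => exists_der h v, algInd_of_der⟩

end ext

end Pool.Agent.H135R2.VS
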