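import Pool.Agent.H135R2.VS.Count2

set_option autoImplicit false
set_option linter.unusedSectionVars false

/-! # A globally rigid graph has a generic framework with a stress of maximal rank -/

namespace Pool.Agent.H135R2.VS

open Set Matrix

variable {V : Type*} {d : ℕ} [Fintype V] [DecidableEq V]

theorem mem_lin {P : Submodule ℝ (V → ℝ)} {c : Conf d V} (hc : ∀ a, (fun i => c i a) ∈ P)
    (S : (Fin d → ℝ) →ₗ[ℝ] (Fin d → ℝ)) (a : Fin d) : (fun i => S (c i) a) ∈ P := by
  have h1 : (fun i => S (c i) a) = ∑ e, (S (Pi.single e 1) a) • (fun i => c i e) := by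
    ext i
    conv_lhs => rw [fun_eq_sum_single (c i), map_sum]
    simp only [Finset.sum_apply, map_smul, Pi.smul_apply, smul_eq_mul]
    exact Finset.sum_congr rfl fun e _ => mul_comm _ _
  rw [h1]
  exact Submodule.sum_mem _ fun e _ => Submodule.smul_mem _ _ (hc e)

theorem continuous_Bq {ι F : Type*} [Fintype ι] [Fintype F] (A : F → Matrix ι ι ℝ) :
    Continuous fun x : ι → ℝ => Bq A x x :=
  (Bc A).continuous.clm_apply continuous_id

variable {H : SimpleGraph V} {p : Conf d V} {ω : V → V → ℝ} {k : ℕ} {b : Fin k → V → ℝ}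
  {xp : Fin k × Fin d → ℝ} {L : Set (V × V)} [Fintype L]

/-- The motion of the fold is not trivial. -/
theorem Dat.nontrivial (D : Dat H p ω k b xp L) {c : Fin k × Fin d → ℝ}
    (hAS : AS (cW d b c)) {σ : L → ℝ} (hσ : ∀ y, σ ⬝ᵥ Bq (AA d b L) c y = 0)
    {m : Fin k × Fin d → ℝ} (hmm : σ ⬝ᵥ Bq (AA d b L) m m ≠ 0) :
    ∃ i j, fl (cW d b c) (cW d b m) i j ≠ 0 := by
  classical
  by_contra hcon
  push Not at hcon
  obtain ⟨S, β, -, hm⟩ := trivial_motion hAS hcon
  apply hmm
  let σ' : V → V → ℝ := fun i j => if h : (i, j) ∈ L then σ ⟨(i, j), h⟩ else 0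
  have hσ' : ∀ x y, σ ⬝ᵥ Bq (AA d b L) x y = ∑ i, ∑ j, σ' i j * fl (cW d b x) (cW d b y) i j := by
    intro x y
    have h1 : ∑ i, ∑ j, σ' i j * fl (cW d b x) (cW d b y) i j =
        ∑ e : V × V, σ' e.1 e.2 * fl (cW d b x) (cW d b y) e.1 e.2 := by
      rw [Fintype.sum_prod_type]
    rw [h1]
    have h5 := sum_dite_sub L (fun e : L => σ e * fl (cW d b x) (cW d b y) e.1.1 e.1.2)
    have h6 : σ ⬝ᵥ Bq (AA d b L) x y =
        ∑ e : L, σ e * fl (cW d b x) (cW d b y) e.1.1 e.1.2 :=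
      Finset.sum_congr rfl fun e _ => by rw [Bq_AA]
    rw [h6, ← h5]
    refine Finset.sum_congr rfl fun e _ => ?_
    by_cases he : e ∈ L
    · rw [dif_pos he]
      simp only [σ', Prod.mk.eta, dif_pos he]
    · rw [dif_neg he]
      simp only [σ', dif_neg he, zero_mul]
  let P : Submodule ℝ (V → ℝ) :=
    { carrier := {y | ∀ z ∈ Ker ω, en σ' y z = 0}
      add_mem' := fun {y y'} h h' z hz => by rw [en_add_left, h z hz, h' z hz, add_zero]
      zero_mem' := fun z _ => by simp [en]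
      smul_mem' := fun r y h z hz => by rw [en_smul_left, h z hz, mul_zero] }
  have hc : ∀ a, (fun i => cW d b c i a) ∈ P := by
    intro a z hz
    have hmem : ∀ e, (fun i => (z i • (Pi.single a 1 : Fin d → ℝ)) e) ∈ Ker ω := by
      intro e
      have h2 : (fun i => (z i • Pi.single a 1 : Fin d → ℝ) e) =
          (Pi.single a 1 : Fin d → ℝ) e • z := by
        ext i; simp [mul_comm]
      rw [h2]
      exact (Ker ω).smul_mem _ hz
    obtain ⟨y, hy⟩ := cW_surj (m := fun i => z i • (Pi.single a 1 : Fin d → ℝ)) D.hbs hmem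
    rw [en_eq_sum_fl, ← hy, ← hσ']
    exact hσ y
  have hm' : ∀ a, (fun i => cW d b m i a) ∈ P := by
    intro a
    have h1 : (fun i => cW d b m i a) = (fun i => S (cW d b c i) a) + fun _ => β a := by
      ext i
      rw [hm i]; rfl
    rw [h1]
    refine P.add_mem (mem_lin hc S a) ?_
    intro z _
    rw [en_symm, en_const]
  rw [hσ', sum_fl]
  exact Finset.sum_eq_zero fun a _ => hm' a _ (cW_mem D.hbs m a)

/-- The main step. -/
theorem Dat.false (D : Dat H p ω k b xp L) (hd : 0 < d) [Nonempty V] (hAS : AS p)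
    (hk : d + 2 ≤ k)
    (hGR : ∀ p : Conf d V, Gen p → ∀ q : Conf d V,
      (∀ i j, H.Adj i j → fl q q i j = fl p p i j) → ∀ i j, fl q q i j = fl p p i j) : False := by
  classical
  have hA : ∀ (e : L) (i j : Fin k × Fin d), AA d b L e i j ∈ K0 ω := fun e i j =>
    AL_cW_mem D.hbK e.1 i j
  have hs : ∀ e : L, (AA d b L e)ᵀ = AA d b L e := fun e => AL_symm _ _
  -- an edge
  have hL : Nonempty L := by
    by_contra hne
    rw [not_nonempty_iff] at hne
    have h1 := D.hIR p (fun i j hij => by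
      obtain ⟨γ, hγ⟩ := D.rel hij
      have := hγ xp xp
      rw [D.hxp] at this
      rw [this]
      simp)
    obtain ⟨o⟩ := (inferInstance : Nonempty V)
    have h2 : (Pi.single ⟨0, hd⟩ 1 : Fin d → ℝ) = 0 := by
      refine hAS _ (- p o ⟨0, hd⟩) fun i => ?_
      rw [eq_of_fl_diag (h1 i o)]
      simp
    have h3 := congrFun h2 ⟨0, hd⟩
    simp at h3
  obtain ⟨e₀⟩ := hL
  obtain ⟨x₁, -, hx₁⟩ := exists_algInd (ι := Fin k × Fin d) (K := K0 ω) isOpen_univ
    ⟨0, mem_univ _⟩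
  obtain ⟨c, hc1, hc2⟩ := D.exists_min hd x₁ e₀
  have hnreg : ¬ Reg (AA d b L) c := by
    refine not_reg_of_min hs (e₀ := e₀) fun x hx => hc2 x fun e he => ?_
    rw [hx e he, hc1 e he]
  have hF : Fold (AA d b L) (K0 ω) c e₀ := by
    refine ⟨hA, hs, ?_⟩
    have h1 := Reg.algInd hA hs (D.reg_gen hx₁) hx₁
    have h2 := h1.comp (Subtype.val : {e // e ≠ e₀} → L) Subtype.val_injective
    have h3 : (fun e : {e // e ≠ e₀} => Bq (AA d b L) c c e) =
        Bq (AA d b L) x₁ x₁ ∘ (Subtype.val : {e // e ≠ e₀} → L) := by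
      funext e
      exact hc1 e.1 e.2
    rw [h3]
    exact h2
  obtain ⟨σ, hσ, hσ0⟩ : ∃ σ : L → ℝ, (∀ y, σ ⬝ᵥ Bq (AA d b L) c y = 0) ∧ σ ≠ 0 := by
    unfold Reg at hnreg
    push Not at hnreg
    exact hnreg
  have hσe : σ e₀ ≠ 0 := fun h => hσ0 (hF.sigma_ne hσ h)
  obtain ⟨m, hm, hmm⟩ := hF.main (fun x hx => D.reg_gen hx) hσ hσe
  obtain ⟨t, ht, hreg⟩ := hF.reg_near hσ hm hmm
  have hASc := D.as_c hAS hk hF
  obtain ⟨i, j, hij⟩ := D.nontrivial hASc hσ hmm
  -- the two points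
  have hPN : Bq (AA d b L) (c + (-t) • m) (c + (-t) • m) =
      Bq (AA d b L) (c + t • m) (c + t • m) := by
    have hm' : Bq (AA d b L) m c = 0 := by rw [Bq_comm hs, hm]
    simp only [Bq_add, Bq_add_left, Bq_smul, Bq_smul_left, hm, hm', smul_zero, add_zero, zero_add,
      smul_smul]
    congr 2
    ring
  set g : (Fin k × Fin d → ℝ) → ℝ := fun x => fl (cW d b x) (cW d b x) i j with hg
  have hgc : Continuous g := by
    have h1 : Continuous (cW d b : (Fin k × Fin d → ℝ) → Conf d V) :=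
      LinearMap.continuous_of_finiteDimensional _
    exact (continuous_fl i j).comp h1
  have hgne : g (c + t • m) ≠ g (c + (-t) • m) := by
    intro h
    simp only [hg, map_add, map_smul, fl_add, fl_add_left, fl_smul, fl_smul_left] at h
    rw [fl_comm (cW d b m) (cW d b c)] at h
    have h1 : 4 * t * fl (cW d b c) (cW d b m) i j = 0 := by linarith
    rcases mul_eq_zero.1 h1 with h2 | h2
    · exact ht (by linarith)
    · exact hij h2
  obtain ⟨u, v, hu, hv, hgu, hgv, huv⟩ := t2_separation hgne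
  have hloc := local_surj hs hreg
  have hU : g ⁻¹' u ∈ nhds (c + t • m) := (hu.preimage hgc).mem_nhds hgu
  have himg : (fun y => Bq (AA d b L) y y) '' (g ⁻¹' u) ∈
      nhds (Bq (AA d b L) (c + t • m) (c + t • m)) := by
    rw [← hloc]
    exact Filter.image_mem_map hU
  have hW : (fun y => Bq (AA d b L) y y) ⁻¹' ((fun y => Bq (AA d b L) y y) '' (g ⁻¹' u)) ∈
      nhds (c + (-t) • m) := by
    have hcont := (continuous_Bq (AA d b L)).continuousAt (x := c + (-t) • m)
    apply hcont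
    change _ ∈ nhds (Bq (AA d b L) (c + (-t) • m) (c + (-t) • m))
    rw [hPN]
    exact himg
  have hV : g ⁻¹' v ∈ nhds (c + (-t) • m) := (hv.preimage hgc).mem_nhds hgv
  obtain ⟨O, hOsub, hOo, hOmem⟩ := mem_nhds_iff.1 (Filter.inter_mem hW hV)
  obtain ⟨y, hyO, hy⟩ := exists_algInd (K := K0 ω) hOo ⟨_, hOmem⟩
  obtain ⟨⟨x, hxU, hxy⟩, hyV⟩ := hOsub hyO
  have hgen : Gen (cW d b y) := Gen_cW D.hbK (by rw [D.hxp]; exact D.hp) hy
  have hfin := hGR (cW d b y) hgen (cW d b x) (by
    intro a e hae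
    obtain ⟨γ, hγ⟩ := D.rel hae
    rw [hγ, hγ]
    refine Finset.sum_congr rfl fun l _ => ?_
    have := congrFun hxy l
    simp only at this
    rw [this]) i j
  exact Set.disjoint_left.1 huv hxU (by
    have : g x = g y := hfin
    rw [this]; exact hyV)

/-- **Existence version of the Gortler–Healy–Thurston theorem.** -/
theorem ght_exists {H : SimpleGraph V} (hd : 0 < d) (hV : d + 1 ≤ Fintype.card V)
    (hGR : ∀ p : Conf d V, Gen p → ∀ q : Conf d V,
      (∀ i j, H.Adj i j → fl q q i j = fl p p i j) → ∀ i j, fl q q i j = fl p p i j) :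
    ∃ (p : Conf d V) (ω : V → V → ℝ), Gen p ∧ IR H p ∧ Str H p ω ∧
      ∀ y ∈ Ker ω, ∃ a b, ∀ i, y i = a ⬝ᵥ p i + b := by
  classical
  have hne : Nonempty V := by
    rw [← Fintype.card_pos_iff]; omega
  obtain ⟨x, -, hx⟩ := exists_algInd (ι := V × Fin d) (K := ⊥) isOpen_univ ⟨0, trivial⟩
  let p : Conf d V := cur d V x
  have hp : Gen p := rat_of_sf hx
  have hIR : IR H p := ir_of_gr hp (hGR p hp)
  obtain ⟨ω, hω, hT⟩ := exists_generic_stress H hp
  have hAS : AS p := hp.as hV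
  refine ⟨p, ω, hp, hIR, hω, affine_of_finrank hAS hω ?_⟩
  by_contra hcon
  obtain ⟨k, b, xp, L, D⟩ := exists_dat hp hIR hω hT
  have := Fintype.ofFinite L
  have hk : Module.finrank ℝ (Ker ω) = k := by
    rw [← D.hbs, finrank_span_eq_card D.hb, Fintype.card_fin]
  exact D.false hd hAS (by omega) hGR

end Pool.Agent.H135R2.VS
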