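import Pool.Agent.H135R2.VS.Trans2

set_option autoImplicit false
set_option linter.unusedSectionVars false

namespace Pool.Agent.H135R2.VS

open Set Matrix MvPolynomial

variable {V : Type*} {d : ℕ} [Fintype V] [DecidableEq V]

theorem rank_ker {I C : Type*} [Fintype I] [Fintype C] [DecidableEq C] (M : Matrix I C ℝ) :
    M.rank + Module.finrank ℝ (LinearMap.ker M.mulVecLin) = Fintype.card C := by
  have := LinearMap.finrank_range_add_finrank_ker M.mulVecLin
  rw [Module.finrank_fintype_fun_eq_card] at this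
  exact this

/-- The parameter point of a generic configuration. -/
noncomputable def xg (v : V) (p' : Conf d (Option V)) (ε : ℝ) : Var d V → ℝ :=
  Sum.elim (fun ia => match ia.1 with
    | some i => p' (some i) ia.2
    | none => (p' none ia.2 - p' (some v) ia.2) / ε) (fun _ => ε)

theorem cf_xg (v : V) (p' : Conf d (Option V)) {ε : ℝ} (hε : ε ≠ 0) :
    cf v (xg v p' ε) = p' := by
  funext w
  cases w with
  | none =>
    ext a
    simp only [cf, xg, Sum.elim_inl, Sum.elim_inr]
    field_simp
    ring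
  | some i => ext a; simp [cf, xg]

theorem xg_algInd (v : V) {p' : Conf d (Option V)} {ε : Unit → ℝ} (hp' : Gen p')
    (hε : AlgebraicIndependent (adj ⊥ (range (unc p'))) ε) :
    AlgebraicIndependent (⊥ : SF) (xg v p' (ε ())) := by
  have h0 : ε () ≠ 0 := hε.ne_zero ()
  have h1 : AlgebraicIndependent (⊥ : SF) (Sum.elim (unc p') ε) :=
    algInd_sum (bot_of_rat hp') hε
  apply algInd_of_derK
  intro w
  obtain ⟨D, hD, hDv⟩ := exists_derK h1 (Sum.elim (fun ia : Option V × Fin d => match ia.1 with
    | some i => w (Sum.inl (some i, ia.2))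
    | none => w (Sum.inl (some v, ia.2)) + w (Sum.inr ()) * ((p' none ia.2 - p' (some v) ia.2) / ε ())
        + ε () * w (Sum.inl (none, ia.2))) (fun _ => w (Sum.inr ())))
  refine ⟨D, hD, ?_⟩
  have hε' : D (ε ()) = w (Sum.inr ()) := hDv (Sum.inr ())
  have hs : ∀ i a, D (p' (some i) a) = w (Sum.inl (some i, a)) := fun i a =>
    hDv (Sum.inl (some i, a))
  have hn : ∀ a, D (p' none a) = w (Sum.inl (some v, a)) +
      w (Sum.inr ()) * ((p' none a - p' (some v) a) / ε ()) + ε () * w (Sum.inl (none, a)) :=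
    fun a => hDv (Sum.inl (none, a))
  rintro (⟨_ | i, a⟩ | ⟨⟩)
  · simp only [xg, Sum.elim_inl]
    have h2 : ε () * ((p' none a - p' (some v) a) / ε ()) = p' none a - p' (some v) a := by
      field_simp
    have h3 := congrArg D h2
    rw [Derivation.leibniz, map_sub, hε', hn, hs, smul_eq_mul, smul_eq_mul] at h3
    have h4 : ε () * D ((p' none a - p' (some v) a) / ε ()) = ε () * w (Sum.inl (none, a)) := by
      linarith
    exact mul_left_cancel₀ h0 h4
  · simp only [xg, Sum.elim_inl]
    exact hs i a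
  · simp only [xg, Sum.elim_inr]
    exact hε'

/-- A modified row of a generic configuration. -/
theorem row_xg (v : V) (G : SimpleGraph (Option V)) (p' m : Conf d (Option V)) {ε : ℝ} (hε : ε ≠ 0)
    (e : Option V × Option V) (he : e ≠ (some v, none)) (hG : G.Adj e.1 e.2) :
    (evm (RX v ⊥ G) (xg v p' ε) *ᵥ unc m) e =
      if e = (none, some v) then fl p' m e.1 e.2 / ε else fl p' m e.1 e.2 := by
  rw [evm_RX v ⊥ G _ m e he hG]
  split_ifs with h
  · subst h
    unfold fl
    rw [Finset.sum_div]
    refine Finset.sum_congr rfl fun a _ => ?_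
    simp only [df, if_true, xg, Sum.elim_inl]
    ring
  · unfold fl
    refine Finset.sum_congr rfl fun a _ => ?_
    rw [df_of_ne v _ h, cf_xg v p' hε]

/-- Flexes and the kernel of the modified rigidity matrix. -/
theorem ker_xg (v : V) (G : SimpleGraph (Option V)) (p' m : Conf d (Option V)) {ε : ℝ} (hε : ε ≠ 0)
    (hm : ∀ i j, G.Adj i j → fl p' m i j = 0) :
    evm (RX v ⊥ G) (xg v p' ε) *ᵥ unc m = 0 := by
  ext e
  by_cases he : e ≠ (some v, none) ∧ G.Adj e.1 e.2
  · rw [row_xg v G p' m hε e he.1 he.2, hm _ _ he.2]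
    simp
  · rw [evm_RX_zero v ⊥ G _ _ e he]; rfl

theorem triv_mem_ker (v : V) (G : SimpleGraph (Option V)) (p' : Conf d (Option V)) {ε : ℝ}
    (hε : ε ≠ 0) : LinearMap.range (triv p') ≤
      LinearMap.ker (evm (RX v ⊥ G) (xg v p' ε)).mulVecLin := by
  rintro _ ⟨⟨⟨L, b⟩, hL⟩, rfl⟩
  rw [LinearMap.mem_ker, Matrix.mulVecLin_apply]
  exact ker_xg v G p' _ hε (fun i j _ => fl_of_skew (b := b) hL i j)

/-- The matrix `U Uᵀ`. -/
def Um {W R : Type*} [CommRing R] {r : ℕ} (u : W × Fin r → R) : Matrix W W R :=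
  Matrix.of fun k l => ∑ s, u (k, s) * u (l, s)

theorem Um_eq {W : Type*} {r : ℕ} (u : W × Fin r → ℝ) :
    Um u = (Matrix.of fun k s => u (k, s)) * (Matrix.of fun k s => u (k, s) : Matrix W (Fin r) ℝ)ᵀ := by
  ext k l
  simp [Um, Matrix.mul_apply]

/-- The determinant polynomial. -/
noncomputable def gpol (d : ℕ) (G : SimpleGraph (Option V)) (v : V) :
    MvPolynomial (Var d V ⊕ (Option V × Option V) ⊕ (Option (Option V) × Fin (d + 1))) (⊥ : SF) :=
  Matrix.det (EM (MvPolynomial (Var d V ⊕ (Option V × Option V) ⊕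
      (Option (Option V) × Fin (d + 1))) (⊥ : SF)) G v
      (X (Sum.inl (Sum.inr ()))) (fun e => X (Sum.inr (Sum.inl e))) +
    Um (W := Option (Option V)) (r := d + 1) (fun kr => X (Sum.inr (Sum.inr kr))))

theorem aeval_gpol (G : SimpleGraph (Option V)) (v : V) (x : Var d V → ℝ)
    (ω : Option V × Option V → ℝ) (u : Option (Option V) × Fin (d + 1) → ℝ) :
    aeval (Sum.elim x (Sum.elim ω u)) (gpol d G v) =
      (EM ℝ G v (x (Sum.inr ())) ω + Um u).det := by
  unfold gpol
  rw [AlgHom.map_det, AlgHom.mapMatrix_apply]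
  congr 1
  have h1 := EM_map (aeval (Sum.elim x (Sum.elim ω u)) : MvPolynomial _ (⊥ : SF) →ₐ[(⊥ : SF)] ℝ).toRingHom
      G v (X (Sum.inl (Sum.inr ()))) (fun e => X (Sum.inr (Sum.inl e)))
  ext k l
  have h2 := congrFun (congrFun h1 k) l
  simp only [Matrix.map_apply] at h2
  simp only [Matrix.map_apply, Matrix.add_apply, map_add]
  congr 1
  · refine Eq.trans h2 ?_
    congr 1
    · simp
    · funext e
      simp
  · simp [Um]

section main

variable {H : SimpleGraph V} {p : Conf d V} {ω : V → V → ℝ} {v : V} {A B C : Finset V}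

/-- **Generic frameworks of the split graph** are infinitesimally rigid and have a stress of
maximal rank, provided the original graph has one generic framework with these properties. -/
theorem split_generic (hp : Gen p) (hIR : IR H p) (hω : Str H p ω)
    (hK : ∀ y ∈ Ker ω, ∃ a b, ∀ i, y i = a ⬝ᵥ p i + b) (hV : d + 2 ≤ Fintype.card V)
    (hC : C.card + 1 = d) (hCN : ∀ w ∈ C, H.Adj v w)
    (hAN : ∀ w ∈ A, H.Adj v w) (hBN : ∀ w ∈ B, H.Adj v w)
    (hN : ∀ w, H.Adj v w → w ∈ A ∨ w ∈ B ∨ w ∈ C)
    (hAC : Disjoint A C) (hBC : Disjoint B C) (hAB : Disjoint A B)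
    (hA : A.Nonempty) (hB : B.Nonempty) (hv : v ∉ (B : Set V) ∪ C)
    {p' : Conf d (Option V)} (hp' : Gen p') :
    IR (splitG H v A B C hv) p' ∧ ∃ ω' : Option V → Option V → ℝ,
      Str (splitG H v A B C hv) p' ω' ∧ ∀ y ∈ Ker ω', ∃ a b, ∀ i, y i = a ⬝ᵥ p' i + b := by
  classical
  set G := splitG H v A B C hv with hG
  have hvA : v ∉ A := fun h => H.loopless.irrefl _ (hAN v h)
  have hAS' : AS p' := hp'.as (by rw [Fintype.card_option]; omega)
  have hAS : AS p := hp.as (by omega)
  have hVne : Nonempty V := ⟨v⟩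
  have hcount : Countable (adj ⊥ (range (unc p'))) := countable_adj (countable_range _)
  obtain ⟨e, -, he⟩ := exists_algInd (ι := Unit) (K := adj ⊥ (range (unc p'))) isOpen_univ
    ⟨0, trivial⟩
  have hε : e () ≠ 0 := he.ne_zero ()
  have hx := xg_algInd v hp' he
  set ε := e () with hεdef
  set x := xg v p' ε with hxdef
  -- dimensions
  have hcfs : AS (cf v (xs p ω v A)) := by
    intro a b h
    refine hAS a b fun i => ?_
    have := h (some i)
    rwa [cf_xs] at this
  have hker1 : LinearMap.ker (evm (RX v ⊥ G) (xs p ω v A)).mulVecLin ≤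
      LinearMap.range (triv (cf v (xs p ω v A))) := by
    intro m hm
    obtain ⟨m, rfl⟩ := unc_surj m
    exact ker_xs ⊥ hp hIR hω hK hV hC hCN hAN hBN hN hAC hBC hAB hA hB hv m hm
  have hd1 : Module.finrank ℝ (LinearMap.ker (evm (RX v ⊥ G) (xs p ω v A)).mulVecLin) ≤
      Module.finrank ℝ (Isom d) :=
    (Submodule.finrank_mono hker1).trans (LinearMap.finrank_range_le _)
  have hd2 : Module.finrank ℝ (LinearMap.range (triv p')) = Module.finrank ℝ (Isom d) :=
    LinearMap.finrank_range_of_inj (triv_inj hAS')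
  have hle : LinearMap.range (triv p') ≤ LinearMap.ker (evm (RX v ⊥ G) x).mulVecLin :=
    triv_mem_ker v G p' hε
  have hd3 := Submodule.finrank_mono hle
  rw [hd2] at hd3
  have hr1 := rank_ker (evm (RX v ⊥ G) (xs p ω v A))
  have hr2 := rank_ker (evm (RX v ⊥ G) x)
  have hr3 := rank_le_generic (RX v ⊥ G) (x' := xs p ω v A) hx
  have hrank : (evm (RX v ⊥ G) x).rank ≤ (evm (RX v ⊥ G) (xs p ω v A)).rank := by omega
  have hker2 : LinearMap.range (triv p') = LinearMap.ker (evm (RX v ⊥ G) x).mulVecLin := by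
    apply Submodule.eq_of_le_of_finrank_le hle
    rw [hd2]
    omega
  refine ⟨?_, ?_⟩
  · intro m hm i j
    have h1 := ker_xg v G p' m hε hm
    have h2 : unc m ∈ LinearMap.ker (evm (RX v ⊥ G) x).mulVecLin := h1
    rw [← hker2] at h2
    obtain ⟨⟨⟨L, b⟩, hL⟩, hS⟩ := h2
    have h3 : m = fun i => L (p' i) + b := by
      funext w
      ext a
      exact (congrFun hS (w, a)).symm
    rw [h3]
    exact fl_of_skew hL i j
  · -- the stress
    obtain ⟨U, hU⟩ := det_of_nullity (EM_symm G v 0 (ws ω v A)) (nullity_xs hω hK hvA hv hN)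
    have hdep := ws_dep ⊥ hω hvA hv hN
    have hg : aeval (Sum.elim (xs p ω v A) (Sum.elim (ws ω v A) (fun kr => U kr.1 kr.2)))
        (gpol d G v) ≠ 0 := by
      rw [aeval_gpol, Um_eq]
      exact hU
    obtain ⟨ω', u, h1, h2⟩ := specialize (RX v ⊥ G) (gpol d G v) hdep hg hx hrank
    rw [aeval_gpol, Um_eq] at h2
    have hxε : x (Sum.inr ()) = ε := rfl
    rw [hxε] at h2
    have hnull := nullity_of_det h2
    let ωT : Option V → Option V → ℝ := fun a b =>
      if (a, b) ≠ (some v, none) ∧ G.Adj a b then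
        (if (a, b) = (none, some v) then ω' (a, b) / ε else ω' (a, b)) else 0
    have hadj : G.Adj none (some v) := Or.inl rfl
    have hStr : Str G p' ωT := by
      refine ⟨?_, ?_⟩
      · intro i j hij
        simp only [ωT]
        rw [if_neg (fun h => hij h.2)]
      · intro a z
        rw [en_eq_sum_fl]
        set m : Conf d (Option V) := fun i => z i • Pi.single a 1 with hm
        have h3 : ω' ⬝ᵥ (evm (RX v ⊥ G) x *ᵥ unc m) = 0 := by
          rw [Matrix.dotProduct_mulVec, h1, zero_dotProduct]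
        have h4 : ω' ⬝ᵥ (evm (RX v ⊥ G) x *ᵥ unc m) = ∑ i, ∑ j, ωT i j * fl p' m i j := by
          rw [dotProduct, Fintype.sum_prod_type]
          refine Finset.sum_congr rfl fun i _ => Finset.sum_congr rfl fun j _ => ?_
          simp only [ωT]
          by_cases h : (i, j) ≠ (some v, none) ∧ G.Adj i j
          · rw [if_pos h, row_xg v G p' m hε (i, j) h.1 h.2]
            split_ifs with h5
            · ring
            · rfl
          · rw [if_neg h, evm_RX_zero v ⊥ G _ _ (i, j) h]
            ring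
        rw [← h4, h3]
    refine ⟨ωT, hStr, affine_of_finrank hAS' hStr ?_⟩
    refine le_trans ?_ hnull
    -- the kernel of the stress embeds
    let T : (Option V → ℝ) →ₗ[ℝ] (Option (Option V) → ℝ) :=
      { toFun := fun y => cmb y ((y none - y (some v)) / ε)
        map_add' := by
          intro y z
          ext k
          cases k with
          | none => simp only [cmb, Pi.add_apply]; ring
          | some w => rfl
        map_smul' := by
          intro c y
          ext k
          cases k with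
          | none => simp only [cmb, Pi.smul_apply, smul_eq_mul, RingHom.id_apply]; ring
          | some w => rfl }
    have hT : ∀ y ∈ Ker ωT, T y ∈ LinearMap.ker (EM ℝ G v ε ω').mulVecLin := by
      intro y hy
      change EM ℝ G v ε ω' *ᵥ cmb y ((y none - y (some v)) / ε) = 0
      rw [EM_ker]
      intro z r
      rw [← hy z]
      unfold Qf en
      rw [Fintype.sum_prod_type]
      refine Finset.sum_congr rfl fun i _ => Finset.sum_congr rfl fun j _ => ?_
      simp only [ωT]
      by_cases h : (i, j) ≠ (some v, none) ∧ G.Adj i j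
      · rw [if_pos h, if_pos h]
        by_cases h5 : (i, j) = (none, some v)
        · rw [if_pos h5, if_pos h5]
          have h6 : i = none := congrArg Prod.fst h5
          have h7 : j = some v := congrArg Prod.snd h5
          subst h6 h7
          field_simp
          ring
        · rw [if_neg h5, if_neg h5]
      · rw [if_neg h, if_neg h, zero_mul]
    have hTinj : Function.Injective (T.restrict hT) := by
      rw [injective_iff_map_eq_zero]
      rintro ⟨y, hy⟩ h0
      apply Subtype.ext
      ext w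
      have := congrArg (fun f : LinearMap.ker (EM ℝ G v ε ω').mulVecLin =>
        (f : Option (Option V) → ℝ) (some w)) h0
      exact this
    exact LinearMap.finrank_le_finrank_of_injective hTinj

/-- **The split graph is globally rigid at every generic configuration.** -/
theorem split_gr (hp : Gen p) (hIR : IR H p) (hω : Str H p ω)
    (hK : ∀ y ∈ Ker ω, ∃ a b, ∀ i, y i = a ⬝ᵥ p i + b) (hV : d + 2 ≤ Fintype.card V)
    (hC : C.card + 1 = d) (hCN : ∀ w ∈ C, H.Adj v w)
    (hAN : ∀ w ∈ A, H.Adj v w) (hBN : ∀ w ∈ B, H.Adj v w)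
    (hN : ∀ w, H.Adj v w → w ∈ A ∨ w ∈ B ∨ w ∈ C)
    (hAC : Disjoint A C) (hBC : Disjoint B C) (hAB : Disjoint A B)
    (hA : A.Nonempty) (hB : B.Nonempty) (hv : v ∉ (B : Set V) ∪ C)
    {p' : Conf d (Option V)} (hp' : Gen p') {q : Conf d (Option V)}
    (hq : ∀ i j, (splitG H v A B C hv).Adj i j → fl q q i j = fl p' p' i j) (i j : Option V) :
    fl q q i j = fl p' p' i j := by
  obtain ⟨h1, ω', h2, h3⟩ := split_generic hp hIR hω hK hV hC hCN hAN hBN hN hAC hBC hAB hA hB hv
    hp'
  exact connelly hp' h1 h2 h3 hq i j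

end main

end Pool.Agent.H135R2.VS
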