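import Pool.Agent.H135R2.VS.Defs
import Pool.Agent.H135R2.VS.Ght
import Pool.Agent.H135R2.VS.Trans3

set_option autoImplicit false
set_option linter.unusedSectionVars false

/-! # Vertex splitting and global rigidity: the final theorem -/

namespace Pool.Agent.H135R2.VS

section conv

variable {V : Type*} {d : ℕ}

theorem fl_norm (p : V → EuclideanSpace ℝ (Fin d)) (u v : V) :
    fl (fun i a => p i a) (fun i a => p i a) u v = ‖p u - p v‖ ^ 2 := by
  rw [EuclideanSpace.norm_sq_eq]
  unfold fl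
  refine Finset.sum_congr rfl fun a _ => ?_
  simp only [PiLp.sub_apply, Real.norm_eq_abs, sq_abs]
  ring

theorem fl_eq_iff (p q : V → EuclideanSpace ℝ (Fin d)) (u v : V) :
    ‖q u - q v‖ = ‖p u - p v‖ ↔ fl (fun i a => q i a) (fun i a => q i a) u v =
      fl (fun i a => p i a) (fun i a => p i a) u v := by
  rw [fl_norm, fl_norm]
  constructor
  · intro h; rw [h]
  · intro h
    exact (sq_eq_sq₀ (norm_nonneg _) (norm_nonneg _)).1 h

/-- Global rigidity in coordinates. -/
theorem GloballyRigid.coord {G : SimpleGraph V} (h : GloballyRigid d G) (p : Conf d V) (hp : Gen p)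
    (q : Conf d V) (hq : ∀ i j, G.Adj i j → fl q q i j = fl p p i j) (i j : V) :
    fl q q i j = fl p p i j := by
  let P : V → EuclideanSpace ℝ (Fin d) := fun i => WithLp.toLp 2 (p i)
  let Q : V → EuclideanSpace ℝ (Fin d) := fun i => WithLp.toLp 2 (q i)
  have h1 := h P hp Q (fun u v huv => (fl_eq_iff P Q u v).2 (hq u v huv)) i j
  exact (fl_eq_iff P Q i j).1 h1

theorem GloballyRigid.of_coord {G : SimpleGraph V}
    (h : ∀ p : Conf d V, Gen p → ∀ q : Conf d V,
      (∀ i j, G.Adj i j → fl q q i j = fl p p i j) → ∀ i j, fl q q i j = fl p p i j) :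
    GloballyRigid d G := by
  intro p hp q hq u v
  rw [fl_eq_iff]
  exact h (fun i a => p i a) hp (fun i a => q i a) (fun i j hij => (fl_eq_iff p q i j).1 (hq i j hij))
    u v

end conv

/-- The vertices of the split graph. -/
noncomputable def optE {V : Type*} [DecidableEq V] (v : V) : ({x : V // x ≠ v} ⊕ Fin 2) ≃ Option V where
  toFun
    | Sum.inl x => some x
    | Sum.inr 0 => none
    | Sum.inr 1 => some v
  invFun
    | none => Sum.inr 0
    | some x => if h : x = v then Sum.inr 1 else Sum.inl ⟨x, h⟩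
  left_inv := by
    rintro (⟨x, hx⟩ | i)
    · simp [hx]
    · fin_cases i
      · rfl
      · simp
  right_inv := by
    rintro (_ | x)
    · rfl
    · by_cases h : x = v
      · simp [h]
      · simp [h]

theorem split_adj {V : Type*} [DecidableEq V] (H : SimpleGraph V) (v : V) (A B C : Set V)
    (hv : v ∉ B ∪ C) (a b : {x : V // x ≠ v} ⊕ Fin 2) :
    (splitG H v A B C hv).Adj (optE v a) (optE v b) ↔ (split H v ![A ∪ C, B ∪ C]).Adj a b := by
  rcases a with ⟨x, hx⟩ | i
  · rcases b with ⟨y, hy⟩ | j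
    · change ((x ≠ v ∧ y ≠ v ∧ H.Adj x y) ∨ (x = v ∧ y ∈ B ∪ C) ∨ (y = v ∧ x ∈ B ∪ C)) ↔ H.Adj x y
      simp [hx, hy]
    · fin_cases j
      · change (x = v ∨ x ∈ A ∪ C) ↔ x ∈ A ∪ C
        simp [hx]
      · change ((x ≠ v ∧ v ≠ v ∧ H.Adj x v) ∨ (x = v ∧ v ∈ B ∪ C) ∨ (v = v ∧ x ∈ B ∪ C)) ↔
          x ∈ B ∪ C
        simp [hx]
  · rcases b with ⟨y, hy⟩ | j
    · fin_cases i
      · change (y = v ∨ y ∈ A ∪ C) ↔ y ∈ A ∪ C
        simp [hy]
      · change ((v ≠ v ∧ y ≠ v ∧ H.Adj v y) ∨ (v = v ∧ y ∈ B ∪ C) ∨ (y = v ∧ v ∈ B ∪ C)) ↔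
          y ∈ B ∪ C
        simp [hy]
    · fin_cases i <;> fin_cases j
      · change False ↔ (0 : Fin 2) ≠ 0
        simp
      · change (v = v ∨ v ∈ A ∪ C) ↔ (0 : Fin 2) ≠ 1
        simp
      · change (v = v ∨ v ∈ A ∪ C) ↔ (1 : Fin 2) ≠ 0
        simp
      · change ((v ≠ v ∧ v ≠ v ∧ H.Adj v v) ∨ (v = v ∧ v ∈ B ∪ C) ∨ (v = v ∧ v ∈ B ∪ C)) ↔
          (1 : Fin 2) ≠ 1
        simp only [ne_eq, not_true_eq_false, false_and, true_and, or_self, false_or, iff_false]
        exact hv

/-- **Whiteley's vertex splitting conjecture.** -/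
theorem vertex_splitting {V W : Type*} [Finite V] {d : ℕ} {H : SimpleGraph V}
    {G : SimpleGraph W} (hH : GloballyRigid d H) (hG : IsNontrivialVertexSplit d H G) :
    GloballyRigid d G := by
  classical
  have := Fintype.ofFinite V
  obtain ⟨v, A₁, C₀, A₂, hN, hAC, hAB, hCB, hC, hA, hB, ⟨φ⟩⟩ := hG
  let A : Finset V := A₁.toFinset
  let B : Finset V := A₂.toFinset
  let C : Finset V := C₀.toFinset
  have hAc : (A : Set V) = A₁ := by simp [A]
  have hBc : (B : Set V) = A₂ := by simp [B]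
  have hCc : (C : Set V) = C₀ := by simp [C]
  have hmem : ∀ w, w ∈ A₁ ∨ w ∈ C₀ ∨ w ∈ A₂ ↔ H.Adj v w := by
    intro w
    rw [← SimpleGraph.mem_neighborSet, ← hN]
    simp only [Set.mem_union]
    tauto
  have hCcard : C.card + 1 = d := by
    rw [← hC, Set.ncard_eq_toFinset_card']
  have hCN : ∀ w ∈ C, H.Adj v w := fun w hw => (hmem w).1 (Or.inr (Or.inl (by simpa [C] using hw)))
  have hAN : ∀ w ∈ A, H.Adj v w := fun w hw => (hmem w).1 (Or.inl (by simpa [A] using hw))
  have hBN : ∀ w ∈ B, H.Adj v w := fun w hw => (hmem w).1 (Or.inr (Or.inr (by simpa [B] using hw)))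
  have hNN : ∀ w, H.Adj v w → w ∈ A ∨ w ∈ B ∨ w ∈ C := by
    intro w hw
    rcases (hmem w).2 hw with h | h | h
    · exact Or.inl (by simpa [A] using h)
    · exact Or.inr (Or.inr (by simpa [C] using h))
    · exact Or.inr (Or.inl (by simpa [B] using h))
  have hACd : Disjoint A C := by
    rw [← Finset.disjoint_coe, hAc, hCc]; exact hAC
  have hBCd : Disjoint B C := by
    rw [← Finset.disjoint_coe, hBc, hCc]; exact hCB.symm
  have hABd : Disjoint A B := by
    rw [← Finset.disjoint_coe, hAc, hBc]; exact hAB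
  have hAne : A.Nonempty := by
    rw [← Finset.coe_nonempty, hAc]; exact hA
  have hBne : B.Nonempty := by
    rw [← Finset.coe_nonempty, hBc]; exact hB
  have hvC : v ∉ C := fun h => H.loopless.irrefl _ (hCN v h)
  have hvA : v ∉ A := fun h => H.loopless.irrefl _ (hAN v h)
  have hvB : v ∉ B := fun h => H.loopless.irrefl _ (hBN v h)
  have hv : v ∉ (B : Set V) ∪ (C : Set V) := by
    rintro (h | h)
    · exact hvB h
    · exact hvC h
  -- the number of vertices
  have hV : d + 2 ≤ Fintype.card V := by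
    have h1 : (insert v (A ∪ B ∪ C)).card ≤ Fintype.card V := Finset.card_le_univ _
    rw [Finset.card_insert_of_notMem (by simp [hvA, hvB, hvC]),
      Finset.card_union_of_disjoint (Finset.disjoint_union_left.2 ⟨hACd, hBCd⟩),
      Finset.card_union_of_disjoint hABd] at h1
    have h2 := Finset.card_pos.2 hAne
    have h3 := Finset.card_pos.2 hBne
    omega
  have hd : 0 < d := by omega
  obtain ⟨p, ω, hp, hIR, hω, hK⟩ := ght_exists hd (by omega) (fun p hp q hq => hH.coord p hp q hq)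
  apply GloballyRigid.of_coord
  intro p₀ hp₀ q₀ hq₀ i j
  -- transport to `Option V`
  let e : W ≃ Option V := φ.toEquiv.trans (optE v)
  have hadj : ∀ a b, (splitG H v A B C hv).Adj a b ↔ G.Adj (e.symm a) (e.symm b) := by
    intro a b
    have h1 : ∀ x y, (split H v ![A₁ ∪ C₀, A₂ ∪ C₀]).Adj x y ↔
        (splitG H v A B C hv).Adj (optE v x) (optE v y) := by
      intro x y
      rw [split_adj H v A B C hv]
      rw [hAc, hBc, hCc]
    have h2 : ∀ w, optE v (φ (e.symm w)) = w := fun w => e.apply_symm_apply w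
    rw [← φ.map_adj_iff, h1, h2, h2]
  let p' : Conf d (Option V) := fun w => p₀ (e.symm w)
  let q' : Conf d (Option V) := fun w => q₀ (e.symm w)
  have hp' : Gen p' := by
    have h1 := hp₀.comp (fun i : Option V × Fin d => (e.symm i.1, i.2)) (by
      rintro ⟨a, x⟩ ⟨b, y⟩ h
      simp only [Prod.mk.injEq, EmbeddingLike.apply_eq_iff_eq] at h
      exact Prod.ext h.1 h.2)
    exact h1
  have hfin := split_gr hp hIR hω hK hV hCcard hCN hAN hBN hNN hACd hBCd hABd hAne hBne hv hp'
    (q := q') (fun a b hab => hq₀ _ _ ((hadj a b).1 hab)) (e i) (e j)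
  have h1 : ∀ r : Conf d W, fl (fun w => r (e.symm w)) (fun w => r (e.symm w)) (e i) (e j) =
      fl r r i j := by
    intro r
    unfold fl
    simp only [Equiv.symm_apply_apply]
  have h2 := h1 q₀
  have h3 := h1 p₀
  rw [← h2, ← h3]
  exact hfin

end Pool.Agent.H135R2.VS
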