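import Pool.Agent.H135R2.VS.Mat

set_option autoImplicit false
set_option linter.unusedSectionVars false

/-! # Frameworks in `ℝ^d` -/

namespace Pool.Agent.H135R2.VS

open Set Matrix

theorem bot_of_rat {ι : Type*} {x : ι → ℝ} (h : AlgebraicIndependent ℚ x) :
    AlgebraicIndependent (⊥ : SF) x :=
  algInd_of_derK fun v => by
    obtain ⟨D, hD⟩ := exists_der h v
    exact ⟨D, van_bot D, hD⟩

theorem rat_of_sf {ι : Type*} {x : ι → ℝ} {K : SF} (h : AlgebraicIndependent K x) :
    AlgebraicIndependent ℚ x :=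
  algInd_of_der fun v => by
    obtain ⟨D, _, hD⟩ := exists_derK h v
    exact ⟨D, hD⟩

theorem mono_sf {ι : Type*} {x : ι → ℝ} {K K' : SF} (hK : K' ≤ K) (h : AlgebraicIndependent K x) :
    AlgebraicIndependent K' x :=
  algInd_of_derK fun v => by
    obtain ⟨D, h1, hD⟩ := exists_derK h v
    exact ⟨D, h1.mono hK, hD⟩

/-- Configurations of points in `ℝ^d`. -/
abbrev Conf (d : ℕ) (V : Type*) := V → Fin d → ℝ

variable {V : Type*} {d : ℕ}

/-- Generic configurations. -/
def Gen (p : Conf d V) : Prop := AlgebraicIndependent ℚ (fun i : V × Fin d => p i.1 i.2)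

/-- First order change of length. -/
def fl (p m : Conf d V) (i j : V) : ℝ := ∑ a, (p i a - p j a) * (m i a - m j a)

theorem fl_comm (p m : Conf d V) (i j : V) : fl p m i j = fl m p i j := by
  unfold fl
  exact Finset.sum_congr rfl fun a _ => mul_comm _ _

theorem fl_symm (p m : Conf d V) (i j : V) : fl p m i j = fl p m j i := by
  unfold fl
  exact Finset.sum_congr rfl fun a _ => by ring

theorem fl_self (p m : Conf d V) (i : V) : fl p m i i = 0 := by
  simp [fl]

theorem fl_add (p m m' : Conf d V) (i j : V) : fl p (m + m') i j = fl p m i j + fl p m' i j := by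
  unfold fl
  rw [← Finset.sum_add_distrib]
  exact Finset.sum_congr rfl fun a _ => by simp only [Pi.add_apply]; ring

theorem fl_sub (p m m' : Conf d V) (i j : V) : fl p (m - m') i j = fl p m i j - fl p m' i j := by
  unfold fl
  rw [← Finset.sum_sub_distrib]
  exact Finset.sum_congr rfl fun a _ => by simp only [Pi.sub_apply]; ring

theorem fl_smul (p m : Conf d V) (c : ℝ) (i j : V) : fl p (c • m) i j = c * fl p m i j := by
  unfold fl
  rw [Finset.mul_sum]
  exact Finset.sum_congr rfl fun a _ => by simp only [Pi.smul_apply, smul_eq_mul]; ring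

theorem fl_add_left (p p' m : Conf d V) (i j : V) : fl (p + p') m i j = fl p m i j + fl p' m i j := by
  rw [fl_comm, fl_add, fl_comm m, fl_comm m]

theorem fl_sub_left (p p' m : Conf d V) (i j : V) : fl (p - p') m i j = fl p m i j - fl p' m i j := by
  rw [fl_comm, fl_sub, fl_comm m, fl_comm m]

theorem fl_smul_left (p m : Conf d V) (c : ℝ) (i j : V) : fl (c • p) m i j = c * fl p m i j := by
  rw [fl_comm, fl_smul, fl_comm m]

theorem fl_dot (p m : Conf d V) (i j : V) : fl p m i j = (p i - p j) ⬝ᵥ (m i - m j) := rfl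

/-- Squared distance. -/
theorem fl_diag_nonneg (p : Conf d V) (i j : V) : 0 ≤ fl p p i j :=
  Finset.sum_nonneg fun _ _ => mul_self_nonneg _

theorem eq_of_fl_diag {p : Conf d V} {i j : V} (h : fl p p i j = 0) : p i = p j := by
  ext a
  have := (Finset.sum_eq_zero_iff_of_nonneg (fun a _ => mul_self_nonneg (p i a - p j a))).1 h a
    (Finset.mem_univ a)
  have := mul_self_eq_zero.1 this
  linarith

/-- Infinitesimal rigidity. -/
def IR (G : SimpleGraph V) (p : Conf d V) : Prop :=
  ∀ m : Conf d V, (∀ i j, G.Adj i j → fl p m i j = 0) → ∀ i j, fl p m i j = 0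

/-- The points affinely span `ℝ^d`. -/
def AS (p : Conf d V) : Prop :=
  ∀ (a : Fin d → ℝ) (b : ℝ), (∀ i, a ⬝ᵥ p i + b = 0) → a = 0

/-- Trivial motions of affinely spanning configurations. -/
theorem trivial_motion [Finite V] {p m : Conf d V} (hp : AS p) (h : ∀ i j, fl p m i j = 0) :
    ∃ (L : (Fin d → ℝ) →ₗ[ℝ] (Fin d → ℝ)) (b : Fin d → ℝ),
      (∀ x y, x ⬝ᵥ L y = - (y ⬝ᵥ L x)) ∧ ∀ i, m i = L (p i) + b := by
  classical
  have := Fintype.ofFinite V
  rcases isEmpty_or_nonempty V with hV | ⟨⟨o⟩⟩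
  · exact ⟨0, 0, by simp, fun i => (hV.false i).elim⟩
  let Φ : (V → ℝ) →ₗ[ℝ] (Fin d → ℝ) :=
    { toFun := fun c => ∑ i, c i • (p i - p o)
      map_add' := fun c c' => by simp only [Pi.add_apply, add_smul, Finset.sum_add_distrib]
      map_smul' := fun r c => by
        simp only [Pi.smul_apply, smul_eq_mul, RingHom.id_apply, Finset.smul_sum, smul_smul] }
  let Ψ : (V → ℝ) →ₗ[ℝ] (Fin d → ℝ) :=
    { toFun := fun c => ∑ i, c i • (m i - m o)
      map_add' := fun c c' => by simp only [Pi.add_apply, add_smul, Finset.sum_add_distrib]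
      map_smul' := fun r c => by
        simp only [Pi.smul_apply, smul_eq_mul, RingHom.id_apply, Finset.smul_sum, smul_smul] }
  have hΦ : ∀ c, Φ c = ∑ i, c i • (p i - p o) := fun _ => rfl
  have hΨ : ∀ c, Ψ c = ∑ i, c i • (m i - m o) := fun _ => rfl
  have hcross : ∀ i j, (p i - p o) ⬝ᵥ (m j - m o) = - ((p j - p o) ⬝ᵥ (m i - m o)) := by
    intro i j
    have h1 := h i j
    have h2 := h i o
    have h3 := h j o
    rw [fl_dot] at h1 h2 h3
    have e1 : p i - p j = (p i - p o) - (p j - p o) := by abel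
    have e2 : m i - m j = (m i - m o) - (m j - m o) := by abel
    rw [e1, e2] at h1
    have e3 : ∀ P Q M N : Fin d → ℝ, (P - Q) ⬝ᵥ (M - N) = P ⬝ᵥ M - P ⬝ᵥ N - Q ⬝ᵥ M + Q ⬝ᵥ N := by
      intro P Q M N
      rw [sub_dotProduct, dotProduct_sub, dotProduct_sub]; ring
    rw [e3, h2, h3] at h1
    linarith
  -- perpendicular to all differences implies zero
  have hperp : ∀ a : Fin d → ℝ, (∀ i, (p i - p o) ⬝ᵥ a = 0) → a = 0 := by
    intro a ha
    refine hp a (-(a ⬝ᵥ p o)) fun i => ?_
    have := ha i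
    rw [dotProduct_comm, dotProduct_sub] at this
    linarith
  have hsurj : Function.Surjective Φ := by
    rw [← LinearMap.range_eq_top]
    by_contra hne
    obtain ⟨f, hf0, hf⟩ := Submodule.exists_le_ker_of_lt_top _ (lt_top_iff_ne_top.2 hne)
    let a : Fin d → ℝ := fun k => f (Pi.single k 1)
    have hfa : ∀ x : Fin d → ℝ, f x = x ⬝ᵥ a := by
      intro x
      conv_lhs => rw [← Finset.univ_sum_single x]
      rw [map_sum]
      refine Finset.sum_congr rfl fun k _ => ?_
      have : (Pi.single k (x k) : Fin d → ℝ) = x k • Pi.single k 1 := by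
        rw [← Pi.single_smul]; simp
      rw [this, map_smul]; rfl
    have ha : a = 0 := by
      apply hperp
      intro i
      have h1 : Φ (Pi.single i 1) ∈ LinearMap.ker f := hf ⟨_, rfl⟩
      rw [LinearMap.mem_ker, hfa, hΦ] at h1
      rw [Finset.sum_eq_single i] at h1
      · simpa using h1
      · intro j _ hj
        rw [Pi.single_eq_of_ne hj, zero_smul]
      · intro hi; exact absurd (Finset.mem_univ i) hi
    apply hf0
    ext x
    simp only [LinearMap.comp_apply, LinearMap.zero_apply]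
    rw [hfa, ha, dotProduct_zero]
  have hker : ∀ c, Φ c = 0 → Ψ c = 0 := by
    intro c hc
    apply hperp
    intro j
    rw [hΨ, dotProduct_sum]
    have h1 : ∀ i, (p j - p o) ⬝ᵥ (c i • (m i - m o)) = - ((c i • (p i - p o)) ⬝ᵥ (m j - m o)) := by
      intro i
      rw [dotProduct_smul, hcross j i, smul_dotProduct, smul_neg]
    rw [Finset.sum_congr rfl fun i _ => h1 i, Finset.sum_neg_distrib, ← sum_dotProduct, ← hΦ, hc,
      zero_dotProduct, neg_zero]
  obtain ⟨s, hs⟩ := Φ.exists_rightInverse_of_surjective (LinearMap.range_eq_top.2 hsurj)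
  have hs' : ∀ x, Φ (s x) = x := fun x => by
    rw [← LinearMap.comp_apply, hs, LinearMap.id_apply]
  let L := Ψ ∘ₗ s
  have hL : ∀ c, L (Φ c) = Ψ c := by
    intro c
    have h1 : Φ (s (Φ c) - c) = 0 := by rw [map_sub, hs', sub_self]
    have h2 := hker _ h1
    rw [map_sub, sub_eq_zero] at h2
    exact h2
  refine ⟨L, m o - L (p o), ?_, ?_⟩
  · intro x y
    obtain ⟨c, rfl⟩ := hsurj x
    obtain ⟨c', rfl⟩ := hsurj y
    rw [hL, hL, hΦ, hΦ, hΨ, hΨ, sum_dotProduct, sum_dotProduct]
    simp only [dotProduct_sum, smul_dotProduct, dotProduct_smul]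
    rw [← Finset.sum_neg_distrib, Finset.sum_comm]
    refine Finset.sum_congr rfl fun i _ => ?_
    rw [← Finset.sum_neg_distrib]
    refine Finset.sum_congr rfl fun j _ => ?_
    rw [hcross j i]
    simp only [smul_eq_mul]
    ring
  · intro i
    have h1 : Φ (Pi.single i 1) = p i - p o := by
      rw [hΦ, Finset.sum_eq_single i]
      · simp
      · intro j _ hj
        rw [Pi.single_eq_of_ne hj, zero_smul]
      · intro hi; exact absurd (Finset.mem_univ i) hi
    have h2 : Ψ (Pi.single i 1) = m i - m o := by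
      rw [hΨ, Finset.sum_eq_single i]
      · simp
      · intro j _ hj
        rw [Pi.single_eq_of_ne hj, zero_smul]
      · intro hi; exact absurd (Finset.mem_univ i) hi
    have h3 := hL (Pi.single i 1)
    rw [h1, h2, map_sub] at h3
    have h4 : m i = L (p i) - L (p o) + m o := by rw [h3]; abel
    rw [h4]; abel

/-- Motions of this form are trivial. -/
theorem fl_of_skew {p : Conf d V} {L : (Fin d → ℝ) →ₗ[ℝ] (Fin d → ℝ)} {b : Fin d → ℝ}
    (hL : ∀ x y, x ⬝ᵥ L y = - (y ⬝ᵥ L x)) (i j : V) : fl p (fun i => L (p i) + b) i j = 0 := by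
  rw [fl_dot]
  have : L (p i) + b - (L (p j) + b) = L (p i - p j) := by rw [map_sub]; abel
  rw [this]
  have := hL (p i - p j) (p i - p j)
  linarith

section generic

variable [Fintype V] [DecidableEq V]

theorem Gen.der {p : Conf d V} (hp : Gen p) (v : Conf d V) :
    ∃ D : Derivation ℚ ℝ ℝ, ∀ i a, D (p i a) = v i a := by
  obtain ⟨D, hD⟩ := exists_der hp (fun i => v i.1 i.2)
  exact ⟨D, fun i a => hD (i, a)⟩

/-- Affine functions vanishing at `d + 1` generic points vanish. -/
theorem Gen.affine_inj {p : Conf d V} (hp : Gen p) {X : Finset V} (hX : d + 1 ≤ X.card)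
    {a : Fin d → ℝ} {b : ℝ} (h : ∀ i ∈ X, a ⬝ᵥ p i + b = 0) : a = 0 ∧ b = 0 := by
  obtain ⟨Y, hY, hYc⟩ := Finset.exists_subset_card_eq hX
  have hYne : Y.Nonempty := by
    rw [← Finset.card_pos, hYc]; omega
  by_cases ha : a = 0
  · refine ⟨ha, ?_⟩
    obtain ⟨i, hi⟩ := hYne
    have := h i (hY hi)
    rw [ha, zero_dotProduct, zero_add] at this
    exact this
  exfalso
  let T : ((Fin d → ℝ) × ℝ) →ₗ[ℝ] (Y → ℝ) :=
    { toFun := fun ab i => ab.1 ⬝ᵥ p i + ab.2
      map_add' := fun x y => by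
        ext i
        simp only [Prod.fst_add, Prod.snd_add, add_dotProduct, Pi.add_apply]; ring
      map_smul' := fun r x => by
        ext i
        simp only [Prod.smul_fst, Prod.smul_snd, smul_dotProduct, Pi.smul_apply, smul_eq_mul,
          RingHom.id_apply]; ring }
  have hdim : Module.finrank ℝ ((Fin d → ℝ) × ℝ) = Module.finrank ℝ (Y → ℝ) := by
    simp [hYc]
  have hninj : ¬ Function.Injective T := by
    intro hinj
    have h1 : T (a, b) = T 0 := by
      rw [map_zero]
      ext i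
      exact h i (hY i.2)
    have h2 := hinj h1
    exact ha (congrArg Prod.fst h2)
  apply hninj
  rw [LinearMap.injective_iff_surjective_of_finrank_eq_finrank hdim]
  intro η
  have hna : a ⬝ᵥ a ≠ 0 := fun h0 => ha (dotProduct_self_eq_zero.1 h0)
  obtain ⟨D, hD⟩ := hp.der (fun i => if h : i ∈ Y then (- η ⟨i, h⟩ / (a ⬝ᵥ a)) • a else 0)
  refine ⟨(fun k => D (a k), D b), ?_⟩
  ext i
  change (fun k => D (a k)) ⬝ᵥ p i + D b = η i
  have h1 := congrArg D (h i (hY i.2))
  rw [map_zero, map_add] at h1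
  have h2 : D (a ⬝ᵥ p i) = (fun k => D (a k)) ⬝ᵥ p i + a ⬝ᵥ (fun k => D (p i k)) := by
    simp only [dotProduct, map_sum, Derivation.leibniz, smul_eq_mul]
    rw [← Finset.sum_add_distrib]
    exact Finset.sum_congr rfl fun k _ => by ring
  have h3 : a ⬝ᵥ (fun k => D (p i k)) = - η i := by
    have : (fun k => D (p i k)) = (- η i / (a ⬝ᵥ a)) • a := by
      ext k
      rw [hD, dif_pos i.2]
    rw [this, dotProduct_smul, smul_eq_mul, div_mul_cancel₀ _ hna]
  rw [h2, h3] at h1
  linarith

/-- Affine functions can be prescribed at `d + 1` generic points. -/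
theorem Gen.affine_surj {p : Conf d V} (hp : Gen p) {X : Finset V} (hX : X.card = d + 1)
    (η : V → ℝ) : ∃ (a : Fin d → ℝ) (b : ℝ), ∀ i ∈ X, a ⬝ᵥ p i + b = η i := by
  let T : ((Fin d → ℝ) × ℝ) →ₗ[ℝ] (X → ℝ) :=
    { toFun := fun ab i => ab.1 ⬝ᵥ p i + ab.2
      map_add' := fun x y => by
        ext i
        simp only [Prod.fst_add, Prod.snd_add, add_dotProduct, Pi.add_apply]; ring
      map_smul' := fun r x => by
        ext i
        simp only [Prod.smul_fst, Prod.smul_snd, smul_dotProduct, Pi.smul_apply, smul_eq_mul,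
          RingHom.id_apply]; ring }
  have hdim : Module.finrank ℝ ((Fin d → ℝ) × ℝ) = Module.finrank ℝ (X → ℝ) := by
    simp [hX]
  have hinj : Function.Injective T := by
    rw [injective_iff_map_eq_zero]
    rintro ⟨a, b⟩ hab
    obtain ⟨h1, h2⟩ := hp.affine_inj (by rw [hX]) (fun i hi => congrFun hab ⟨i, hi⟩)
    exact Prod.ext h1 h2
  obtain ⟨⟨a, b⟩, hab⟩ :=
    (LinearMap.injective_iff_surjective_of_finrank_eq_finrank hdim).1 hinj (fun i => η i)
  exact ⟨a, b, fun i hi => congrFun hab ⟨i, hi⟩⟩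

theorem Gen.as {p : Conf d V} (hp : Gen p) (hV : d + 1 ≤ Fintype.card V) : AS p := by
  intro a b h
  exact (hp.affine_inj (X := Finset.univ) (by rwa [Finset.card_univ]) (fun i _ => h i)).1

end generic

end Pool.Agent.H135R2.VS
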