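import Pool.Agent.H135R2.VS.Loc
import Pool.Agent.H135R2.VS.Conn

set_option autoImplicit false
set_option linter.unusedSectionVars false

/-! # Generic globally rigid frameworks are infinitesimally rigid -/

namespace Pool.Agent.H135R2.VS

open Set Matrix

variable {V : Type*} {d : ℕ} [Fintype V] [DecidableEq V]

section AL

variable {ι : Type*} [Fintype ι] [DecidableEq ι]

/-- Squared length of a pair in linear coordinates. -/
noncomputable def AL (L : (ι → ℝ) →ₗ[ℝ] Conf d V) (e : V × V) : Matrix ι ι ℝ :=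
  Matrix.of fun i j => fl (L (Pi.single i 1)) (L (Pi.single j 1)) e.1 e.2

theorem fl_sum {κ : Type*} (p : Conf d V) (s : Finset κ) (m : κ → Conf d V) (i j : V) :
    fl p (∑ k ∈ s, m k) i j = ∑ k ∈ s, fl p (m k) i j := by
  classical
  induction s using Finset.induction_on with
  | empty => simp [fl]
  | insert a s ha ih => rw [Finset.sum_insert ha, Finset.sum_insert ha, fl_add, ih]

theorem AL_form (L : (ι → ℝ) →ₗ[ℝ] Conf d V) (e : V × V) (x y : ι → ℝ) :
    x ⬝ᵥ (AL L e *ᵥ y) = fl (L x) (L y) e.1 e.2 := by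
  have hx : ∀ x : ι → ℝ, L x = ∑ i, x i • L (Pi.single i 1) := by
    intro x
    conv_lhs => rw [← Finset.univ_sum_single x]
    rw [map_sum]
    refine Finset.sum_congr rfl fun k _ => ?_
    rw [← map_smul, ← Pi.single_smul]; simp
  rw [hx x, hx y, fl_sum]
  simp only [dotProduct, Matrix.mulVec, AL, Matrix.of_apply, Finset.mul_sum]
  rw [Finset.sum_comm]
  refine Finset.sum_congr rfl fun j _ => ?_
  rw [fl_smul, fl_comm, fl_sum, Finset.mul_sum]
  refine Finset.sum_congr rfl fun i _ => ?_
  rw [fl_smul, fl_comm]; ring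

theorem AL_symm (L : (ι → ℝ) →ₗ[ℝ] Conf d V) (e : V × V) : (AL L e)ᵀ = AL L e := by
  ext i j
  simp only [Matrix.transpose_apply, AL, Matrix.of_apply]
  rw [fl_comm]

theorem Bq_AL {F : Type*} [Fintype F] (L : (ι → ℝ) →ₗ[ℝ] Conf d V) (s : F → V × V)
    (x y : ι → ℝ) (e : F) :
    Bq (fun e => AL L (s e)) x y e = fl (L x) (L y) (s e).1 (s e).2 :=
  AL_form L (s e) x y

end AL

/-- Currying. -/
def cur (d : ℕ) (V : Type*) : (V × Fin d → ℝ) →ₗ[ℝ] Conf d V where
  toFun x i a := x (i, a)
  map_add' _ _ := rfl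
  map_smul' _ _ := rfl

theorem cur_unc (p : Conf d V) : cur d V (unc p) = p := rfl

theorem row_dot (K : SF) (G : SimpleGraph V) (x : V × Fin d → ℝ) (m : Conf d V) (e : V × V)
    (he : G.Adj e.1 e.2) : (evm (Rp d K G) x) e ⬝ᵥ unc m = fl (cur d V x) m e.1 e.2 :=
  evm_Rp K G (cur d V x) m e.1 e.2 he

theorem row_zero (K : SF) (G : SimpleGraph V) (x : V × Fin d → ℝ) (e : V × V)
    (he : ¬ G.Adj e.1 e.2) : (evm (Rp d K G) x) e = 0 := by
  ext c
  simp [evm, Matrix.map_apply, Rp, Matrix.of_apply, he]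

theorem continuous_evm (K : SF) (G : SimpleGraph V) (e : V × V) (c : V × Fin d) :
    Continuous fun x => (evm (Rp d K G) x) e c := continuous_aeval _

theorem mem_span_dot {C : Type*} [Fintype C] {S : Set (C → ℝ)} {z : C → ℝ}
    (hz : z ∈ Submodule.span ℝ S) {y : C → ℝ} (hy : ∀ f ∈ S, f ⬝ᵥ y = 0) :
    z ⬝ᵥ y = 0 := by
  induction hz using Submodule.span_induction with
  | mem x hx => exact hy x hx
  | zero => exact zero_dotProduct _
  | add x y _ _ hx hy => rw [add_dotProduct, hx, hy, add_zero]
  | smul c x _ hx => rw [smul_dotProduct, hx, smul_zero]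

theorem eq_of_dot {C : Type*} [Fintype C] {u v : C → ℝ} (h : ∀ y, u ⬝ᵥ y = v ⬝ᵥ y) : u = v := by
  rw [← sub_eq_zero]
  apply dotProduct_self_eq_zero.1
  rw [sub_dotProduct, h, sub_self]

/-- Generic globally rigid frameworks are infinitesimally rigid. -/
theorem ir_of_gr {H : SimpleGraph V} {p : Conf d V} (hp : Gen p)
    (h : ∀ q : Conf d V, (∀ i j, H.Adj i j → fl q q i j = fl p p i j) →
      ∀ i j, fl q q i j = fl p p i j) : IR H p := by
  classical
  intro m hm a b
  by_contra hab
  have hp' : AlgebraicIndependent (⊥ : SF) (unc p) := bot_of_rat hp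
  obtain ⟨L, hL1, hL2⟩ := exists_row_basis (evm (Rp d ⊥ H) (unc p))
  have := Fintype.ofFinite L
  have hLadj : ∀ e : L, H.Adj (e : V × V).1 (e : V × V).2 := by
    intro e
    by_contra he
    exact hL1.ne_zero e (row_zero ⊥ H _ _ he)
  let s : Option L → V × V := fun o => match o with
    | none => (a, b)
    | some e => e
  have hreg : Reg (fun e => AL (cur d V) (s e)) (unc p) := by
    intro σ hσ
    have h1 : ∀ y : Conf d V, σ none * fl p y a b + ∑ e : L, σ (some e) * fl p y e.1.1 e.1.2 = 0 := by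
      intro y
      have := hσ (unc y)
      rw [dotProduct, Fintype.sum_option] at this
      simp only [Bq_AL, cur_unc] at this
      exact this
    have h2 : σ none = 0 := by
      have := h1 m
      have h3 : ∑ e : L, σ (some e) * fl p m e.1.1 e.1.2 = 0 :=
        Finset.sum_eq_zero fun e _ => by rw [hm _ _ (hLadj e), mul_zero]
      rw [h3, add_zero] at this
      exact (mul_eq_zero.1 this).resolve_right hab
    have h3 : ∑ e : L, σ (some e) • (evm (Rp d ⊥ H) (unc p)) e = 0 := by
      apply dotProduct_self_eq_zero.1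
      obtain ⟨y, hy⟩ := unc_surj (∑ e : L, σ (some e) • (evm (Rp d ⊥ H) (unc p)) e)
      conv_lhs => arg 2; rw [← hy]
      rw [sum_dotProduct]
      have := h1 y
      rw [h2, zero_mul, zero_add] at this
      rw [← this]
      refine Finset.sum_congr rfl fun e _ => ?_
      rw [smul_dotProduct, row_dot ⊥ H _ _ _ (hLadj e)]
      rfl
    have h4 := Fintype.linearIndependent_iff.1 hL1 _ h3
    ext o
    cases o with
    | none => exact h2
    | some e => exact h4 e
  have hloc := local_surj (fun e => AL_symm (cur d V) (s e)) hreg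
  -- the open set of independence
  let U : Set (V × Fin d → ℝ) := {y | (Matrix.of fun j k : L =>
    (evm (Rp d ⊥ H) (y + unc p)) j ⬝ᵥ (evm (Rp d ⊥ H) (y + unc p)) k).det ≠ 0}
  have hUo : IsOpen U := by
    refine isOpen_ne_fun ?_ continuous_const
    refine Continuous.matrix_det ?_
    refine continuous_matrix fun i j => ?_
    simp only [Matrix.of_apply, dotProduct]
    refine continuous_finsetSum _ fun k _ => ?_
    have h1 : ∀ i : V × V, Continuous fun y : V × Fin d → ℝ =>
        (evm (Rp d ⊥ H) (y + unc p)) i k := fun i =>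
      (continuous_evm (⊥ : SF) H i k).comp (continuous_id.add continuous_const)
    exact (h1 i).mul (h1 j)
  have hUp : unc p ∈ U := by
    change (Matrix.of fun j k : L => _).det ≠ 0
    rw [← gram_iff]
    rw [Fintype.linearIndependent_iff]
    intro g hg e
    have h2 : (2 : ℝ) • ∑ e : L, g e • (evm (Rp d ⊥ H) (unc p)) e = 0 := by
      rw [← hg, Finset.smul_sum]
      refine Finset.sum_congr rfl fun e _ => ?_
      rw [smul_comm]
      congr 1
      apply eq_of_dot
      intro y
      obtain ⟨y, rfl⟩ := unc_surj y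
      rw [row_dot ⊥ H _ _ _ (hLadj e), smul_dotProduct, row_dot ⊥ H _ _ _ (hLadj e), map_add,
        fl_add_left, smul_eq_mul]
      ring
    have h3 := (smul_eq_zero.1 h2).resolve_left two_ne_zero
    exact Fintype.linearIndependent_iff.1 hL1 g h3 e
  have hUn : U ∈ nhds (unc p) := hUo.mem_nhds hUp
  have himg : (fun y => Bq (fun e => AL (cur d V) (s e)) y y) '' U ∈
      nhds (Bq (fun e => AL (cur d V) (s e)) (unc p) (unc p)) := by
    rw [← hloc]
    exact Filter.image_mem_map hUn
  -- move the length of `ab`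
  obtain ⟨δ, hδ0, y, hyU, hy⟩ : ∃ δ : ℝ, δ ≠ 0 ∧
      Bq (fun e => AL (cur d V) (s e)) (unc p) (unc p) + δ • Pi.single none 1 ∈
      (fun y => Bq (fun e => AL (cur d V) (s e)) y y) '' U := by
    have hc : Continuous fun δ : ℝ =>
        Bq (fun e => AL (cur d V) (s e)) (unc p) (unc p) + δ • (Pi.single none 1 : Option L → ℝ) := by
      fun_prop
    have h0 : Filter.Tendsto (fun δ : ℝ =>
        Bq (fun e => AL (cur d V) (s e)) (unc p) (unc p) + δ • (Pi.single none 1 : Option L → ℝ))
        (nhds 0) (nhds (Bq (fun e => AL (cur d V) (s e)) (unc p) (unc p))) := by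
      have := hc.tendsto 0
      rwa [zero_smul, add_zero] at this
    have h1 := (h0.mono_left (nhdsWithin_le_nhds (s := {0}ᶜ))).eventually himg
    have h2 : ∀ᶠ t in nhdsWithin (0 : ℝ) {0}ᶜ, t ∈ ({0}ᶜ : Set ℝ) := self_mem_nhdsWithin
    obtain ⟨t, ht1, ht2⟩ := (h1.and h2).exists
    exact ⟨t, ht2, ht1⟩
  set q : Conf d V := cur d V y with hq
  have hqL : ∀ e : L, fl q q e.1.1 e.1.2 = fl p p e.1.1 e.1.2 := by
    intro e
    have := congrFun hy (some e)
    simp only [Bq_AL, Pi.add_apply, Pi.smul_apply, cur_unc] at this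
    rw [Pi.single_eq_of_ne (Option.some_ne_none e)] at this
    simpa using this
  have hqab : fl q q a b = fl p p a b + δ := by
    have := congrFun hy none
    simp only [Bq_AL, Pi.add_apply, Pi.smul_apply, cur_unc] at this
    simpa using this
  -- the other edges
  have hmid : ∀ i j, fl (q + p) (q - p) i j = fl q q i j - fl p p i j := by
    intro i j
    rw [fl_add_left, fl_sub, fl_sub, fl_comm q p]; ring
  have hxU : LinearIndependent ℝ fun e : L => (evm (Rp d ⊥ H) (y + unc p)) e :=
    (gram_iff _).2 hyU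
  have hrank := rank_le_generic (Rp d ⊥ H) (x' := y + unc p) hp'
  rw [rank_eq_card hL1 hL2] at hrank
  have hspan := span_of_card hxU hrank
  have hcur : cur d V (y + unc p) = q + p := by rw [map_add, cur_unc]
  have hall : ∀ i j, H.Adj i j → fl q q i j = fl p p i j := by
    intro i j hij
    have h1 := mem_span_dot (hspan (i, j)) (y := unc (q - p)) (by
      rintro _ ⟨f, hf, rfl⟩
      have := row_dot ⊥ H (y + unc p) (q - p) f (hLadj ⟨f, hf⟩)
      rw [this, hcur, hmid, hqL ⟨f, hf⟩, sub_self])
    rw [row_dot ⊥ H (y + unc p) (q - p) (i, j) hij, hcur, hmid] at h1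
    linarith
  have := h q hall a b
  rw [hqab] at this
  exact hδ0 (by linarith)

end Pool.Agent.H135R2.VS
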