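import Pool.Agent.H135R2.VS.Gr

set_option autoImplicit false
set_option linter.unusedSectionVars false

/-! # Generic stresses -/

namespace Pool.Agent.H135R2.VS

open Set Matrix

variable {V : Type*} {d : ℕ} [Fintype V] [DecidableEq V]

theorem fun_eq_sum_single {C : Type*} [Fintype C] [DecidableEq C] (x : C → ℝ) :
    x = ∑ k, x k • (Pi.single k 1 : C → ℝ) := by
  conv_lhs => rw [← Finset.univ_sum_single x]
  refine Finset.sum_congr rfl fun k _ => ?_
  rw [← Pi.single_smul]; simp

theorem en_eq_sum_single (ω : V → V → ℝ) (y z : V → ℝ) :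
    en ω y z = ∑ k, z k * en ω y (Pi.single k 1) := by
  conv_lhs => rw [fun_eq_sum_single z]
  rw [en_sum]
  exact Finset.sum_congr rfl fun k _ => en_smul _ _ _ _

theorem dv_single (D : Derivation ℚ ℝ ℝ) (k : V) : dv D (Pi.single k 1 : V → ℝ) = 0 := by
  ext i
  simp only [dv, Pi.zero_apply]
  by_cases hij : i = k
  · subst hij; simp
  · rw [Pi.single_eq_of_ne hij, map_zero]

theorem en_zero_right (ω : V → V → ℝ) (y : V → ℝ) : en ω y 0 = 0 := by simp [en]

theorem der_en (D : Derivation ℚ ℝ ℝ) (ω : V → V → ℝ) (y z : V → ℝ) :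
    D (en ω y z) = en (fun i j => D (ω i j)) y z + en ω (dv D y) z + en ω y (dv D z) := by
  unfold en
  simp only [map_sum, Derivation.leibniz, smul_eq_mul, map_sub, dv]
  rw [← Finset.sum_add_distrib, ← Finset.sum_add_distrib]
  refine Finset.sum_congr rfl fun i _ => ?_
  rw [← Finset.sum_add_distrib, ← Finset.sum_add_distrib]
  exact Finset.sum_congr rfl fun j _ => by ring

/-- Derivatives of elements of the kernel. -/
theorem der_Ker (D : Derivation ℚ ℝ ℝ) {ω : V → V → ℝ} {y : V → ℝ} (hy : y ∈ Ker ω) (z : V → ℝ) :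
    en (fun i j => D (ω i j)) y z + en ω (dv D y) z = 0 := by
  rw [en_eq_sum_single _ y, en_eq_sum_single ω, ← Finset.sum_add_distrib]
  refine Finset.sum_eq_zero fun k _ => ?_
  have h1 := congrArg D (hy (Pi.single k 1))
  rw [map_zero, der_en, dv_single, en_zero_right, add_zero] at h1
  rw [← mul_add, h1, mul_zero]

open Classical in
/-- The matrix whose kernel is the space of stresses. -/
noncomputable def stM (H : SimpleGraph V) (p : Conf d V) :
    Matrix ((V × V) ⊕ (V × Fin d)) (V × V) ℝ :=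
  Matrix.of fun r f => match r with
    | Sum.inl e => if e = f ∧ ¬ H.Adj e.1 e.2 then 1 else 0
    | Sum.inr (i, a) => (p f.1 a - p f.2 a) *
        ((Pi.single i 1 : V → ℝ) f.1 - (Pi.single i 1 : V → ℝ) f.2)

theorem stM_ker (H : SimpleGraph V) (p : Conf d V) (s : V × V → ℝ) :
    stM H p *ᵥ s = 0 ↔ Str H p (fun i j => s (i, j)) := by
  classical
  have h1 : ∀ e, (stM H p *ᵥ s) (Sum.inl e) = if ¬ H.Adj e.1 e.2 then s e else 0 := by
    intro e
    simp only [Matrix.mulVec, dotProduct, stM, Matrix.of_apply]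
    rw [Finset.sum_eq_single e]
    · by_cases h : H.Adj e.1 e.2 <;> simp [h]
    · intro f _ hf
      rw [if_neg (fun h => hf h.1.symm), zero_mul]
    · intro h; exact absurd (Finset.mem_univ _) h
  have h2 : ∀ i a, (stM H p *ᵥ s) (Sum.inr (i, a)) =
      en (fun i j => s (i, j)) (fun i => p i a) (Pi.single i 1) := by
    intro i a
    simp only [Matrix.mulVec, dotProduct, stM, Matrix.of_apply, en]
    rw [Fintype.sum_prod_type]
    exact Finset.sum_congr rfl fun j _ => Finset.sum_congr rfl fun l _ => by ring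
  constructor
  · intro h
    refine ⟨?_, ?_⟩
    · intro i j hij
      have := congrFun h (Sum.inl (i, j))
      rw [h1, if_pos hij] at this
      exact this
    · intro a z
      rw [en_eq_sum_single]
      refine Finset.sum_eq_zero fun k _ => ?_
      have := congrFun h (Sum.inr (k, a))
      rw [h2] at this
      rw [this, Pi.zero_apply, mul_zero]
  · intro h
    ext r
    rcases r with e | ⟨i, a⟩
    · rw [h1]
      split_ifs with h'
      · rfl
      · exact h.1 _ _ h'
    · rw [h2]
      exact h.2 a _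

/-- The pair of a configuration and a stress is generic. -/
def Tan (H : SimpleGraph V) (p : Conf d V) (ω : V → V → ℝ) : Prop :=
  ∀ (m : Conf d V) (σ : V → V → ℝ), (∀ i j, ¬ H.Adj i j → σ i j = 0) →
    (∀ a z, en σ (fun i => p i a) z + en ω (fun i => m i a) z = 0) →
    ∃ D : Derivation ℚ ℝ ℝ, (∀ i a, D (p i a) = m i a) ∧ (∀ i j, D (ω i j) = σ i j)

theorem exists_generic_stress (H : SimpleGraph V) {p : Conf d V} (hp : Gen p) :
    ∃ ω : V → V → ℝ, Str H p ω ∧ Tan H p ω := by
  classical
  let K₁ : SF := adj ⊥ (range (unc p))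
  have hK₁ : Countable K₁ := countable_adj (countable_range _)
  have hpK : ∀ i a, p i a ∈ K₁ := fun i a => mem_adj ⊥ ⟨(i, a), rfl⟩
  have h01 : ∀ i j : V, (Pi.single i 1 : V → ℝ) j ∈ K₁ := by
    intro i j
    by_cases hij : j = i
    · subst hij; rw [Pi.single_eq_same]; exact one_mem _
    · rw [Pi.single_eq_of_ne hij]; exact zero_mem _
  have hMK : ∀ r f, stM H p r f ∈ K₁ := by
    intro r f
    rcases r with e | ⟨i, a⟩
    · simp only [stM, Matrix.of_apply]
      split_ifs
      · exact one_mem _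
      · exact zero_mem _
    · simp only [stM, Matrix.of_apply]
      exact mul_mem (sub_mem (hpK _ _) (hpK _ _)) (sub_mem (h01 _ _) (h01 _ _))
  obtain ⟨r, w, hwind, hwK, hwspan⟩ := exists_rat_basis (K := K₁)
    (LinearMap.ker (stM H p).mulVecLin) (fun x hx => ker_rational (stM H p) hMK hx)
  obtain ⟨c, -, hc⟩ := exists_algInd (ι := Fin r) (K := K₁) isOpen_univ ⟨0, trivial⟩
  let s : V × V → ℝ := ∑ l, c l • w l
  have hs : stM H p *ᵥ s = 0 := by
    have : s ∈ LinearMap.ker (stM H p).mulVecLin := by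
      rw [← hwspan]
      exact Submodule.sum_mem _ fun l _ => Submodule.smul_mem _ _ (Submodule.subset_span ⟨l, rfl⟩)
    exact this
  have hsapp : ∀ e, s e = ∑ l, c l * w l e := by
    intro e; simp [s, Finset.sum_apply]
  have hstr := (stM_ker H p s).1 hs
  refine ⟨fun i j => s (i, j), hstr, ?_⟩
  intro m σ hσ hsys
  obtain ⟨D₀, hD₀⟩ := hp.der m
  have hD₀p : ∀ a, dv D₀ (fun i => p i a) = fun i => m i a := fun a => funext fun i => hD₀ i a
  -- the difference is a stress
  let t : V × V → ℝ := fun e => σ e.1 e.2 - D₀ (s e)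
  have ht : stM H p *ᵥ t = 0 := by
    rw [stM_ker]
    refine ⟨?_, ?_⟩
    · intro i j hij
      change σ i j - D₀ (s (i, j)) = 0
      have h0 : s (i, j) = 0 := hstr.1 i j hij
      rw [hσ i j hij, h0, map_zero, sub_zero]
    · intro a z
      have h1 := der_Ker D₀ (hstr.2 a) z
      rw [hD₀p] at h1
      have h2 := hsys a z
      have h3 : (fun i j => t (i, j)) = σ + (-1 : ℝ) • fun i j => D₀ (s (i, j)) := by
        funext i j
        simp only [t, Pi.add_apply, Pi.smul_apply, smul_eq_mul]; ring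
      rw [h3, en_add_w, en_smul_w]
      linarith
  obtain ⟨β, hβ⟩ : ∃ β : Fin r → ℝ, ∑ l, β l • w l = t := by
    have h1 : t ∈ Submodule.span ℝ (range w) := by
      rw [hwspan]; exact ht
    exact (Submodule.mem_span_range_iff_exists_fun ℝ).1 h1
  obtain ⟨D₁, hD₁, hD₁c⟩ := exists_derK hc β
  refine ⟨D₀ + D₁, ?_, ?_⟩
  · intro i a
    rw [Derivation.add_apply, hD₀, hD₁ _ (hpK i a), add_zero]
  · intro i j
    rw [Derivation.add_apply]
    have h1 : D₁ (s (i, j)) = ∑ l, β l * w l (i, j) := by
      rw [hsapp, map_sum]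
      refine Finset.sum_congr rfl fun l _ => ?_
      rw [Derivation.leibniz, hD₁ _ (hwK l (i, j)), hD₁c]
      simp only [smul_eq_mul]; ring
    have h2 := congrFun hβ (i, j)
    simp only [Finset.sum_apply, Pi.smul_apply, smul_eq_mul, t] at h2
    rw [h1, h2]; ring

/-- Functionals vanishing on the kernel are represented by the form. -/
theorem exists_rep (ω : V → V → ℝ) (g : (V → ℝ) →ₗ[ℝ] ℝ) (hg : ∀ z ∈ Ker ω, g z = 0) :
    ∃ y, ∀ z, g z = en ω y z := by
  classical
  let L : (V → ℝ) →ₗ[ℝ] (V → ℝ) :=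
    { toFun := fun y k => en ω y (Pi.single k 1)
      map_add' := fun y z => by ext k; exact en_add_left _ _ _ _
      map_smul' := fun c y => by ext k; exact en_smul_left _ _ _ _ }
  have hL : ∀ y z, en ω y z = z ⬝ᵥ L y := fun y z => en_eq_sum_single ω y z
  let gv : V → ℝ := fun k => g (Pi.single k 1)
  have hgv : ∀ z, g z = z ⬝ᵥ gv := by
    intro z
    conv_lhs => rw [fun_eq_sum_single z]
    rw [map_sum]
    exact Finset.sum_congr rfl fun k _ => by rw [map_smul]; rfl
  by_cases hmem : gv ∈ LinearMap.range L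
  · obtain ⟨y, hy⟩ := hmem
    exact ⟨y, fun z => by rw [hgv, hL, hy]⟩
  · exfalso
    obtain ⟨f, hf, hle⟩ := Submodule.exists_le_ker_of_notMem hmem
    let a : V → ℝ := fun k => f (Pi.single k 1)
    have hfa : ∀ x : V → ℝ, f x = a ⬝ᵥ x := by
      intro x
      conv_lhs => rw [fun_eq_sum_single x]
      rw [map_sum]
      exact Finset.sum_congr rfl fun k _ => by rw [map_smul, smul_eq_mul, mul_comm]
    have ha : a ∈ Ker ω := by
      intro z
      rw [en_symm, hL, ← hfa]
      exact hle ⟨z, rfl⟩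
    apply hf
    rw [hfa, ← hgv, hg a ha]

/-- **Flatness.** Linear relations between the restricted rows hold for the restricted forms. -/
theorem flat {H : SimpleGraph V} {p : Conf d V} {ω : V → V → ℝ} (hT : Tan H p ω) {σ : V → V → ℝ} (hσ : ∀ i j, ¬ H.Adj i j → σ i j = 0)
    (h : ∀ m : Conf d V, (∀ a, (fun i => m i a) ∈ Ker ω) → ∑ i, ∑ j, σ i j * fl p m i j = 0)
    {y y' : V → ℝ} (hy : y ∈ Ker ω) (hy' : y' ∈ Ker ω) : en σ y y' = 0 := by
  classical
  have h1 : ∀ a, ∃ m : V → ℝ, ∀ z, en σ (fun i => p i a) z = en ω m z := by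
    intro a
    refine exists_rep ω
      { toFun := fun z => en σ (fun i => p i a) z
        map_add' := fun z z' => en_add _ _ _ _
        map_smul' := fun c z => en_smul _ _ _ _ } ?_
    intro z hz
    change en σ (fun i => p i a) z = 0
    rw [en_eq_sum_fl]
    refine h _ ?_
    intro b
    have h2 : (fun i => (z i • Pi.single a 1 : Fin d → ℝ) b) =
        (Pi.single a 1 : Fin d → ℝ) b • z := by
      ext i; simp [mul_comm]
    rw [h2]
    exact (Ker ω).smul_mem _ hz
  choose m hm using h1
  obtain ⟨D, hDp, hDω⟩ := hT (fun i a => - m a i) σ hσ (by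
    intro a z
    rw [hm a z]
    have : (fun i => - m a i) = (-1 : ℝ) • m a := by ext i; simp
    rw [this, en_smul_left]; ring)
  have h2 := der_Ker D hy y'
  have h3 : (fun i j => D (ω i j)) = σ := by
    funext i j; exact hDω i j
  rw [h3] at h2
  have h4 : en ω (dv D y) y' = 0 := by
    rw [en_symm]; exact hy' _
  rw [h4, add_zero] at h2
  exact h2

end Pool.Agent.H135R2.VS
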