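import Pool.Agent.H135R2.VS.Quad

set_option autoImplicit false
set_option linter.unusedSectionVars false

/-! # Local surjectivity at regular points -/

namespace Pool.Agent.H135R2.VS

open Set Matrix

variable {ι F : Type*} [Fintype ι] [Fintype F]

/-- The bilinear map as a continuous bilinear map. -/
noncomputable def Bc (A : F → Matrix ι ι ℝ) : (ι → ℝ) →L[ℝ] (ι → ℝ) →L[ℝ] (F → ℝ) :=
  LinearMap.toContinuousLinearMap
    ((LinearMap.toContinuousLinearMap : ((ι → ℝ) →ₗ[ℝ] (F → ℝ)) ≃ₗ[ℝ] _).toLinearMap ∘ₗ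
      { toFun := BL A
        map_add' := fun x y => LinearMap.ext fun z => Bq_add_left A x y z
        map_smul' := fun c x => LinearMap.ext fun z => Bq_smul_left A x z c })

theorem Bc_apply (A : F → Matrix ι ι ℝ) (x y : ι → ℝ) : Bc A x y = Bq A x y := rfl

theorem local_surj {A : F → Matrix ι ι ℝ} (hs : ∀ e, (A e)ᵀ = A e) {x : ι → ℝ} (h : Reg A x) :
    Filter.map (fun y => Bq A y y) (nhds x) = nhds (Bq A x x) := by
  have h1 := (Bc A).isBoundedBilinearMap.hasStrictFDerivAt (x, x)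
  have h2 : HasStrictFDerivAt (fun y : ι → ℝ => (y, y))
      ((ContinuousLinearMap.id ℝ (ι → ℝ)).prod (ContinuousLinearMap.id ℝ (ι → ℝ))) x :=
    (hasStrictFDerivAt_id x).prodMk (hasStrictFDerivAt_id x)
  have h3 := HasStrictFDerivAt.comp (f := fun y : ι → ℝ => (y, y))
    (g := fun z : (ι → ℝ) × (ι → ℝ) => Bc A z.1 z.2) x h1 h2
  refine h3.map_nhds_eq_of_surj ?_
  rw [LinearMap.range_eq_top]
  intro v
  obtain ⟨y, hy⟩ := h.surj ((1 / 2 : ℝ) • v)
  refine ⟨y, ?_⟩
  have hy' : Bq A x y = (1 / 2 : ℝ) • v := hy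
  have h4 : Bc A x y + Bc A y x = v := by
    rw [Bc_apply, Bc_apply, Bq_comm hs y x, hy', ← add_smul]
    norm_num
  rw [← h4]
  rfl

end Pool.Agent.H135R2.VS
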