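import Pool.Agent.H135R2.VS.Alg

set_option autoImplicit false
set_option linter.unusedSectionVars false

/-! # Ranks of polynomial matrices at generic points -/

namespace Pool.Agent.H135R2.VS

open MvPolynomial Set Matrix

section gram

variable {κ C : Type*} [Fintype κ] [DecidableEq κ] [Fintype C]

theorem gram_iff (v : κ → C → ℝ) :
    LinearIndependent ℝ v ↔ (Matrix.of fun j k => v j ⬝ᵥ v k).det ≠ 0 := by
  set M : Matrix κ κ ℝ := Matrix.of fun j k => v j ⬝ᵥ v k with hM
  have key : ∀ c : κ → ℝ, ∀ k : κ, Matrix.vecMul c M k = (∑ j, c j • v j) ⬝ᵥ v k := by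
    intro c k
    rw [sum_dotProduct]
    simp only [Matrix.vecMul, dotProduct, hM, Matrix.of_apply, Pi.smul_apply, smul_eq_mul]
    refine Finset.sum_congr rfl fun j _ => ?_
    rw [Finset.mul_sum]
    refine Finset.sum_congr rfl fun i _ => ?_
    ring
  constructor
  · intro h hdet
    obtain ⟨c, hc0, hc⟩ := Matrix.exists_vecMul_eq_zero_iff.2 hdet
    apply hc0
    have h1 : ∀ k : κ, (∑ j, c j • v j) ⬝ᵥ v k = 0 := by
      intro k
      rw [← key c k, hc]; rfl
    have h2 : (∑ j, c j • v j) ⬝ᵥ (∑ j, c j • v j) = 0 := by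
      rw [dotProduct_sum]
      refine Finset.sum_eq_zero fun k _ => ?_
      rw [dotProduct_smul, h1 k, smul_zero]
    have h3 := dotProduct_self_eq_zero.1 h2
    have h4 := Fintype.linearIndependent_iff.1 h c h3
    ext e; exact h4 e
  · intro hdet
    rw [Fintype.linearIndependent_iff]
    intro c hc
    have h1 : Matrix.vecMul c M = 0 := by
      ext k
      rw [key c k, hc]
      simp
    have h2 := Matrix.eq_zero_of_vecMul_eq_zero hdet h1
    intro e; rw [h2]; rfl

end gram

theorem sum_dite_sub {I M : Type*} [Fintype I] [AddCommMonoid M] (b : Set I)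
    [DecidablePred (· ∈ b)] [Fintype b] (F : b → M) :
    ∑ i, (if h : i ∈ b then F ⟨i, h⟩ else 0) = ∑ k : b, F k := by
  have h1 := Finset.sum_subtype (F := (inferInstance : Fintype b))
    (Finset.univ.filter (· ∈ b)) (p := (· ∈ b)) (by simp)
    (fun i => if h : i ∈ b then F ⟨i, h⟩ else 0)
  rw [Finset.sum_filter] at h1
  have h2 : ∀ i, (if i ∈ b then (if h : i ∈ b then F ⟨i, h⟩ else 0) else 0) =
      if h : i ∈ b then F ⟨i, h⟩ else 0 := by
    intro i
    split_ifs <;> rfl
  simp only [h2] at h1
  rw [h1]
  refine Finset.sum_congr (by ext; simp) fun k _ => ?_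
  rw [dif_pos k.2]

variable {ι I C J : Type*} [Fintype I] [Fintype C] [Finite ι] [Finite J] {K : SF}

/-- Evaluation of a polynomial matrix. -/
noncomputable def evm (R : Matrix I C (MvPolynomial ι K)) (x : ι → ℝ) : Matrix I C ℝ :=
  R.map (aeval x)

theorem gram_poly {κ : Type*} [Fintype κ] [DecidableEq κ] (R : Matrix I C (MvPolynomial ι K))
    (j : κ → I) (x : ι → ℝ) :
    (Matrix.of fun k l => (evm R x) (j k) ⬝ᵥ (evm R x) (j l)).det =
      aeval x (Matrix.of fun k l => ∑ c, R (j k) c * R (j l) c).det := by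
  rw [AlgHom.map_det]
  congr 1
  ext k l
  simp only [Matrix.of_apply, dotProduct, evm, Matrix.map_apply, AlgHom.mapMatrix_apply, map_sum,
    map_mul]

/-- Rows which are independent at some point are independent at generic points. -/
theorem rows_ind {κ : Type*} [Finite κ] (R : Matrix I C (MvPolynomial ι K))
    (j : κ → I) {x x' : ι → ℝ} (hx : AlgebraicIndependent K x)
    (h : LinearIndependent ℝ fun k => (evm R x') (j k)) :
    LinearIndependent ℝ fun k => (evm R x) (j k) := by
  classical
  have := Fintype.ofFinite κ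
  rw [gram_iff, gram_poly] at h ⊢
  intro h0
  apply h
  have := hx (a₁ := (Matrix.of fun k l => ∑ c, R (j k) c * R (j l) c).det) (a₂ := 0)
    (by rw [map_zero]; exact h0)
  rw [this, map_zero]

/-- A basis of the rows. -/
theorem exists_row_basis (M : Matrix I C ℝ) : ∃ b : Set I,
    (LinearIndependent ℝ fun k : b => M k) ∧ ∀ i, M i ∈ Submodule.span ℝ (M '' b) := by
  obtain ⟨b, -, -, h1, h2⟩ := exists_linearIndepOn_extension (K := ℝ) (v := M)
    (s := ∅) (t := univ) (linearIndepOn_empty _ _) (empty_subset _)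
  exact ⟨b, h2, fun i => h1 ⟨i, mem_univ _, rfl⟩⟩

theorem rank_eq_card {M : Matrix I C ℝ} {b : Set I} [Fintype b]
    (h1 : LinearIndependent ℝ fun k : b => M k)
    (h2 : ∀ i, M i ∈ Submodule.span ℝ (M '' b)) : M.rank = Fintype.card b := by
  rw [Matrix.rank_eq_finrank_span_row]
  have h3 : Submodule.span ℝ (range M.row) = Submodule.span ℝ (range fun k : b => M k) := by
    apply le_antisymm
    · rw [Submodule.span_le]
      rintro _ ⟨i, rfl⟩
      have := h2 i
      rwa [image_eq_range] at this
    · apply Submodule.span_mono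
      rintro _ ⟨k, rfl⟩
      exact ⟨k, rfl⟩
  rw [h3, finrank_span_eq_card h1]

theorem card_le_rank {κ : Type*} [Fintype κ] {M : Matrix I C ℝ} {j : κ → I}
    (h1 : LinearIndependent ℝ fun k => M (j k)) : Fintype.card κ ≤ M.rank := by
  rw [Matrix.rank_eq_finrank_span_row, ← finrank_span_eq_card h1]
  apply Submodule.finrank_mono
  apply Submodule.span_mono
  rintro _ ⟨k, rfl⟩
  exact ⟨j k, rfl⟩

/-- The rank at a generic point is maximal. -/
theorem rank_le_generic (R : Matrix I C (MvPolynomial ι K)) {x x' : ι → ℝ}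
    (hx : AlgebraicIndependent K x) : (evm R x').rank ≤ (evm R x).rank := by
  classical
  obtain ⟨b, h1, h2⟩ := exists_row_basis (evm R x')
  have := Fintype.ofFinite b
  rw [rank_eq_card h1 h2]
  exact card_le_rank (rows_ind R (fun k : b => (k : I)) hx h1)

/-- Independent rows of the right number span all rows. -/
theorem span_of_card {M : Matrix I C ℝ} {b : Set I} [Fintype b]
    (h1 : LinearIndependent ℝ fun k : b => M k) (h2 : M.rank ≤ Fintype.card b) (i : I) :
    M i ∈ Submodule.span ℝ (M '' b) := by
  rw [Matrix.rank_eq_finrank_span_row, ← finrank_span_eq_card h1] at h2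
  have h3 : Submodule.span ℝ (range fun k : b => M k) = Submodule.span ℝ (range M.row) := by
    apply Submodule.eq_of_le_of_finrank_le
    · apply Submodule.span_mono
      rintro _ ⟨k, rfl⟩
      exact ⟨k, rfl⟩
    · exact h2
  have h4 : M i ∈ Submodule.span ℝ (range M.row) := Submodule.subset_span ⟨i, rfl⟩
  rw [← h3] at h4
  rwa [image_eq_range]

/-- Specialisation of dependencies: if a dependency of the rows at a point of maximal rank has a
(polynomial) nonvanishing property, then so has some dependency of the rows at any generic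
point. -/
theorem specialize [Countable K] (R : Matrix I C (MvPolynomial ι K)) (g : MvPolynomial (ι ⊕ I ⊕ J) K)
    {x' : ι → ℝ} {ω' : I → ℝ} {u' : J → ℝ} (hω' : ω' ᵥ* (evm R x') = 0)
    (hg : aeval (Sum.elim x' (Sum.elim ω' u')) g ≠ 0) {x : ι → ℝ}
    (hx : AlgebraicIndependent K x) (hr : (evm R x).rank ≤ (evm R x').rank) :
    ∃ (ω : I → ℝ) (u : J → ℝ), ω ᵥ* (evm R x) = 0 ∧
      aeval (Sum.elim x (Sum.elim ω u)) g ≠ 0 := by
  classical
  obtain ⟨b, h1, h2⟩ := exists_row_basis (evm R x')
  have := Fintype.ofFinite b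
  have hb1 : LinearIndependent ℝ fun k : b => (evm R x) k :=
    rows_ind R (fun k : b => (k : I)) hx h1
  have hb2 : ∀ i, (evm R x) i ∈ Submodule.span ℝ ((evm R x) '' b) :=
    span_of_card hb1 (by rw [← rank_eq_card h1 h2]; exact hr)
  -- polynomial matrices
  let Gm : Matrix b b (MvPolynomial ι K) := Matrix.of fun k l => ∑ c, R k c * R l c
  let y : I → b → MvPolynomial ι K := fun e k => ∑ c, R k c * R e c
  let a : I → b → MvPolynomial ι K := fun e => Gm.adjugate *ᵥ y e
  -- the relation between the rows
  have hrel : ∀ (x : ι → ℝ), (LinearIndependent ℝ fun k : b => (evm R x) k) → ∀ e,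
      (evm R x) e ∈ Submodule.span ℝ ((evm R x) '' b) →
      (aeval x Gm.det) • (evm R x) e = ∑ k : b, (aeval x (a e k)) • (evm R x) k := by
    intro x hind e he
    rw [image_eq_range, Submodule.mem_span_range_iff_exists_fun] at he
    obtain ⟨c, hc⟩ := he
    have hy : ∀ k : b, aeval x (y e k) = ((Gm.map (aeval x)) *ᵥ c) k := by
      intro k
      simp only [y, map_sum, map_mul, Matrix.mulVec, dotProduct, Matrix.map_apply, Gm,
        Matrix.of_apply]
      have h3 : ∀ i, aeval x (R e i) = ∑ l : b, c l * aeval x (R l i) := by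
        intro i
        have := congrFun hc i
        simp only [Finset.sum_apply, Pi.smul_apply, smul_eq_mul, evm, Matrix.map_apply] at this
        exact this.symm
      simp only [h3, Finset.mul_sum, Finset.sum_mul]
      rw [Finset.sum_comm]
      refine Finset.sum_congr rfl fun l _ => Finset.sum_congr rfl fun i _ => ?_
      ring
    have ha : ∀ k : b, aeval x (a e k) = aeval x Gm.det * c k := by
      intro k
      have h3 : aeval x (a e k) = ((Gm.map (aeval x)).adjugate *ᵥ (fun k => aeval x (y e k))) k := by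
        have h4 : (Gm.map (aeval x)).adjugate = Gm.adjugate.map (aeval x) := by
          have := AlgHom.map_adjugate (aeval x : MvPolynomial ι K →ₐ[K] ℝ) Gm
          simp only [AlgHom.mapMatrix_apply] at this
          exact this.symm
        rw [h4]
        simp only [a, Matrix.mulVec, dotProduct, map_sum, map_mul, Matrix.map_apply]
      rw [h3]
      have h5 : (fun k => aeval x (y e k)) = (Gm.map (aeval x)) *ᵥ c := funext hy
      rw [h5, Matrix.mulVec_mulVec, Matrix.adjugate_mul, Matrix.smul_mulVec, Matrix.one_mulVec]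
      have h6 : (Gm.map (aeval x)).det = aeval x Gm.det := by
        rw [AlgHom.map_det, AlgHom.mapMatrix_apply]
      rw [h6]; rfl
    rw [← hc, Finset.smul_sum]
    refine Finset.sum_congr rfl fun k _ => ?_
    rw [ha, smul_smul]
  have hG' : aeval x' Gm.det ≠ 0 := by
    have := (gram_iff _).1 h1
    rwa [gram_poly R (fun k : b => (k : I)) x'] at this
  have hG : aeval x Gm.det ≠ 0 := by
    have := (gram_iff _).1 hb1
    rwa [gram_poly R (fun k : b => (k : I)) x] at this
  -- the family of dependencies
  let dep : (ι → ℝ) → (I → ℝ) → I → ℝ := fun x Y i =>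
    aeval x Gm.det * Y i - if h : i ∈ b then ∑ e, Y e * aeval x (a e ⟨i, h⟩) else 0
  have hdep : ∀ x Y, (LinearIndependent ℝ fun k : b => (evm R x) k) →
      (∀ e, (evm R x) e ∈ Submodule.span ℝ ((evm R x) '' b)) → dep x Y ᵥ* (evm R x) = 0 := by
    intro x Y hi hs
    have h3 : dep x Y ᵥ* (evm R x) = ∑ i, dep x Y i • (evm R x) i := by
      ext c
      simp only [Matrix.vecMul, dotProduct, Finset.sum_apply, Pi.smul_apply, smul_eq_mul]
    rw [h3]
    simp only [dep, sub_smul, Finset.sum_sub_distrib]
    rw [sub_eq_zero]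
    have h4 : ∀ i, (aeval x Gm.det * Y i) • (evm R x) i =
        ∑ k : b, (Y i * aeval x (a i k)) • (evm R x) k := by
      intro i
      rw [mul_comm, mul_smul, hrel x hi i (hs i), Finset.smul_sum]
      refine Finset.sum_congr rfl fun k _ => ?_
      rw [smul_smul]
    simp only [h4]
    rw [Finset.sum_comm]
    have h5 : ∀ i, (if h : i ∈ b then ∑ e, Y e * aeval x (a e ⟨i, h⟩) else 0) • (evm R x) i
        = if h : i ∈ b then (∑ e, Y e * aeval x (a e ⟨i, h⟩)) • (evm R x) i else 0 := by
      intro i
      split_ifs with h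
      · rfl
      · rw [zero_smul]
    simp only [h5]
    have h6 := sum_dite_sub b (fun k : b => (∑ e, Y e * aeval x (a e k)) • (evm R x) k)
    simp only at h6
    rw [h6]
    refine Finset.sum_congr rfl fun k _ => ?_
    rw [Finset.sum_smul]
  -- the given dependency is in the family
  have hx'dep : dep x' ω' = (aeval x' Gm.det) • ω' := by
    have h3 : ∀ k : b, ∑ e, ω' e * aeval x' (a e k) = 0 := by
      have h4 : ∑ k : b, (∑ e, ω' e * aeval x' (a e k)) • (evm R x') k = 0 := by
        have h5 : ∀ k : b, (∑ e, ω' e * aeval x' (a e k)) • (evm R x') k =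
            ∑ e, (ω' e) • (aeval x' (a e k)) • (evm R x') k := by
          intro k
          rw [Finset.sum_smul]
          refine Finset.sum_congr rfl fun e _ => ?_
          rw [smul_smul]
        simp only [h5]
        rw [Finset.sum_comm]
        have h6 : ∀ e, ∑ k : b, (ω' e) • (aeval x' (a e k)) • (evm R x') k =
            (aeval x' Gm.det) • (ω' e) • (evm R x') e := by
          intro e
          rw [← Finset.smul_sum, ← hrel x' h1 e (h2 e), smul_comm]
        simp only [h6]
        rw [← Finset.smul_sum]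
        have h7 : ∑ e, ω' e • (evm R x') e = 0 := by
          have : ω' ᵥ* (evm R x') = ∑ i, ω' i • (evm R x') i := by
            ext c
            simp only [Matrix.vecMul, dotProduct, Finset.sum_apply, Pi.smul_apply, smul_eq_mul]
          rw [← this]; exact hω'
        rw [h7, smul_zero]
      exact Fintype.linearIndependent_iff.1 h1 _ h4
    ext i
    simp only [dep, Pi.smul_apply, smul_eq_mul]
    split_ifs with h
    · rw [h3 ⟨i, h⟩, sub_zero]
    · rw [sub_zero]
  -- substitution
  let depP : I → MvPolynomial (ι ⊕ I ⊕ J) K := fun i =>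
    rename Sum.inl Gm.det * X (Sum.inr (Sum.inl i)) -
      if h : i ∈ b then ∑ e, X (Sum.inr (Sum.inl e)) * rename Sum.inl (a e ⟨i, h⟩) else 0
  let sub : ι ⊕ I ⊕ J → MvPolynomial (ι ⊕ I ⊕ J) K :=
    Sum.elim (fun i => X (Sum.inl i)) (Sum.elim depP (fun j => X (Sum.inr (Sum.inr j))))
  have hsub : ∀ (x : ι → ℝ) (Y : I → ℝ) (u : J → ℝ),
      aeval (Sum.elim x (Sum.elim Y u)) (bind₁ sub g) =
        aeval (Sum.elim x (Sum.elim (dep x Y) u)) g := by
    intro x Y u
    rw [aeval_bind₁]
    congr 1
    congr 1
    funext s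
    rcases s with i | i | i
    · simp [sub]
    · simp only [sub, depP, Sum.elim_inr, Sum.elim_inl, dep, map_sub, map_mul, aeval_X,
        aeval_rename]
      have : (Sum.elim x (Sum.elim Y u)) ∘ Sum.inl = x := by ext; simp
      rw [this]
      congr 1
      split_ifs with h
      · rw [map_sum]
        refine Finset.sum_congr rfl fun e _ => ?_
        rw [map_mul, aeval_X, aeval_rename, this]
        rfl
      · rw [map_zero]
    · simp [sub]
  have hne : bind₁ sub g ≠ 0 := by
    intro h0
    have h3 := hsub x' ((aeval x' Gm.det)⁻¹ • ω') u'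
    rw [h0, map_zero] at h3
    have h4 : dep x' ((aeval x' Gm.det)⁻¹ • ω') = ω' := by
      have h5 : dep x' ((aeval x' Gm.det)⁻¹ • ω') = (aeval x' Gm.det)⁻¹ • dep x' ω' := by
        ext i
        simp only [dep, Pi.smul_apply, smul_eq_mul, mul_sub]
        congr 1
        · ring
        · split_ifs with h
          · rw [Finset.mul_sum]
            refine Finset.sum_congr rfl fun e _ => ?_
            ring
          · rw [mul_zero]
      rw [h5, hx'dep, smul_smul, inv_mul_cancel₀ hG', one_smul]
    rw [h4] at h3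
    exact hg h3.symm
  -- generic extension
  have hcount : Countable (adj K (range x)) := countable_adj (countable_range x)
  obtain ⟨w, -, hw⟩ := exists_algInd (ι := I ⊕ J) (K := adj K (range x)) isOpen_univ ⟨0, trivial⟩
  have hxw := algInd_sum hx hw
  refine ⟨dep x (w ∘ Sum.inl), w ∘ Sum.inr, hdep x _ hb1 hb2, ?_⟩
  rw [← hsub]
  intro h0
  apply hne
  apply hxw
  rw [map_zero]
  have hw' : Sum.elim (w ∘ Sum.inl) (w ∘ Sum.inr) = w := Sum.elim_comp_inl_inr w
  rw [hw'] at h0
  exact h0

end Pool.Agent.H135R2.VS
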