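import Pool.Agent.H135R2.VS.Wc

set_option autoImplicit false
set_option linter.unusedSectionVars false

/-! # A critical point of the measurement map -/

namespace Pool.Agent.H135R2.VS

open Set Matrix

variable {V : Type*} {d : ℕ} [Fintype V] [DecidableEq V]

variable {H : SimpleGraph V} {p : Conf d V} {ω : V → V → ℝ} {k : ℕ} {b : Fin k → V → ℝ}
  {xp : Fin k × Fin d → ℝ} {L : Set (V × V)} [Fintype L]

/-- The restricted forms. -/
noncomputable abbrev AA (d : ℕ) (b : Fin k → V → ℝ) (L : Set (V × V)) :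
    L → Matrix (Fin k × Fin d) (Fin k × Fin d) ℝ := fun e => AL (cW d b) e.1

theorem Bq_AA (x y : Fin k × Fin d → ℝ) (e : L) :
    Bq (AA d b L) x y e = fl (cW d b x) (cW d b y) e.1.1 e.1.2 :=
  Bq_AL (cW d b) (fun e : L => e.1) x y e

theorem Dat.reg_xp (D : Dat H p ω k b xp L) : Reg (AA d b L) xp := by
  intro σ hσ
  have h1 : ∑ e : L, σ e • rowW H p b e.1 = 0 := by
    apply eq_of_dot
    intro y
    rw [zero_dotProduct, sum_dotProduct, ← hσ y]
    refine Finset.sum_congr rfl fun e _ => ?_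
    rw [smul_dotProduct, rowW_dot H p b e.1 (D.hL _ e.2), Bq_AA, D.hxp, smul_eq_mul]
  ext e
  exact Fintype.linearIndependent_iff.1 D.hind σ h1 e

theorem Dat.reg_gen (D : Dat H p ω k b xp L) {x : Fin k × Fin d → ℝ}
    (hx : AlgebraicIndependent (K0 ω) x) : Reg (AA d b L) x := by
  have h1 : ∀ (e : L) (i j : Fin k × Fin d), AA d b L e i j ∈ K0 ω := fun e i j =>
    AL_cW_mem D.hbK e.1 i j
  exact Reg.generic h1 D.reg_xp hx

theorem Dat.rel (D : Dat H p ω k b xp L) {i j : V} (hij : H.Adj i j) : ∃ γ : L → ℝ,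
    ∀ x y : Fin k × Fin d → ℝ, fl (cW d b x) (cW d b y) i j = ∑ e, γ e * Bq (AA d b L) x y e := by
  classical
  obtain ⟨γ, hγ⟩ := D.hrel i j hij
  refine ⟨fun e => γ e.1, fun x y => ?_⟩
  rw [hγ]
  have h5 := sum_dite_sub L (fun e : L => γ e.1 * Bq (AA d b L) x y e)
  rw [← h5]
  refine Finset.sum_congr rfl fun e _ => ?_
  by_cases he : e ∈ L
  · rw [if_pos he, dif_pos he, Bq_AA]
  · rw [if_neg he, dif_neg he]

/-- Infinitesimally rigid generic frameworks are connected. -/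
theorem reach_of_ir (hp : Gen p) (hd : 0 < d) (hIR : IR H p) (o j : V) : H.Reachable o j := by
  classical
  by_contra hcon
  let m : Conf d V := fun i => if H.Reachable o i then p o - p j else 0
  have h1 := hIR m (by
    intro i l hil
    rw [fl_dot]
    have : m i = m l := by
      simp only [m]
      by_cases h : H.Reachable o i
      · rw [if_pos h, if_pos (h.trans hil.reachable)]
      · rw [if_neg h, if_neg (fun h' => h (h'.trans hil.symm.reachable))]
    rw [this, sub_self, dotProduct_zero]) o j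
  rw [fl_dot] at h1
  simp only [m] at h1
  rw [if_pos (SimpleGraph.Reachable.refl o), if_neg hcon, sub_zero] at h1
  have h2 := dotProduct_self_eq_zero.1 h1
  have h3 : p o = p j := sub_eq_zero.1 h2
  have h4 : ((o, ⟨0, hd⟩) : V × Fin d) = (j, ⟨0, hd⟩) := by
    have hinj := AlgebraicIndependent.injective hp
    apply hinj
    simp only
    rw [h3]
  have h5 : o = j := congrArg Prod.fst h4
  exact hcon (h5 ▸ SimpleGraph.Reachable.refl o)

theorem fl_translate (x : Conf d V) (t : Fin d → ℝ) (i j : V) :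
    fl (fun i => x i - t) (fun i => x i - t) i j = fl x x i j := by
  unfold fl
  exact Finset.sum_congr rfl fun a _ => by simp only [Pi.sub_apply]; ring

theorem continuous_fl (i j : V) : Continuous fun x : Conf d V => fl x x i j := by
  unfold fl
  fun_prop

theorem continuous_en (ω : V → V → ℝ) (z : V → ℝ) (a : Fin d) :
    Continuous fun x : Conf d V => en ω (fun i => x i a) z := by
  unfold en
  fun_prop

/-- Existence of the minimiser. -/
theorem Dat.exists_min (D : Dat H p ω k b xp L) (hd : 0 < d) [Nonempty V]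
    (x₁ : Fin k × Fin d → ℝ) (e₀ : L) :
    ∃ c : Fin k × Fin d → ℝ,
      (∀ e, e ≠ e₀ → Bq (AA d b L) c c e = Bq (AA d b L) x₁ x₁ e) ∧
      ∀ x, (∀ e, e ≠ e₀ → Bq (AA d b L) x x e = Bq (AA d b L) x₁ x₁ e) →
        Bq (AA d b L) c c e₀ ≤ Bq (AA d b L) x x e₀ := by
  classical
  obtain ⟨o⟩ := (inferInstance : Nonempty V)
  set X₁ := cW d b x₁ with hX₁
  let S : Set (Conf d V) := {x | (∀ a, ∀ z, en ω (fun i => x i a) z = 0) ∧
    (∀ e : L, e ≠ e₀ → fl x x e.1.1 e.1.2 = fl X₁ X₁ e.1.1 e.1.2) ∧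
    fl x x e₀.1.1 e₀.1.2 ≤ fl X₁ X₁ e₀.1.1 e₀.1.2 ∧ x o = 0}
  -- bounds
  have hle : ∀ x ∈ S, ∀ e : L, fl x x e.1.1 e.1.2 ≤ fl X₁ X₁ e.1.1 e.1.2 := by
    intro x hx e
    by_cases he : e = e₀
    · rw [he]; exact hx.2.2.1
    · exact (hx.2.1 e he).le
  have hadj : ∀ i j, H.Adj i j → ∃ M : ℝ, ∀ x ∈ S, ∀ a, |x i a - x j a| ≤ M := by
    intro i j hij
    obtain ⟨γ, hγ⟩ := D.rel hij
    refine ⟨∑ e : L, |γ e| * fl X₁ X₁ e.1.1 e.1.2 + 1, ?_⟩
    intro x hx a
    obtain ⟨ξ, rfl⟩ := cW_surj D.hbs hx.1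
    have h1 : fl (cW d b ξ) (cW d b ξ) i j ≤ ∑ e : L, |γ e| * fl X₁ X₁ e.1.1 e.1.2 := by
      rw [hγ]
      refine Finset.sum_le_sum fun e _ => ?_
      rw [Bq_AA]
      have h2 := fl_diag_nonneg (cW d b ξ) e.1.1 e.1.2
      calc γ e * fl (cW d b ξ) (cW d b ξ) e.1.1 e.1.2
          ≤ |γ e| * fl (cW d b ξ) (cW d b ξ) e.1.1 e.1.2 :=
            mul_le_mul_of_nonneg_right (le_abs_self _) h2
        _ ≤ |γ e| * fl X₁ X₁ e.1.1 e.1.2 :=
            mul_le_mul_of_nonneg_left (hle _ hx e) (abs_nonneg _)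
    have h3 : (cW d b ξ i a - cW d b ξ j a) * (cW d b ξ i a - cW d b ξ j a) ≤
        fl (cW d b ξ) (cW d b ξ) i j :=
      Finset.single_le_sum (f := fun a => (cW d b ξ i a - cW d b ξ j a) *
        (cW d b ξ i a - cW d b ξ j a)) (fun a _ => mul_self_nonneg _) (Finset.mem_univ a)
    set t := cW d b ξ i a - cW d b ξ j a
    have h4 : |t| ≤ t * t + 1 := by
      rcases abs_cases t with ⟨h, _⟩ | ⟨h, _⟩ <;> rw [h] <;> nlinarith [sq_nonneg (t - 1), sq_nonneg (t + 1)]
    linarith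
  have hall : ∀ j, ∃ M : ℝ, ∀ x ∈ S, ∀ a, |x j a| ≤ M := by
    intro j
    have h1 := reach_of_ir D.hp hd D.hIR o j
    rw [SimpleGraph.reachable_iff_reflTransGen] at h1
    induction h1 with
    | refl =>
      refine ⟨0, fun x hx a => ?_⟩
      rw [hx.2.2.2, Pi.zero_apply, abs_zero]
    | tail _ hbc ih =>
      obtain ⟨M, hM⟩ := ih
      obtain ⟨M', hM'⟩ := hadj _ _ hbc
      refine ⟨M + M', fun x hx a => ?_⟩
      have h2 := hM x hx a
      have h3 := hM' x hx a
      rw [abs_le] at h2 h3 ⊢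
      constructor <;> linarith
  choose M hM using hall
  have hbdd : Bornology.IsBounded S := by
    rw [Metric.isBounded_iff_subset_closedBall 0]
    refine ⟨∑ j, |M j|, fun x hx => ?_⟩
    rw [mem_closedBall_zero_iff]
    have h0 : 0 ≤ ∑ j, |M j| := Finset.sum_nonneg fun _ _ => abs_nonneg _
    rw [pi_norm_le_iff_of_nonneg h0]
    intro j
    rw [pi_norm_le_iff_of_nonneg h0]
    intro a
    rw [Real.norm_eq_abs]
    refine (hM j x hx a).trans ((le_abs_self _).trans ?_)
    exact Finset.single_le_sum (f := fun j => |M j|) (fun _ _ => abs_nonneg _) (Finset.mem_univ j)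
  have hclosed : IsClosed S := by
    have e1 : IsClosed {x : Conf d V | ∀ a, ∀ z, en ω (fun i => x i a) z = 0} := by
      have : {x : Conf d V | ∀ a, ∀ z, en ω (fun i => x i a) z = 0} =
          ⋂ a, ⋂ z, {x : Conf d V | en ω (fun i => x i a) z = 0} := by
        ext x; simp
      rw [this]
      exact isClosed_iInter fun a => isClosed_iInter fun z =>
        isClosed_eq (continuous_en ω z a) continuous_const
    have e2 : IsClosed {x : Conf d V | ∀ e : L, e ≠ e₀ →
        fl x x e.1.1 e.1.2 = fl X₁ X₁ e.1.1 e.1.2} := by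
      have : {x : Conf d V | ∀ e : L, e ≠ e₀ → fl x x e.1.1 e.1.2 = fl X₁ X₁ e.1.1 e.1.2} =
          ⋂ e : L, ⋂ _ : e ≠ e₀, {x : Conf d V | fl x x e.1.1 e.1.2 = fl X₁ X₁ e.1.1 e.1.2} := by
        ext x; simp
      rw [this]
      exact isClosed_iInter fun e => isClosed_iInter fun _ =>
        isClosed_eq (continuous_fl _ _) continuous_const
    have e3 : IsClosed {x : Conf d V | fl x x e₀.1.1 e₀.1.2 ≤ fl X₁ X₁ e₀.1.1 e₀.1.2} :=
      isClosed_le (continuous_fl _ _) continuous_const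
    have e4 : IsClosed {x : Conf d V | x o = 0} := isClosed_eq (continuous_apply o) continuous_const
    exact e1.inter (e2.inter (e3.inter e4))
  have hcpt : IsCompact S := Metric.isCompact_of_isClosed_isBounded hclosed hbdd
  -- translations
  have htr : ∀ x : Conf d V, (∀ a, ∀ z, en ω (fun i => x i a) z = 0) →
      (∀ e : L, e ≠ e₀ → fl x x e.1.1 e.1.2 = fl X₁ X₁ e.1.1 e.1.2) →
      fl x x e₀.1.1 e₀.1.2 ≤ fl X₁ X₁ e₀.1.1 e₀.1.2 → (fun i => x i - x o) ∈ S := by
    intro x h1 h2 h3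
    refine ⟨?_, ?_, ?_, ?_⟩
    · intro a z
      have h4 : (fun i => (x i - x o) a) = (fun i => x i a) + (fun _ => - x o a) := by
        ext i; simp [sub_eq_add_neg]
      rw [h4, en_add_left, h1, en_symm, en_const, add_zero]
    · intro e he
      rw [fl_translate]; exact h2 e he
    · rw [fl_translate]; exact h3
    · simp
  have hne : S.Nonempty := ⟨_, htr X₁ (fun a => cW_mem D.hbs x₁ a) (fun _ _ => rfl) le_rfl⟩
  obtain ⟨X, hXS, hXmin⟩ := hcpt.exists_isMinOn hne (continuous_fl e₀.1.1 e₀.1.2).continuousOn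
  obtain ⟨c, hc⟩ := cW_surj D.hbs hXS.1
  refine ⟨c, ?_, ?_⟩
  · intro e he
    rw [Bq_AA, Bq_AA, hc]
    exact hXS.2.1 e he
  · intro x hx
    rw [Bq_AA, Bq_AA, hc]
    by_cases hlt : fl (cW d b x) (cW d b x) e₀.1.1 e₀.1.2 ≤ fl X₁ X₁ e₀.1.1 e₀.1.2
    · have h1 := htr (cW d b x) (fun a => cW_mem D.hbs x a) (fun e he => by
        have := hx e he
        rw [Bq_AA, Bq_AA] at this
        exact this) hlt
      have h2 := hXmin h1
      simp only [mem_ofPred_eq] at h2
      rwa [fl_translate] at h2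
    · exact hXS.2.2.1.trans (not_le.1 hlt).le

/-- The minimiser is not regular. -/
theorem not_reg_of_min {ι F : Type*} [Fintype ι] [Fintype F] [DecidableEq F]
    {A : F → Matrix ι ι ℝ} (hs : ∀ e, (A e)ᵀ = A e) {c : ι → ℝ} {e₀ : F}
    (hmin : ∀ x, (∀ e, e ≠ e₀ → Bq A x x e = Bq A c c e) → Bq A c c e₀ ≤ Bq A x x e₀) :
    ¬ Reg A c := by
  intro hreg
  have hloc := local_surj hs hreg
  have hc : Continuous fun δ : ℝ => Bq A c c - δ • (Pi.single e₀ 1 : F → ℝ) := by
    fun_prop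
  have h0 : Filter.Tendsto (fun δ : ℝ => Bq A c c - δ • (Pi.single e₀ 1 : F → ℝ))
      (nhds 0) (nhds (Bq A c c)) := by
    have := hc.tendsto 0
    rwa [zero_smul, sub_zero] at this
  have himg : range (fun y => Bq A y y) ∈ nhds (Bq A c c) := by
    rw [← hloc]
    exact Filter.range_mem_map
  have h1 := (h0.mono_left (nhdsWithin_le_nhds (s := Ioi 0))).eventually himg
  have h2 : ∀ᶠ t in nhdsWithin (0 : ℝ) (Ioi 0), t ∈ Ioi (0 : ℝ) := self_mem_nhdsWithin
  obtain ⟨t, ⟨y, hy⟩, ht⟩ := (h1.and h2).exists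
  have h3 := hmin y (fun e he => by
    have := congrFun hy e
    simp only [Pi.sub_apply, Pi.smul_apply] at this
    rw [this, Pi.single_eq_of_ne he]
    simp)
  have h4 := congrFun hy e₀
  simp only [Pi.sub_apply, Pi.smul_apply, Pi.single_eq_same, smul_eq_mul, mul_one] at h4
  rw [h4] at h3
  have : (0 : ℝ) < t := ht
  linarith

end Pool.Agent.H135R2.VS
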