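import Pool.Agent.H135R2.VS.Frame

set_option autoImplicit false
set_option linter.unusedSectionVars false

/-! # Nullity of symmetric matrices; stresses -/

namespace Pool.Agent.H135R2.VS

open Set Matrix

theorem det_of_nullity {n : Type*} [Fintype n] [DecidableEq n] {M : Matrix n n ℝ}
    (hM : Mᵀ = M) {r : ℕ} (h : Module.finrank ℝ (LinearMap.ker M.mulVecLin) ≤ r) :
    ∃ U : Matrix n (Fin r) ℝ, (M + U * Uᵀ).det ≠ 0 := by
  classical
  obtain ⟨f, hf⟩ : ∃ f : (Fin r → ℝ) →ₗ[ℝ] (LinearMap.ker M.mulVecLin), Function.Surjective f := by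
    have h1 : Module.finrank ℝ (LinearMap.ker M.mulVecLin) ≤ Module.finrank ℝ (Fin r → ℝ) := by
      simpa using h
    obtain ⟨g, hg⟩ := (finrank_le_iff_exists_linearMap (R := ℝ)).1 h1
    obtain ⟨s, hs⟩ := g.exists_leftInverse_of_injective (LinearMap.ker_eq_bot.2 hg)
    refine ⟨s, fun y => ⟨g y, ?_⟩⟩
    rw [← LinearMap.comp_apply, hs, LinearMap.id_apply]
  let U : Matrix n (Fin r) ℝ := Matrix.of fun i k => (f (Pi.single k 1) : n → ℝ) i
  have hU : ∀ c : Fin r → ℝ, U *ᵥ c = (f c : n → ℝ) := by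
    intro c
    have h1 : f c = ∑ k, c k • f (Pi.single k 1) := by
      conv_lhs => rw [← Finset.univ_sum_single c]
      rw [map_sum]
      refine Finset.sum_congr rfl fun k _ => ?_
      have : (Pi.single k (c k) : Fin r → ℝ) = c k • Pi.single k 1 := by
        rw [← Pi.single_smul]; simp
      rw [this, map_smul]
    rw [h1]
    ext i
    simp only [Matrix.mulVec, dotProduct, U, Matrix.of_apply, Submodule.coe_sum,
      Submodule.coe_smul, Finset.sum_apply, Pi.smul_apply, smul_eq_mul]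
    exact Finset.sum_congr rfl fun k _ => mul_comm _ _
  refine ⟨U, fun hdet => ?_⟩
  obtain ⟨y, hy0, hy⟩ := Matrix.exists_mulVec_eq_zero_iff.2 hdet
  rw [Matrix.add_mulVec, ← Matrix.mulVec_mulVec] at hy
  have hker : ∀ u : n → ℝ, M *ᵥ u = 0 → u ⬝ᵥ (M *ᵥ y) = 0 := by
    intro u hu
    rw [Matrix.dotProduct_mulVec, ← Matrix.mulVec_transpose, hM, hu, zero_dotProduct]
  set c := Uᵀ *ᵥ y with hc
  have h1 : M *ᵥ (U *ᵥ c) = 0 := by
    rw [hU]
    exact (f c).2
  have h2 := hker _ h1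
  have h3 : U *ᵥ c = - (M *ᵥ y) := by
    rw [eq_neg_iff_add_eq_zero, add_comm]; exact hy
  have h4 : (U *ᵥ c) ⬝ᵥ (U *ᵥ c) = 0 := by
    conv_lhs => rw [h3]
    rw [neg_dotProduct, dotProduct_neg, neg_neg]
    have h5 : M *ᵥ y = - (U *ᵥ c) := by rw [h3, neg_neg]
    conv_lhs => arg 1; rw [h5]
    rw [neg_dotProduct, h2, neg_zero]
  have h5 : U *ᵥ c = 0 := dotProduct_self_eq_zero.1 h4
  have h6 : M *ᵥ y = 0 := by
    rw [h5, add_zero] at hy; exact hy
  obtain ⟨c', hc'⟩ := hf ⟨y, h6⟩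
  have h7 : y = U *ᵥ c' := by
    rw [hU, hc']
  have h8 : c ⬝ᵥ c = 0 := by
    rw [hc]
    conv_lhs => arg 1; rw [← hc]
    rw [Matrix.dotProduct_mulVec, Matrix.vecMul_transpose, h5, zero_dotProduct]
  have h9 : c = 0 := dotProduct_self_eq_zero.1 h8
  have h10 : y ⬝ᵥ y = 0 := by
    conv_lhs => arg 2; rw [h7]
    rw [Matrix.dotProduct_mulVec, ← Matrix.mulVec_transpose, ← hc, h9, zero_dotProduct]
  exact hy0 (dotProduct_self_eq_zero.1 h10)

theorem nullity_of_det {n : Type*} [Fintype n] [DecidableEq n] {M : Matrix n n ℝ} {r : ℕ}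
    {U : Matrix n (Fin r) ℝ} (h : (M + U * Uᵀ).det ≠ 0) :
    Module.finrank ℝ (LinearMap.ker M.mulVecLin) ≤ r := by
  have h1 : Function.Injective ((Uᵀ.mulVecLin).domRestrict (LinearMap.ker M.mulVecLin)) := by
    rw [injective_iff_map_eq_zero]
    rintro ⟨y, hy⟩ h0
    have h2 : M *ᵥ y = 0 := hy
    have h3 : Uᵀ *ᵥ y = 0 := h0
    have h4 : (M + U * Uᵀ) *ᵥ y = 0 := by
      rw [Matrix.add_mulVec, h2, ← Matrix.mulVec_mulVec, h3, Matrix.mulVec_zero, add_zero]
    exact Subtype.ext (Matrix.eq_zero_of_mulVec_eq_zero h h4)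
  have h2 := LinearMap.finrank_le_finrank_of_injective h1
  simpa using h2

variable {V : Type*} {d : ℕ} [Fintype V]

/-- The energy form of weights `ω`. -/
def en (ω : V → V → ℝ) (y z : V → ℝ) : ℝ := ∑ i, ∑ j, ω i j * ((y i - y j) * (z i - z j))

theorem en_symm (ω : V → V → ℝ) (y z : V → ℝ) : en ω y z = en ω z y := by
  unfold en
  exact Finset.sum_congr rfl fun i _ => Finset.sum_congr rfl fun j _ => by ring

theorem en_add (ω : V → V → ℝ) (y z z' : V → ℝ) : en ω y (z + z') = en ω y z + en ω y z' := by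
  unfold en
  rw [← Finset.sum_add_distrib]
  refine Finset.sum_congr rfl fun i _ => ?_
  rw [← Finset.sum_add_distrib]
  exact Finset.sum_congr rfl fun j _ => by simp only [Pi.add_apply]; ring

theorem en_smul (ω : V → V → ℝ) (y z : V → ℝ) (c : ℝ) : en ω y (c • z) = c * en ω y z := by
  unfold en
  rw [Finset.mul_sum]
  refine Finset.sum_congr rfl fun i _ => ?_
  rw [Finset.mul_sum]
  exact Finset.sum_congr rfl fun j _ => by simp only [Pi.smul_apply, smul_eq_mul]; ring

theorem en_add_left (ω : V → V → ℝ) (y y' z : V → ℝ) : en ω (y + y') z = en ω y z + en ω y' z := by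
  rw [en_symm, en_add, en_symm, en_symm ω z y']

theorem en_smul_left (ω : V → V → ℝ) (y z : V → ℝ) (c : ℝ) : en ω (c • y) z = c * en ω y z := by
  rw [en_symm, en_smul, en_symm]

theorem en_sum {κ : Type*} (ω : V → V → ℝ) (y : V → ℝ) (s : Finset κ) (z : κ → V → ℝ) :
    en ω y (∑ k ∈ s, z k) = ∑ k ∈ s, en ω y (z k) := by
  classical
  induction s using Finset.induction_on with
  | empty => simp [en]
  | insert a s ha ih => rw [Finset.sum_insert ha, Finset.sum_insert ha, en_add, ih]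

theorem en_const (ω : V → V → ℝ) (y : V → ℝ) (c : ℝ) : en ω y (fun _ => c) = 0 := by
  simp [en]

theorem en_add_w (ω ω' : V → V → ℝ) (y z : V → ℝ) : en (ω + ω') y z = en ω y z + en ω' y z := by
  unfold en
  rw [← Finset.sum_add_distrib]
  refine Finset.sum_congr rfl fun i _ => ?_
  rw [← Finset.sum_add_distrib]
  exact Finset.sum_congr rfl fun j _ => by simp only [Pi.add_apply]; ring

theorem en_smul_w (ω : V → V → ℝ) (y z : V → ℝ) (c : ℝ) : en (c • ω) y z = c * en ω y z := by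
  unfold en
  rw [Finset.mul_sum]
  refine Finset.sum_congr rfl fun i _ => ?_
  rw [Finset.mul_sum]
  exact Finset.sum_congr rfl fun j _ => by simp only [Pi.smul_apply, smul_eq_mul]; ring

/-- The kernel of the energy form. -/
def Ker (ω : V → V → ℝ) : Submodule ℝ (V → ℝ) where
  carrier := {y | ∀ z, en ω y z = 0}
  add_mem' := by
    intro y y' h h' z
    rw [en_add_left, h z, h' z, add_zero]
  zero_mem' := by
    intro z
    simp [en]
  smul_mem' := by
    intro c y h z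
    rw [en_smul_left, h z, mul_zero]

theorem mem_Ker {ω : V → V → ℝ} {y : V → ℝ} : y ∈ Ker ω ↔ ∀ z, en ω y z = 0 := Iff.rfl

theorem const_mem_Ker (ω : V → V → ℝ) (c : ℝ) : (fun _ => c) ∈ Ker ω := by
  intro z
  rw [en_symm, en_const]

/-- Equilibrium stresses of `(G, p)`. -/
def Str (G : SimpleGraph V) (p : Conf d V) (ω : V → V → ℝ) : Prop :=
  (∀ i j, ¬ G.Adj i j → ω i j = 0) ∧ ∀ a, (fun i => p i a) ∈ Ker ω

theorem sum_fl (ω : V → V → ℝ) (p m : Conf d V) :
    ∑ i, ∑ j, ω i j * fl p m i j = ∑ a, en ω (fun i => p i a) (fun i => m i a) := by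
  unfold fl en
  simp only [Finset.mul_sum]
  rw [Finset.sum_comm' (t' := Finset.univ) (s' := fun _ => Finset.univ) (by simp)]
  conv_rhs => rw [Finset.sum_comm]
  rw [Finset.sum_comm]
  refine Finset.sum_congr rfl fun i _ => ?_
  rw [Finset.sum_comm]

theorem Str.sum_fl {G : SimpleGraph V} {p : Conf d V} {ω : V → V → ℝ} (h : Str G p ω)
    (m : Conf d V) : ∑ i, ∑ j, ω i j * fl p m i j = 0 := by
  rw [VS.sum_fl]
  exact Finset.sum_eq_zero fun a _ => h.2 a _

theorem Str.affine {G : SimpleGraph V} {p : Conf d V} {ω : V → V → ℝ} (h : Str G p ω)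
    (a : Fin d → ℝ) (b : ℝ) : (fun i => a ⬝ᵥ p i + b) ∈ Ker ω := by
  have h1 : (fun i => a ⬝ᵥ p i + b) = (∑ k, a k • (fun i => p i k)) + (fun _ => b) := by
    ext i
    simp [dotProduct]
  rw [h1]
  exact (Ker ω).add_mem ((Ker ω).sum_mem fun k _ => (Ker ω).smul_mem _ (h.2 k))
    (const_mem_Ker _ _)

end Pool.Agent.H135R2.VS
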