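import Pool.Agent.H135R2.VS.Coin

set_option autoImplicit false
set_option linter.unusedSectionVars false

/-! # Families of quadratic forms over a countable field: an algebraic fold theorem -/

namespace Pool.Agent.H135R2.VS

open Set Matrix MvPolynomial

theorem surj_of_dual {E n : Type*} [AddCommGroup E] [Module ℝ E] [Fintype n]
    {L : E →ₗ[ℝ] (n → ℝ)} (h : ∀ σ : n → ℝ, (∀ y, σ ⬝ᵥ L y = 0) → σ = 0) :
    Function.Surjective L := by
  classical
  rw [← LinearMap.range_eq_top]
  by_contra hne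
  obtain ⟨f, hf0, hf⟩ := Submodule.exists_le_ker_of_lt_top _ (lt_top_iff_ne_top.2 hne)
  let a : n → ℝ := fun k => f (Pi.single k 1)
  have hfa : ∀ x : n → ℝ, f x = a ⬝ᵥ x := by
    intro x
    conv_lhs => rw [← Finset.univ_sum_single x]
    rw [map_sum]
    refine Finset.sum_congr rfl fun k _ => ?_
    have : (Pi.single k (x k) : n → ℝ) = x k • Pi.single k 1 := by
      rw [← Pi.single_smul]; simp
    rw [this, map_smul, smul_eq_mul, mul_comm]
  have ha : a = 0 := by
    apply h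
    intro y
    rw [← hfa]
    exact hf ⟨y, rfl⟩
  apply hf0
  ext x
  simp only [LinearMap.comp_apply, LinearMap.zero_apply]
  rw [hfa, ha, zero_dotProduct]

theorem der_sum_apply {κ : Type*} (s : Finset κ) (D : κ → Derivation ℚ ℝ ℝ) (x : ℝ) :
    (∑ i ∈ s, D i) x = ∑ i ∈ s, D i x := by
  classical
  induction s using Finset.induction_on with
  | empty => simp
  | insert a s ha ih => rw [Finset.sum_insert ha, Finset.sum_insert ha, Derivation.add_apply, ih]

section basics

variable {ι F : Type*} [Fintype ι] [Fintype F]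

/-- A family of bilinear forms. -/
def Bq (A : F → Matrix ι ι ℝ) (x y : ι → ℝ) : F → ℝ := fun e => x ⬝ᵥ (A e *ᵥ y)

variable (A : F → Matrix ι ι ℝ)

theorem Bq_add (x y z : ι → ℝ) : Bq A x (y + z) = Bq A x y + Bq A x z := by
  ext e; simp [Bq, Matrix.mulVec_add, dotProduct_add]

theorem Bq_smul (x y : ι → ℝ) (c : ℝ) : Bq A x (c • y) = c • Bq A x y := by
  ext e; simp [Bq, Matrix.mulVec_smul, dotProduct_smul]

theorem Bq_add_left (x y z : ι → ℝ) : Bq A (x + y) z = Bq A x z + Bq A y z := by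
  ext e; simp [Bq, add_dotProduct]

theorem Bq_smul_left (x y : ι → ℝ) (c : ℝ) : Bq A (c • x) y = c • Bq A x y := by
  ext e; simp [Bq, smul_dotProduct]

variable {A}

theorem Bq_comm (hs : ∀ e, (A e)ᵀ = A e) (x y : ι → ℝ) : Bq A x y = Bq A y x := by
  ext e
  unfold Bq
  rw [Matrix.dotProduct_mulVec, ← Matrix.mulVec_transpose, hs, dotProduct_comm]

variable (A)

/-- The linearisation. -/
def BL (x : ι → ℝ) : (ι → ℝ) →ₗ[ℝ] (F → ℝ) where
  toFun y := Bq A x y
  map_add' := Bq_add A x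
  map_smul' c y := Bq_smul A x y c

theorem Bq_sum {κ : Type*} (x : ι → ℝ) (s : Finset κ) (y : κ → ι → ℝ) :
    Bq A x (∑ k ∈ s, y k) = ∑ k ∈ s, Bq A x (y k) :=
  map_sum (BL A x) y s

/-- Regular points. -/
def Reg (x : ι → ℝ) : Prop := ∀ σ : F → ℝ, (∀ y, σ ⬝ᵥ Bq A x y = 0) → σ = 0

variable {A}

theorem Reg.surj {x : ι → ℝ} (h : Reg A x) : Function.Surjective (BL A x) :=
  surj_of_dual h

theorem Reg.of_surj [DecidableEq F] {x : ι → ℝ} (h : Function.Surjective (BL A x)) : Reg A x := by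
  intro σ hσ
  obtain ⟨y, hy⟩ := h σ
  have := hσ y
  change σ ⬝ᵥ BL A x y = 0 at this
  rw [hy] at this
  exact dotProduct_self_eq_zero.1 this

variable {K : SF}

theorem der_Bq (hA : ∀ e i j, A e i j ∈ K) {D : Derivation ℚ ℝ ℝ} (hD : Van K D) (x y : ι → ℝ)
    (e : F) : D (Bq A x y e) = Bq A (dv D x) y e + Bq A x (dv D y) e := by
  unfold Bq
  rw [der_dot, dv_mulVec]
  have : (A e).map D = 0 := by
    ext i j
    simp only [Matrix.map_apply, Matrix.zero_apply]
    exact hD _ (hA e i j)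
  rw [this, Matrix.zero_mulVec, zero_add]

/-- The matrix of rows. -/
noncomputable def rowM (A : F → Matrix ι ι ℝ) (hA : ∀ e i j, A e i j ∈ K) :
    Matrix F ι (MvPolynomial ι K) :=
  Matrix.of fun e j => ∑ i, X i * C (⟨A e i j, hA e i j⟩ : K)

theorem evm_rowM (hA : ∀ e i j, A e i j ∈ K) (x : ι → ℝ) (e : F) (y : ι → ℝ) :
    (evm (rowM A hA) x) e ⬝ᵥ y = Bq A x y e := by
  simp only [dotProduct, evm, Matrix.map_apply, rowM, Matrix.of_apply, map_sum, map_mul, aeval_X,
    aeval_C, Bq, Matrix.mulVec, Finset.sum_mul, Finset.mul_sum]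
  rw [Finset.sum_comm]
  refine Finset.sum_congr rfl fun i _ => Finset.sum_congr rfl fun j _ => ?_
  change x i * A e i j * y j = _
  ring

theorem Reg_iff (hA : ∀ e i j, A e i j ∈ K) (x : ι → ℝ) :
    Reg A x ↔ LinearIndependent ℝ fun e => (evm (rowM A hA) x) e := by
  have key : ∀ (σ : F → ℝ) y, (∑ e, σ e • (evm (rowM A hA) x) e) ⬝ᵥ y = σ ⬝ᵥ Bq A x y := by
    intro σ y
    rw [sum_dotProduct]
    simp only [smul_dotProduct, evm_rowM, smul_eq_mul]
    rfl
  rw [Fintype.linearIndependent_iff]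
  constructor
  · intro h σ hσ e
    rw [h σ (fun y => by rw [← key, hσ, zero_dotProduct])]
    rfl
  · intro h σ hσ
    ext e
    refine h σ ?_ e
    have h1 : (∑ e, σ e • (evm (rowM A hA) x) e) ⬝ᵥ (∑ e, σ e • (evm (rowM A hA) x) e) = 0 := by
      rw [key, hσ]
    exact dotProduct_self_eq_zero.1 h1

theorem Reg.generic (hA : ∀ e i j, A e i j ∈ K) {x' x : ι → ℝ} (h : Reg A x')
    (hx : AlgebraicIndependent K x) : Reg A x := by
  rw [Reg_iff hA] at h ⊢
  exact rows_ind (rowM A hA) id hx h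

theorem Reg.algInd (hA : ∀ e i j, A e i j ∈ K) (hs : ∀ e, (A e)ᵀ = A e) {x : ι → ℝ} (h : Reg A x)
    (hx : AlgebraicIndependent K x) : AlgebraicIndependent K (Bq A x x) := by
  apply algInd_of_derK
  intro v
  obtain ⟨m, hm⟩ := h.surj ((1 / 2 : ℝ) • v)
  obtain ⟨D, hD, hDx⟩ := exists_derK hx m
  refine ⟨D, hD, fun e => ?_⟩
  rw [der_Bq hA hD]
  have h1 : dv D x = m := funext hDx
  rw [h1, Bq_comm hs m x]
  have h2 : Bq A x m e = (1 / 2 : ℝ) * v e := congrFun hm e
  rw [h2]; ring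

end basics

section fold

variable {ι F : Type*} [Fintype ι] [Fintype F] [DecidableEq ι] [DecidableEq F]
  {A : F → Matrix ι ι ℝ} {K : SF}

/-- The hypotheses of the fold theorem. -/
structure Fold (A : F → Matrix ι ι ℝ) (K : SF) (c : ι → ℝ) (e₀ : F) : Prop where
  hA : ∀ e i j, A e i j ∈ K
  hs : ∀ e, (A e)ᵀ = A e
  ind : AlgebraicIndependent K (fun e : {e // e ≠ e₀} => Bq A c c e)

variable {c : ι → ℝ} {e₀ : F}

theorem Fold.ex_der (h : Fold A K c e₀) (v : F → ℝ) : ∃ D : Derivation ℚ ℝ ℝ, Van K D ∧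
    ∀ e, e ≠ e₀ → Bq A c (dv D c) e = v e := by
  obtain ⟨D, hD, hDv⟩ := exists_derK h.ind (fun e => 2 * v e)
  refine ⟨D, hD, fun e he => ?_⟩
  have h1 := hDv ⟨e, he⟩
  simp only at h1
  rw [der_Bq h.hA hD, Bq_comm h.hs (dv D c) c] at h1
  linarith

theorem Fold.sigma_ne (h : Fold A K c e₀) {σ : F → ℝ} (hσ : ∀ y, σ ⬝ᵥ Bq A c y = 0)
    (h0 : σ e₀ = 0) : σ = 0 := by
  obtain ⟨D, hD, hDv⟩ := h.ex_der σ
  have h1 := hσ (dv D c)
  have h2 : σ ⬝ᵥ Bq A c (dv D c) = σ ⬝ᵥ σ := by
    refine Finset.sum_congr rfl fun e _ => ?_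
    by_cases he : e = e₀
    · rw [he, h0, zero_mul, zero_mul]
    · rw [hDv e he]
  rw [h2] at h1
  exact dotProduct_self_eq_zero.1 h1

/-- Decomposition of the space. -/
theorem Fold.decomp (h : Fold A K c e₀) {σ : F → ℝ} (hσ : ∀ y, σ ⬝ᵥ Bq A c y = 0)
    (h0 : σ e₀ ≠ 0) (w : ι → ℝ) : ∃ D : Derivation ℚ ℝ ℝ, Van K D ∧
    Bq A c (w - dv D c) = 0 := by
  obtain ⟨D, hD, hDv⟩ := h.ex_der (Bq A c w)
  refine ⟨D, hD, ?_⟩
  have h1 : ∀ e, e ≠ e₀ → Bq A c (w - dv D c) e = 0 := by
    intro e he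
    have : w - dv D c = w + (-1 : ℝ) • dv D c := by rw [neg_one_smul, sub_eq_add_neg]
    rw [this, Bq_add, Bq_smul]
    simp only [Pi.add_apply, Pi.smul_apply, smul_eq_mul]
    rw [hDv e he]; ring
  have h2 := hσ (w - dv D c)
  have h3 : σ ⬝ᵥ Bq A c (w - dv D c) = σ e₀ * Bq A c (w - dv D c) e₀ := by
    rw [dotProduct, Finset.sum_eq_single e₀]
    · intro e _ he
      rw [h1 e he, mul_zero]
    · intro he; exact absurd (Finset.mem_univ _) he
  rw [h3] at h2
  ext e
  by_cases he : e = e₀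
  · rw [he]
    exact (mul_eq_zero.1 h2).resolve_left h0
  · exact h1 e he

theorem Fold.perp (h : Fold A K c e₀) {σ : F → ℝ} (hσ : ∀ y, σ ⬝ᵥ Bq A c y = 0)
    {D : Derivation ℚ ℝ ℝ} (hD : Van K D) {m : ι → ℝ} (hm : Bq A c m = 0) :
    σ ⬝ᵥ Bq A (dv D c) m = 0 := by
  have h1 : ∀ j : ι, dv D σ ⬝ᵥ Bq A c (Pi.single j 1) + σ ⬝ᵥ Bq A (dv D c) (Pi.single j 1) = 0 := by
    intro j
    have h2 := congrArg D (hσ (Pi.single j 1))
    rw [map_zero, der_dot] at h2
    rw [← h2]
    congr 2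
    funext e
    rw [dv, der_Bq h.hA hD]
    have h3 : dv D (Pi.single j 1 : ι → ℝ) = 0 := by
      ext i
      simp only [dv, Pi.zero_apply]
      by_cases hij : i = j
      · subst hij; simp
      · rw [Pi.single_eq_of_ne hij, map_zero]
    rw [h3]
    have h4 : Bq A c 0 e = 0 := by
      simp [Bq]
    rw [h4, add_zero]
  have h2 : dv D σ ⬝ᵥ Bq A c m + σ ⬝ᵥ Bq A (dv D c) m = 0 := by
    have hmm : m = ∑ j, m j • (Pi.single j 1 : ι → ℝ) := by
      conv_lhs => rw [← Finset.univ_sum_single m]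
      refine Finset.sum_congr rfl fun k _ => ?_
      rw [← Pi.single_smul]; simp
    rw [hmm, Bq_sum, Bq_sum, dotProduct_sum, dotProduct_sum, ← Finset.sum_add_distrib]
    refine Finset.sum_eq_zero fun j _ => ?_
    rw [Bq_smul, Bq_smul, dotProduct_smul, dotProduct_smul, ← smul_add, h1, smul_zero]
  rw [hm, dotProduct_zero, zero_add] at h2
  exact h2

/-- Generic points near `c` in the direction of the kernel. -/
theorem Fold.generic_near [Countable K] (h : Fold A K c e₀) {σ : F → ℝ}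
    (hσ : ∀ y, σ ⬝ᵥ Bq A c y = 0) (h0 : σ e₀ ≠ 0) :
    ∃ m, Bq A c m = 0 ∧ AlgebraicIndependent K (c + m) := by
  -- the field of definition of `c`
  let K₁ : SF := adj K (range c)
  have hK₁ : Countable K₁ := countable_adj (countable_range c)
  have hcK : ∀ i, c i ∈ K₁ := fun i => mem_adj K ⟨i, rfl⟩
  have hKK : K ≤ K₁ := le_adj K _
  -- a rational basis of the kernel
  let M : Matrix F ι ℝ := Matrix.of fun e j => ∑ i, c i * A e i j
  have hMK : ∀ e j, M e j ∈ K₁ := fun e j =>
    sum_mem fun i _ => mul_mem (hcK i) (hKK (h.hA e i j))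
  have hM : ∀ y, M *ᵥ y = Bq A c y := by
    intro y
    ext e
    simp only [M, Matrix.mulVec, dotProduct, Matrix.of_apply, Bq, Finset.sum_mul, Finset.mul_sum]
    rw [Finset.sum_comm]
    refine Finset.sum_congr rfl fun i _ => Finset.sum_congr rfl fun j _ => by ring
  obtain ⟨r, w, hwind, hwK, hwspan⟩ := exists_rat_basis (K := K₁) (LinearMap.ker M.mulVecLin) (by
    intro x hx
    exact ker_rational M hMK hx)
  have hwker : ∀ l, Bq A c (w l) = 0 := by
    intro l
    rw [← hM]
    have : w l ∈ LinearMap.ker M.mulVecLin := by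
      rw [← hwspan]; exact Submodule.subset_span ⟨l, rfl⟩
    exact this
  -- the derivations
  choose D hD hDn using fun i : ι => h.decomp hσ h0 (Pi.single i 1)
  have hν : ∀ i, ∃ ν : Fin r → ℝ, ∑ l, ν l • w l = (Pi.single i 1 : ι → ℝ) - dv (D i) c := by
    intro i
    have h1 : (Pi.single i 1 : ι → ℝ) - dv (D i) c ∈ Submodule.span ℝ (range w) := by
      rw [hwspan]
      change M *ᵥ _ = 0
      rw [hM, hDn]
    exact (Submodule.mem_span_range_iff_exists_fun ℝ).1 h1
  choose ν hν using hν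
  -- the matrix
  let P : (Fin r → ℝ) → Matrix ι ι ℝ := fun t => Matrix.of fun i j =>
    (1 : Matrix ι ι ℝ) i j + ∑ l, t l * D i (w l j)
  have hPc : Continuous fun t => (P t).det := by
    refine Continuous.matrix_det ?_
    refine continuous_matrix fun i j => ?_
    simp only [P, Matrix.of_apply]
    fun_prop
  have hP0 : (P 0).det = 1 := by
    have : P 0 = 1 := by
      ext i j
      simp [P]
    rw [this, Matrix.det_one]
  have hopen : IsOpen {t | (P t).det ≠ 0} := isOpen_ne_fun hPc continuous_const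
  obtain ⟨t, htP, ht⟩ := exists_algInd (ι := Fin r) (K := K₁) hopen ⟨0, by
    change (P 0).det ≠ 0
    rw [hP0]; exact one_ne_zero⟩
  refine ⟨∑ l, t l • w l, ?_, ?_⟩
  · rw [Bq_sum]
    refine Finset.sum_eq_zero fun l _ => ?_
    rw [Bq_smul, hwker, smul_zero]
  apply algInd_of_derK
  intro v
  choose D' hD' hDt using fun i : ι => exists_derK ht (fun l => ν i l - D i (t l))
  -- solve the linear system
  obtain ⟨lam, hlam⟩ : ∃ lam : ι → ℝ, lam ᵥ* P t = v := by
    have hu : IsUnit (P t) := (Matrix.isUnit_iff_isUnit_det _).2 (isUnit_iff_ne_zero.2 htP)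
    exact Matrix.vecMul_surjective_iff_isUnit.2 hu v
  refine ⟨∑ i, lam i • (D i + D' i), ?_, ?_⟩
  · intro k hk
    rw [der_sum_apply]
    refine Finset.sum_eq_zero fun i _ => ?_
    rw [Derivation.smul_apply, Derivation.add_apply, hD i k hk, hD' i k (hKK hk), add_zero,
      smul_zero]
  · intro j
    rw [der_sum_apply]
    have h1 : ∀ i, (D i + D' i) ((c + ∑ l, t l • w l) j) = P t i j := by
      intro i
      have h2 : (c + ∑ l, t l • w l) j = c j + ∑ l, t l * w l j := by
        simp [Finset.sum_apply]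
      rw [h2, Derivation.add_apply, map_add, map_add, hD' i _ (hcK j), map_sum, map_sum]
      simp only [Derivation.leibniz, smul_eq_mul]
      have h3 : ∀ l, D' i (w l j) = 0 := fun l => hD' i _ (hwK l j)
      simp only [h3, hDt, mul_zero, zero_add]
      have h4 := congrFun (hν i) j
      simp only [Finset.sum_apply, Pi.smul_apply, smul_eq_mul, Pi.sub_apply, dv] at h4
      have h5 : (Pi.single i 1 : ι → ℝ) j = (1 : Matrix ι ι ℝ) i j := by
        rw [Matrix.one_apply, Pi.single_apply]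
        by_cases hij : i = j
        · rw [if_pos hij, if_pos hij.symm]
        · rw [if_neg hij, if_neg (Ne.symm hij)]
      rw [h5] at h4
      simp only [P, Matrix.of_apply]
      have h6 : ∑ l, (t l * D i (w l j) + w l j * D i (t l)) + ∑ l, w l j * (ν i l - D i (t l)) =
          ∑ l, t l * D i (w l j) + ∑ l, ν i l * w l j := by
        rw [← Finset.sum_add_distrib, ← Finset.sum_add_distrib]
        exact Finset.sum_congr rfl fun l _ => by ring
      have h7 : D i (c j) = (1 : Matrix ι ι ℝ) i j - ∑ l, ν i l * w l j := by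
        rw [h4]; ring
      rw [h7]
      linarith
    have h2 := congrFun hlam j
    rw [← h2]
    simp only [Matrix.vecMul, dotProduct]
    refine Finset.sum_congr rfl fun i _ => ?_
    rw [Derivation.smul_apply, h1, smul_eq_mul]

/-- **The fold theorem.** -/
theorem Fold.main [Countable K] (h : Fold A K c e₀) (hgen : ∀ x, AlgebraicIndependent K x → Reg A x)
    {σ : F → ℝ} (hσ : ∀ y, σ ⬝ᵥ Bq A c y = 0) (h0 : σ e₀ ≠ 0) :
    ∃ m, Bq A c m = 0 ∧ σ ⬝ᵥ Bq A m m ≠ 0 := by
  by_contra hcon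
  push Not at hcon
  have hpol : ∀ m m', Bq A c m = 0 → Bq A c m' = 0 → σ ⬝ᵥ Bq A m m' = 0 := by
    intro m m' hm hm'
    have h1 := hcon (m + m') (by rw [Bq_add, hm, hm', add_zero])
    rw [Bq_add, Bq_add_left, Bq_add_left, dotProduct_add, dotProduct_add, dotProduct_add,
      hcon m hm, hcon m' hm', Bq_comm h.hs m' m] at h1
    linarith
  have hall : ∀ m w, Bq A c m = 0 → σ ⬝ᵥ Bq A m w = 0 := by
    intro m w hm
    obtain ⟨D, hD, hDw⟩ := h.decomp hσ h0 w
    have h1 := hpol m (w - dv D c) hm hDw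
    have h2 := h.perp hσ hD hm
    rw [Bq_comm h.hs (dv D c) m] at h2
    have h3 : w = (w - dv D c) + dv D c := by abel
    rw [h3, Bq_add, dotProduct_add, h1, h2, add_zero]
  obtain ⟨m, hm, hx⟩ := h.generic_near hσ h0
  have h1 := hgen _ hx σ (fun y => by
    rw [Bq_add_left, dotProduct_add, hσ, hall m y hm, add_zero])
  exact h0 (by rw [h1]; rfl)

/-- Points near `c` on the line through `c` with direction `m` are regular. -/
theorem Fold.reg_near (h : Fold A K c e₀) {σ : F → ℝ} (hσ : ∀ y, σ ⬝ᵥ Bq A c y = 0)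
    {m : ι → ℝ} (hm : Bq A c m = 0) (hmm : σ ⬝ᵥ Bq A m m ≠ 0) :
    ∃ t : ℝ, t ≠ 0 ∧ Reg A (c + t • m) := by
  -- the extended matrix
  let R : ℝ → F → (Option ι → ℝ) := fun t e j => match j with
    | none => Bq A m m e
    | some j => Bq A (c + t • m) (Pi.single j 1) e
  have hR : ∀ t (σ' : F → ℝ), ∑ e, σ' e • R t e = 0 ↔
      (σ' ⬝ᵥ Bq A m m = 0 ∧ ∀ y, σ' ⬝ᵥ Bq A (c + t • m) y = 0) := by
    intro t σ'
    constructor
    · intro h1
      refine ⟨?_, ?_⟩
      · have := congrFun h1 none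
        simp only [Finset.sum_apply, Pi.smul_apply, smul_eq_mul, R, Pi.zero_apply] at this
        exact this
      · intro y
        have hy : y = ∑ j, y j • (Pi.single j 1 : ι → ℝ) := by
          conv_lhs => rw [← Finset.univ_sum_single y]
          refine Finset.sum_congr rfl fun k _ => ?_
          rw [← Pi.single_smul]; simp
        rw [hy, Bq_sum, dotProduct_sum]
        refine Finset.sum_eq_zero fun j _ => ?_
        rw [Bq_smul, dotProduct_smul]
        have := congrFun h1 (some j)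
        simp only [Finset.sum_apply, Pi.smul_apply, smul_eq_mul, R, Pi.zero_apply] at this
        have h2 : σ' ⬝ᵥ Bq A (c + t • m) (Pi.single j 1) = 0 := this
        rw [h2, smul_zero]
    · rintro ⟨h1, h2⟩
      ext j
      cases j with
      | none =>
        simp only [Finset.sum_apply, Pi.smul_apply, smul_eq_mul, R, Pi.zero_apply]
        exact h1
      | some j =>
        simp only [Finset.sum_apply, Pi.smul_apply, smul_eq_mul, R, Pi.zero_apply]
        exact h2 _
  have hcont : Continuous fun t => (Matrix.of fun j k => R t j ⬝ᵥ R t k).det := by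
    refine Continuous.matrix_det ?_
    refine continuous_matrix fun i j => ?_
    simp only [Matrix.of_apply, dotProduct]
    refine continuous_finsetSum _ fun k _ => ?_
    have : ∀ e k, Continuous fun t => R t e k := by
      intro e k
      cases k with
      | none => exact continuous_const
      | some k =>
        have : (fun t => R t e (some k)) =
            fun t => Bq A c (Pi.single k 1) e + t * Bq A m (Pi.single k 1) e := by
          funext t
          simp only [R]
          rw [Bq_add_left, Bq_smul_left]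
          rfl
        rw [this]
        fun_prop
    exact (this i k).mul (this j k)
  have h00 : (Matrix.of fun j k => R 0 j ⬝ᵥ R 0 k).det ≠ 0 := by
    rw [← gram_iff, Fintype.linearIndependent_iff]
    intro σ' hσ'
    obtain ⟨h1, h2⟩ := (hR 0 σ').1 hσ'
    have h3 : ∀ y, σ' ⬝ᵥ Bq A c y = 0 := by
      intro y
      have := h2 y
      rwa [zero_smul, add_zero] at this
    -- `σ'` is a multiple of `σ`
    have h4 : σ e₀ • σ' - σ' e₀ • σ = 0 := by
      apply h.sigma_ne
      · intro y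
        rw [sub_dotProduct, smul_dotProduct, smul_dotProduct, h3, hσ, smul_zero, smul_zero,
          sub_zero]
      · simp only [Pi.sub_apply, Pi.smul_apply, smul_eq_mul]; ring
    have h5 : σ' e₀ = 0 := by
      have h6 : (σ e₀ • σ' - σ' e₀ • σ) ⬝ᵥ Bq A m m = 0 := by rw [h4, zero_dotProduct]
      rw [sub_dotProduct, smul_dotProduct, smul_dotProduct, h1, smul_zero, zero_sub,
        neg_eq_zero, smul_eq_mul] at h6
      exact (mul_eq_zero.1 h6).resolve_right hmm
    intro e
    rw [h.sigma_ne h3 h5]; rfl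
  have hopen : IsOpen {t | (Matrix.of fun j k => R t j ⬝ᵥ R t k).det ≠ 0} :=
    isOpen_ne_fun hcont continuous_const
  have hev : ∀ᶠ t in nhds (0 : ℝ), (Matrix.of fun j k => R t j ⬝ᵥ R t k).det ≠ 0 :=
    hopen.mem_nhds h00
  obtain ⟨t, ht0, htd⟩ : ∃ t : ℝ, t ≠ 0 ∧ (Matrix.of fun j k => R t j ⬝ᵥ R t k).det ≠ 0 := by
    have h1 : ∀ᶠ t in nhdsWithin (0 : ℝ) {0}ᶜ, (Matrix.of fun j k => R t j ⬝ᵥ R t k).det ≠ 0 :=
      hev.filter_mono nhdsWithin_le_nhds
    have h2 : ∀ᶠ t in nhdsWithin (0 : ℝ) {0}ᶜ, t ∈ ({0}ᶜ : Set ℝ) := self_mem_nhdsWithin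
    obtain ⟨t, ht1, ht2⟩ := (h1.and h2).exists
    exact ⟨t, ht2, ht1⟩
  refine ⟨t, ht0, ?_⟩
  intro σ' hσ'
  rw [← gram_iff, Fintype.linearIndependent_iff] at htd
  ext e
  refine htd σ' ((hR t σ').2 ⟨?_, hσ'⟩) e
  have h1 := hσ' m
  rw [Bq_add_left, Bq_smul_left, hm, zero_add, dotProduct_smul, smul_eq_mul] at h1
  exact (mul_eq_zero.1 h1).resolve_left ht0

end fold

end Pool.Agent.H135R2.VS
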