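import Pool.Agent.H135R2.VS.Conn

set_option autoImplicit false
set_option linter.unusedSectionVars false

/-! # From coincident split frameworks to generic frameworks of the split graph -/

namespace Pool.Agent.H135R2.VS

open Set Matrix MvPolynomial

variable {V : Type*} {d : ℕ} [Fintype V] [DecidableEq V]

/-- The graph obtained by splitting `v`: the new vertex `none` gets the neighbours in `A ∪ C`, the
vertex `some v` keeps the neighbours in `B ∪ C`. -/
def splitG (H : SimpleGraph V) (v : V) (A B C : Set V) (hv : v ∉ B ∪ C) :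
    SimpleGraph (Option V) where
  Adj
    | none, none => False
    | none, some j => j = v ∨ j ∈ A ∪ C
    | some i, none => i = v ∨ i ∈ A ∪ C
    | some i, some j => (i ≠ v ∧ j ≠ v ∧ H.Adj i j) ∨ (i = v ∧ j ∈ B ∪ C) ∨ (j = v ∧ i ∈ B ∪ C)
  symm := ⟨by
    rintro (_ | i) (_ | j) h
    · exact h
    · exact h
    · exact h
    · rcases h with ⟨h1, h2, h3⟩ | h | h
      · exact Or.inl ⟨h2, h1, h3.symm⟩
      · exact Or.inr (Or.inr h)
      · exact Or.inr (Or.inl h)⟩
  loopless := ⟨by
    rintro (_ | i) h
    · exact h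
    · rcases h with ⟨_, _, h3⟩ | ⟨rfl, h⟩ | ⟨rfl, h⟩
      · exact H.loopless.irrefl _ h3
      · exact hv h
      · exact hv h⟩

section mats

variable (v : V)

/-- Variables: the positions of the old vertices, the direction of the bridging edge (stored at
`none`), and the parameter `ε`. -/
abbrev Var (d : ℕ) (V : Type*) := (Option V × Fin d) ⊕ Unit

/-- Polynomial configuration. -/
noncomputable def PX (K : SF) : Option V → Fin d → MvPolynomial (Var d V) K
  | some i, a => X (Sum.inl (some i, a))
  | none, a => X (Sum.inl (some v, a)) + X (Sum.inr ()) * X (Sum.inl (none, a))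

/-- The configuration of the split graph. -/
noncomputable def cf (x : Var d V → ℝ) : Conf d (Option V)
  | some i => fun a => x (Sum.inl (some i, a))
  | none => fun a => x (Sum.inl (some v, a)) + x (Sum.inr ()) * x (Sum.inl (none, a))

theorem aeval_PX (K : SF) (x : Var d V → ℝ) (w : Option V) (a : Fin d) :
    aeval x (PX v K w a) = cf v x w a := by
  cases w <;> simp [PX, cf]

/-- Differences; the direction of the bridging edge is special. -/
noncomputable def DX (K : SF) (e : Option V × Option V) (a : Fin d) : MvPolynomial (Var d V) K :=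
  if e = (none, some v) then X (Sum.inl (none, a)) else PX v K e.1 a - PX v K e.2 a

/-- Values of the differences. -/
noncomputable def df (x : Var d V → ℝ) (e : Option V × Option V) (a : Fin d) : ℝ :=
  if e = (none, some v) then x (Sum.inl (none, a)) else cf v x e.1 a - cf v x e.2 a

theorem aeval_DX (K : SF) (x : Var d V → ℝ) (e : Option V × Option V) (a : Fin d) :
    aeval x (DX v K e a) = df v x e a := by
  unfold DX df
  split_ifs
  · simp
  · rw [map_sub, aeval_PX, aeval_PX]

open Classical in
/-- The modified rigidity matrix. -/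
noncomputable def RX (K : SF) (G : SimpleGraph (Option V)) :
    Matrix (Option V × Option V) (Option V × Fin d) (MvPolynomial (Var d V) K) :=
  Matrix.of fun e c => if e ≠ (some v, none) ∧ G.Adj e.1 e.2 then
    (if c.1 = e.1 then DX v K e c.2 else 0) - (if c.1 = e.2 then DX v K e c.2 else 0) else 0

theorem evm_RX (K : SF) (G : SimpleGraph (Option V)) (x : Var d V → ℝ) (m : Conf d (Option V))
    (e : Option V × Option V) (he : e ≠ (some v, none)) (hG : G.Adj e.1 e.2) :
    (evm (RX v K G) x *ᵥ unc m) e = ∑ a, df v x e a * (m e.1 a - m e.2 a) := by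
  classical
  simp only [Matrix.mulVec, dotProduct, evm, Matrix.map_apply, RX, Matrix.of_apply,
    if_pos (show e ≠ (some v, none) ∧ G.Adj e.1 e.2 from ⟨he, hG⟩)]
  rw [Fintype.sum_prod_type]
  have h1 : ∀ k : Option V, ∑ a : Fin d, aeval x ((if k = e.1 then DX v K e a else 0) -
      (if k = e.2 then DX v K e a else 0)) * unc m (k, a) =
      (if k = e.1 then ∑ a, df v x e a * m k a else 0) -
        (if k = e.2 then ∑ a, df v x e a * m k a else 0) := by
    intro k
    by_cases hi : k = e.1
    · by_cases hj : k = e.2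
      · exact absurd (hi.symm.trans hj) hG.ne
      · have : e.1 ≠ e.2 := hG.ne
        simp only [if_pos hi, if_neg hj, sub_zero, aeval_DX]
        rfl
    · by_cases hj : k = e.2
      · simp only [if_neg hi, if_pos hj, zero_sub, map_neg, aeval_DX, neg_mul,
          Finset.sum_neg_distrib]
        rfl
      · simp [hi, hj]
  rw [Finset.sum_congr rfl fun k _ => h1 k, Finset.sum_sub_distrib, Finset.sum_ite_eq' Finset.univ e.1,
    Finset.sum_ite_eq' Finset.univ e.2, if_pos (Finset.mem_univ _), if_pos (Finset.mem_univ _),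
    ← Finset.sum_sub_distrib]
  refine Finset.sum_congr rfl fun a _ => ?_
  ring

theorem evm_RX_zero (K : SF) (G : SimpleGraph (Option V)) (x : Var d V → ℝ)
    (m : Option V × Fin d → ℝ) (e : Option V × Option V)
    (he : ¬ (e ≠ (some v, none) ∧ G.Adj e.1 e.2)) : (evm (RX v K G) x *ᵥ m) e = 0 := by
  simp only [Matrix.mulVec, dotProduct, evm, Matrix.map_apply, RX, Matrix.of_apply, if_neg he,
    map_zero, zero_mul, Finset.sum_const_zero]

/-- For generic parameters the modified rows are multiples of the usual ones. -/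
theorem eps_df (x : Var d V → ℝ) (a : Fin d) :
    cf v x none a - cf v x (some v) a = x (Sum.inr ()) * df v x (none, some v) a := by
  simp [cf, df]

theorem df_of_ne (x : Var d V → ℝ) {e : Option V × Option V} (he : e ≠ (none, some v))
    (a : Fin d) : df v x e a = cf v x e.1 a - cf v x e.2 a := by
  unfold df; rw [if_neg he]

end mats

/-- The space of infinitesimal isometries. -/
def Isom (d : ℕ) : Submodule ℝ (((Fin d → ℝ) →ₗ[ℝ] (Fin d → ℝ)) × (Fin d → ℝ)) where
  carrier := {S | ∀ x y, x ⬝ᵥ S.1 y = - (y ⬝ᵥ S.1 x)}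
  add_mem' := by
    intro S S' h h' x y
    simp only [Prod.fst_add, LinearMap.add_apply, dotProduct_add]
    rw [h x y, h' x y]; ring
  zero_mem' := by
    intro x y; simp
  smul_mem' := by
    intro c S h x y
    simp only [Prod.smul_fst, LinearMap.smul_apply, dotProduct_smul]
    rw [h x y, smul_neg]

/-- Trivial motions. -/
def triv {W : Type*} (p : Conf d W) : Isom d →ₗ[ℝ] (W × Fin d → ℝ) where
  toFun S := unc (fun i => S.1.1 (p i) + S.1.2)
  map_add' S S' := by
    ext ⟨i, a⟩
    simp only [unc, Submodule.coe_add, Prod.fst_add, Prod.snd_add, LinearMap.add_apply,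
      Pi.add_apply]
    ring
  map_smul' c S := by
    ext ⟨i, a⟩
    simp only [unc, Submodule.coe_smul, Prod.smul_fst, Prod.smul_snd, LinearMap.smul_apply,
      Pi.add_apply, Pi.smul_apply, smul_eq_mul, RingHom.id_apply]
    ring

theorem triv_inj {W : Type*} [Nonempty W] {p : Conf d W} (hp : AS p) :
    Function.Injective (triv p) := by
  rw [injective_iff_map_eq_zero]
  rintro ⟨⟨L, b⟩, hL⟩ h0
  have h1 : ∀ i, L (p i) + b = 0 := fun i => by
    ext a
    exact congrFun h0 (i, a)
  have h2 : ∀ e : Fin d → ℝ, ∀ x, e ⬝ᵥ L x = 0 := by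
    intro e
    let a : Fin d → ℝ := fun k => e ⬝ᵥ L (Pi.single k 1)
    have ha : ∀ x : Fin d → ℝ, a ⬝ᵥ x = e ⬝ᵥ L x := by
      intro x
      have hx : x = ∑ k, x k • (Pi.single k 1 : Fin d → ℝ) := by
        conv_lhs => rw [← Finset.univ_sum_single x]
        refine Finset.sum_congr rfl fun k _ => ?_
        rw [← Pi.single_smul]; simp
      conv_rhs => rw [hx]
      rw [map_sum, dotProduct_sum]
      refine Finset.sum_congr rfl fun k _ => ?_
      rw [map_smul, dotProduct_smul]
      simp only [a, smul_eq_mul]
      ring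
    have h3 := hp a (e ⬝ᵥ b) (fun i => by
      rw [ha, ← dotProduct_add, h1, dotProduct_zero])
    intro x
    rw [← ha, h3, zero_dotProduct]
  have hL0 : L = 0 := by
    ext x : 1
    refine LinearMap.ext fun y => ?_
    exact dotProduct_self_eq_zero.1 (h2 _ _)
  have hb : b = 0 := by
    obtain ⟨i⟩ := (inferInstance : Nonempty W)
    have := h1 i
    rw [hL0, LinearMap.zero_apply, zero_add] at this
    exact this
  apply Subtype.ext
  exact Prod.ext hL0 hb

section energy

variable {R : Type*} [CommRing R]

/-- Incidence. -/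
def dl (R : Type*) [CommRing R] (e : Option V × Option V) : Option (Option V) → R
  | none => 0
  | some w => (if w = e.1 then 1 else 0) - (if w = e.2 then 1 else 0)

/-- The extra coordinate. -/
def sgm (R : Type*) [CommRing R] : Option (Option V) → R
  | none => 1
  | some _ => 0

open Classical in
/-- The modified energy matrix, over any ring. -/
noncomputable def EM (R : Type*) [CommRing R] (G : SimpleGraph (Option V)) (v : V) (ε : R)
    (ω : Option V × Option V → R) : Matrix (Option (Option V)) (Option (Option V)) R :=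
  Matrix.of fun k l => ∑ e, if e ≠ (some v, none) ∧ G.Adj e.1 e.2 then ω e *
    (if e = (none, some v) then
      sgm R k * dl R e l + dl R e k * sgm R l - ε * sgm R k * sgm R l
      else dl R e k * dl R e l) else 0

theorem EM_map {S : Type*} [CommRing S] (f : R →+* S) (G : SimpleGraph (Option V)) (v : V) (ε : R)
    (ω : Option V × Option V → R) :
    (EM R G v ε ω).map f = EM S G v (f ε) (fun e => f (ω e)) := by
  classical
  have h1 : ∀ e (k : Option (Option V)), f (dl R e k) = dl S e k := by
    intro e k
    cases k with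
    | none => simp [dl]
    | some w =>
      simp only [dl, map_sub]
      congr 1 <;> split_ifs <;> simp
  have h2 : ∀ (k : Option (Option V)), f (sgm R k) = sgm S k := by
    intro k
    cases k <;> simp [sgm]
  ext k l
  simp only [Matrix.map_apply, EM, Matrix.of_apply, map_sum]
  refine Finset.sum_congr rfl fun e _ => ?_
  split_ifs
  · simp only [map_mul, map_sub, map_add, h1, h2]
  · simp only [map_mul, h1]
  · rw [map_zero]

open Classical in
/-- The modified energy form. -/
noncomputable def Qf (G : SimpleGraph (Option V)) (v : V) (ε : ℝ)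
    (ω : Option V × Option V → ℝ) (y : Option V → ℝ) (s : ℝ) (z : Option V → ℝ) (r : ℝ) : ℝ :=
  ∑ e, if e ≠ (some v, none) ∧ G.Adj e.1 e.2 then ω e *
    (if e = (none, some v) then
      r * (y none - y (some v)) + (z none - z (some v)) * s - ε * r * s
      else (y e.1 - y e.2) * (z e.1 - z e.2)) else 0

/-- Combining a function and a number. -/
def cmb (y : Option V → ℝ) (s : ℝ) : Option (Option V) → ℝ
  | none => s
  | some w => y w

theorem dl_dot (e : Option V × Option V) (y : Option V → ℝ) (s : ℝ) :
    ∑ k, dl ℝ e k * cmb y s k = y e.1 - y e.2 := by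
  rw [Fintype.sum_option]
  simp only [dl, cmb, zero_mul, zero_add, sub_mul, Finset.sum_sub_distrib, ite_mul, one_mul]
  rw [Finset.sum_ite_eq' Finset.univ e.1, Finset.sum_ite_eq' Finset.univ e.2]
  simp

theorem sgm_dot (y : Option V → ℝ) (s : ℝ) : ∑ k, sgm ℝ k * cmb y s k = s := by
  rw [Fintype.sum_option]
  simp [sgm, cmb]

theorem EM_form (G : SimpleGraph (Option V)) (v : V) (ε : ℝ) (ω : Option V × Option V → ℝ)
    (y : Option V → ℝ) (s : ℝ) (z : Option V → ℝ) (r : ℝ) :
    cmb z r ⬝ᵥ (EM ℝ G v ε ω *ᵥ cmb y s) = Qf G v ε ω y s z r := by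
  classical
  simp only [dotProduct, Matrix.mulVec, EM, Matrix.of_apply, Qf]
  simp only [Finset.sum_mul, Finset.mul_sum]
  -- reorder the sums
  have h1 : ∑ k : Option (Option V), ∑ l : Option (Option V), ∑ e : Option V × Option V,
      cmb z r k * ((if e ≠ (some v, none) ∧ G.Adj e.1 e.2 then ω e *
        (if e = (none, some v) then
          sgm ℝ k * dl ℝ e l + dl ℝ e k * sgm ℝ l - ε * sgm ℝ k * sgm ℝ l
          else dl ℝ e k * dl ℝ e l) else 0) * cmb y s l) =
      ∑ e : Option V × Option V, ∑ k : Option (Option V), ∑ l : Option (Option V),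
      cmb z r k * ((if e ≠ (some v, none) ∧ G.Adj e.1 e.2 then ω e *
        (if e = (none, some v) then
          sgm ℝ k * dl ℝ e l + dl ℝ e k * sgm ℝ l - ε * sgm ℝ k * sgm ℝ l
          else dl ℝ e k * dl ℝ e l) else 0) * cmb y s l) := by
    rw [Finset.sum_comm]
    conv_rhs => rw [Finset.sum_comm]
    conv_lhs => rw [Finset.sum_comm]
    refine Finset.sum_congr rfl fun k _ => ?_
    rw [Finset.sum_comm]
  rw [h1]
  refine Finset.sum_congr rfl fun e _ => ?_
  split_ifs with h2 h3
  · subst h3
    have e1 := dl_dot (none, some v) y s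
    have e2 := dl_dot (none, some v) z r
    have e3 := sgm_dot y s
    have e4 := sgm_dot z r
    simp only at e1 e2
    rw [← e1, ← e2]
    conv_rhs => rw [← e4]
    have h4 : ∀ k l : Option (Option V), cmb z r k * (ω (none, some v) *
        (sgm ℝ k * dl ℝ (none, some v) l + dl ℝ (none, some v) k * sgm ℝ l -
          ε * sgm ℝ k * sgm ℝ l) * cmb y s l) =
        ω (none, some v) * ((sgm ℝ k * cmb z r k) * (dl ℝ (none, some v) l * cmb y s l) +
          (dl ℝ (none, some v) k * cmb z r k) * (sgm ℝ l * cmb y s l) -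
          ε * (sgm ℝ k * cmb z r k) * (sgm ℝ l * cmb y s l)) := by
      intro k l; ring
    simp only [h4]
    simp only [← Finset.mul_sum, Finset.sum_add_distrib, Finset.sum_sub_distrib,
      ← Finset.sum_mul]
    rw [e3, e4]
  · have e1 := dl_dot e y s
    have e2 := dl_dot e z r
    rw [← e1, ← e2]
    have h4 : ∀ k l : Option (Option V), cmb z r k * (ω e * (dl ℝ e k * dl ℝ e l) * cmb y s l) =
        ω e * ((dl ℝ e k * cmb z r k) * (dl ℝ e l * cmb y s l)) := by
      intro k l; ring
    simp only [h4]
    simp only [← Finset.mul_sum, ← Finset.sum_mul]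
    ring
  · simp

theorem EM_symm (G : SimpleGraph (Option V)) (v : V) (ε : ℝ) (ω : Option V × Option V → ℝ) :
    (EM ℝ G v ε ω)ᵀ = EM ℝ G v ε ω := by
  classical
  ext k l
  simp only [Matrix.transpose_apply, EM, Matrix.of_apply]
  refine Finset.sum_congr rfl fun e _ => ?_
  split_ifs
  · ring
  · ring
  · rfl

theorem exists_cmb (Y : Option (Option V) → ℝ) : ∃ y s, Y = cmb y s :=
  ⟨fun w => Y (some w), Y none, by ext k; cases k <;> rfl⟩

theorem EM_ker (G : SimpleGraph (Option V)) (v : V) (ε : ℝ) (ω : Option V × Option V → ℝ)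
    (y : Option V → ℝ) (s : ℝ) :
    EM ℝ G v ε ω *ᵥ cmb y s = 0 ↔ ∀ z r, Qf G v ε ω y s z r = 0 := by
  constructor
  · intro h z r
    rw [← EM_form, h, dotProduct_zero]
  · intro h
    apply dotProduct_self_eq_zero.1
    obtain ⟨z, r, hzr⟩ := exists_cmb (EM ℝ G v ε ω *ᵥ cmb y s)
    conv_lhs => arg 1; rw [hzr]
    rw [EM_form, h]

end energy

end Pool.Agent.H135R2.VS
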