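import Pool.Agent.H135R2.VS.Trans

set_option autoImplicit false
set_option linter.unusedSectionVars false

namespace Pool.Agent.H135R2.VS

open Set Matrix MvPolynomial

variable {V : Type*} {d : ℕ} [Fintype V] [DecidableEq V]

theorem sum_OO (f : Option V × Option V → ℝ) : ∑ e, f e =
    f (none, none) + ∑ j, f (none, some j) + ∑ i, f (some i, none) + ∑ i, ∑ j, f (some i, some j) := by
  rw [Fintype.sum_prod_type, Fintype.sum_option, Fintype.sum_option]
  have : ∀ i : V, ∑ j : Option V, f (some i, j) = f (some i, none) + ∑ j, f (some i, some j) :=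
    fun i => Fintype.sum_option _
  rw [Finset.sum_congr rfl fun i _ => this i, Finset.sum_add_distrib]
  ring

section star

variable (H : SimpleGraph V) (p : Conf d V) (ω : V → V → ℝ) (v : V) (A B C : Finset V)

/-- The residual force. -/
noncomputable def Ff : Fin d → ℝ := ∑ w ∈ A, (ω v w + ω w v) • (p v - p w)

/-- The coincident parameter point. -/
noncomputable def xs : Var d V → ℝ :=
  Sum.elim (fun ia => match ia.1 with
    | some i => p i ia.2
    | none => - Ff p ω v A ia.2) (fun _ => 0)

/-- The lifted stress. -/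
noncomputable def ws : Option V × Option V → ℝ
  | (none, none) => 0
  | (none, some j) => if j = v then 1 else if j ∈ A then ω v j else 0
  | (some i, none) => if i ∈ A then ω i v else 0
  | (some i, some j) => if (i = v ∧ j ∈ A) ∨ (j = v ∧ i ∈ A) then 0 else ω i j

theorem cf_xs (w : Option V) : cf v (xs p ω v A) w = p (w.getD v) := by
  cases w with
  | none => ext a; simp [cf, xs]
  | some i => ext a; simp [cf, xs]

end star

variable {H : SimpleGraph V} {p : Conf d V} {ω : V → V → ℝ} {v : V} {A B C : Finset V}

theorem split_sum (hω : ∀ i j, ¬ H.Adj i j → ω i j = 0) (hvA : v ∉ A) (φ : Option V → Option V → ℝ)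
    (hφ : ∀ a b, φ a b = φ b a) (hφ0 : ∀ a, φ a a = 0) (hv : v ∉ (B : Set V) ∪ C)
    (hN : ∀ w, H.Adj v w → w ∈ A ∨ w ∈ B ∨ w ∈ C) :
    (∑ e : Option V × Option V, open Classical in
      if e ≠ (some v, none) ∧ (splitG H v A B C hv).Adj e.1 e.2 then
        ws ω v A e * φ e.1 e.2 else 0) =
    φ none (some v) + ∑ i, ∑ j, ω i j * φ (some i) (some j) +
      ∑ w ∈ A, (ω v w + ω w v) * (φ none (some w) - φ (some v) (some w)) := by
  classical
  rw [sum_OO]
  simp only
  have h0 : (if ((none : Option V), (none : Option V)) ≠ (some v, none) ∧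
      (splitG H v A B C hv).Adj (none : Option V) (none : Option V) then
        ws ω v A (none, none) * φ none none else 0) = 0 := by
    rw [if_neg]
    rintro ⟨-, h⟩
    exact (splitG H v A B C hv).loopless.irrefl _ h
  have h1 : ∀ j : V, (if ((none : Option V), some j) ≠ (some v, none) ∧
      (splitG H v A B C hv).Adj none (some j) then ws ω v A (none, some j) * φ none (some j) else 0)
      = (if j = v then φ none (some j) else 0) + (if j ∈ A then ω v j * φ none (some j) else 0) := by
    intro j
    by_cases hj : j = v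
    · subst hj
      rw [if_pos ⟨by simp, Or.inl rfl⟩, if_pos rfl, if_neg hvA]
      simp [ws]
    · by_cases hjA : j ∈ A
      · rw [if_pos ⟨by simp, Or.inr (Or.inl hjA)⟩, if_neg hj, if_pos hjA]
        simp [ws, hj, hjA]
      · rw [if_neg hj, if_neg hjA]
        have : ws ω v A (none, some j) = 0 := by simp [ws, hj, hjA]
        rw [this, zero_mul]
        simp
  have h2 : ∀ i : V, (if (some i, (none : Option V)) ≠ (some v, none) ∧
      (splitG H v A B C hv).Adj (some i) none then ws ω v A (some i, none) * φ (some i) none else 0)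
      = (if i ∈ A then ω i v * φ none (some i) else 0) := by
    intro i
    by_cases hiA : i ∈ A
    · have hiv : i ≠ v := by rintro rfl; exact hvA hiA
      rw [if_pos ⟨by simpa using hiv, Or.inr (Or.inl hiA)⟩, if_pos hiA, hφ (some i) none]
      simp [ws, hiA]
    · rw [if_neg hiA]
      have : ws ω v A (some i, none) = 0 := by simp [ws, hiA]
      rw [this, zero_mul]
      simp
  have h3 : ∀ i j : V, (if (some i, some j) ≠ (some v, (none : Option V)) ∧
      (splitG H v A B C hv).Adj (some i) (some j) then
        ws ω v A (some i, some j) * φ (some i) (some j) else 0)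
      = ω i j * φ (some i) (some j) - (if i = v ∧ j ∈ A then ω i j * φ (some i) (some j) else 0)
        - (if j = v ∧ i ∈ A then ω i j * φ (some i) (some j) else 0) := by
    intro i j
    by_cases ha : i = v ∧ j ∈ A
    · have hb : ¬ (j = v ∧ i ∈ A) := by
        rintro ⟨h, h'⟩
        rw [ha.1] at h'
        exact hvA h'
      rw [if_pos ha, if_neg hb]
      have : ws ω v A (some i, some j) = 0 := by simp [ws, ha]
      rw [this, zero_mul]
      simp
    · by_cases hb : j = v ∧ i ∈ A
      · rw [if_neg ha, if_pos hb]
        have : ws ω v A (some i, some j) = 0 := by simp [ws, hb]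
        rw [this, zero_mul]
        simp
      · rw [if_neg ha, if_neg hb, sub_zero, sub_zero]
        have hw : ws ω v A (some i, some j) = ω i j := by
          simp only [ws]
          rw [if_neg]
          rintro (h | h)
          · exact ha h
          · exact hb h
        rw [hw]
        split_ifs with h
        · rfl
        · by_cases hij : i = j
          · rw [hij, hφ0, mul_zero]
          · by_cases hH : H.Adj i j
            · exfalso
              apply h
              refine ⟨by simp, ?_⟩
              by_cases hi : i = v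
              · right; left
                refine ⟨hi, ?_⟩
                subst hi
                rcases hN j hH with h' | h' | h'
                · exact absurd ⟨rfl, h'⟩ ha
                · exact Or.inl h'
                · exact Or.inr h'
              · by_cases hj : j = v
                · right; right
                  refine ⟨hj, ?_⟩
                  subst hj
                  rcases hN i hH.symm with h' | h' | h'
                  · exact absurd ⟨rfl, h'⟩ hb
                  · exact Or.inl h'
                  · exact Or.inr h'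
                · exact Or.inl ⟨hi, hj, hH⟩
            · rw [hω i j hH, zero_mul]
  rw [h0, Finset.sum_congr rfl fun j _ => h1 j, Finset.sum_congr rfl fun i _ => h2 i,
    Finset.sum_congr rfl fun i _ => Finset.sum_congr rfl fun j _ => h3 i j]
  simp only [Finset.sum_add_distrib, Finset.sum_sub_distrib]
  rw [Finset.sum_ite_eq' Finset.univ v, if_pos (Finset.mem_univ _)]
  have e1 : ∀ F : V → ℝ, ∑ j, (if j ∈ A then F j else 0) = ∑ j ∈ A, F j := by
    intro F
    rw [Finset.sum_ite_mem]; simp
  have e2 : ∑ i, ∑ j, (if i = v ∧ j ∈ A then ω i j * φ (some i) (some j) else 0) =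
      ∑ j ∈ A, ω v j * φ (some v) (some j) := by
    rw [Finset.sum_eq_single v]
    · rw [← e1]
      refine Finset.sum_congr rfl fun j _ => ?_
      simp
    · intro i _ hi
      refine Finset.sum_eq_zero fun j _ => ?_
      rw [if_neg (fun h => hi h.1)]
    · intro h; exact absurd (Finset.mem_univ v) h
  have e3 : ∑ i, ∑ j, (if j = v ∧ i ∈ A then ω i j * φ (some i) (some j) else 0) =
      ∑ i ∈ A, ω i v * φ (some v) (some i) := by
    rw [← e1]
    refine Finset.sum_congr rfl fun i _ => ?_
    rw [Finset.sum_eq_single v]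
    · rw [hφ (some v) (some i)]; simp
    · intro j _ hj
      rw [if_neg (fun h => hj h.1)]
    · intro h; exact absurd (Finset.mem_univ v) h
  rw [e1, e1, e2, e3]
  have e4 : ∑ w ∈ A, (ω v w + ω w v) * (φ none (some w) - φ (some v) (some w)) =
      ∑ w ∈ A, ω v w * φ none (some w) + ∑ w ∈ A, ω w v * φ none (some w) -
        ∑ j ∈ A, ω v j * φ (some v) (some j) - ∑ i ∈ A, ω i v * φ (some v) (some i) := by
    rw [← Finset.sum_add_distrib, ← Finset.sum_sub_distrib, ← Finset.sum_sub_distrib]
    exact Finset.sum_congr rfl fun w _ => by ring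
  rw [e4]; ring

theorem fl_getD (p : Conf d V) (m : Conf d (Option V)) (a b : Option V) :
    (p (a.getD v) - p (b.getD v)) ⬝ᵥ (m a - m b) =
      fl (fun w => p (w.getD v)) m a b := rfl

/-- The lifted stress is a dependency of the modified rows. -/
theorem ws_dep (K : SF) (hω : Str H p ω) (hvA : v ∉ A) (hv : v ∉ (B : Set V) ∪ C)
    (hN : ∀ w, H.Adj v w → w ∈ A ∨ w ∈ B ∨ w ∈ C) :
    ws ω v A ᵥ* evm (RX v K (splitG H v A B C hv)) (xs p ω v A) = 0 := by
  classical
  set M := evm (RX v K (splitG H v A B C hv)) (xs p ω v A) with hM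
  apply dotProduct_self_eq_zero.1
  obtain ⟨m, hm⟩ := unc_surj (ws ω v A ᵥ* M)
  conv_lhs => arg 2; rw [← hm]
  rw [← Matrix.dotProduct_mulVec]
  -- the residual direction
  have hdf : ∀ e : Option V × Option V, e ≠ (none, some v) → ∀ a,
      df v (xs p ω v A) e a = p (e.1.getD v) a - p (e.2.getD v) a := by
    intro e he a
    rw [df_of_ne v _ he, cf_xs, cf_xs]
  have h1 : ws ω v A ⬝ᵥ (M *ᵥ unc m) =
      ∑ e : Option V × Option V, if e ≠ (some v, none) ∧ (splitG H v A B C hv).Adj e.1 e.2 then
        ws ω v A e * (if e = (none, some v) ∨ e = (some v, none) then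
          - (Ff p ω v A ⬝ᵥ (m none - m (some v))) else
          fl (fun w => p (w.getD v)) m e.1 e.2) else 0 := by
    simp only [dotProduct]
    refine Finset.sum_congr rfl fun e _ => ?_
    by_cases he : e ≠ (some v, none) ∧ (splitG H v A B C hv).Adj e.1 e.2
    · rw [if_pos he, hM, evm_RX v K _ _ m e he.1 he.2]
      congr 1
      by_cases he' : e = (none, some v)
      · rw [if_pos (Or.inl he')]
        subst he'
        simp only [df, if_true]
        unfold xs
        simp only [Sum.elim_inl]
        rw [← Finset.sum_neg_distrib]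
        refine Finset.sum_congr rfl fun a _ => ?_
        simp only [Pi.sub_apply]
        ring
      · rw [if_neg (fun h => h.elim he' he.1)]
        unfold fl
        refine Finset.sum_congr rfl fun a _ => ?_
        rw [hdf e he']
    · rw [if_neg he, hM, evm_RX_zero v K _ _ _ e he, mul_zero]
  rw [h1]
  let φ : Option V → Option V → ℝ := fun a b =>
    if (a = none ∧ b = some v) ∨ (a = some v ∧ b = none) then
      - (Ff p ω v A ⬝ᵥ (m none - m (some v))) else fl (fun w => p (w.getD v)) m a b
  have h2 := split_sum (B := B) (C := C) hω.1 hvA φ (by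
    intro a b
    simp only [φ]
    by_cases h : (a = none ∧ b = some v) ∨ (a = some v ∧ b = none)
    · rw [if_pos h, if_pos (h.symm.imp And.symm And.symm)]
    · rw [if_neg h, if_neg (fun h' => h (h'.symm.imp And.symm And.symm)), fl_symm]) (by
    intro a
    simp only [φ]
    rw [if_neg, fl_self]
    rintro (⟨rfl, h⟩ | ⟨rfl, h⟩)
    · exact Option.some_ne_none _ h.symm
    · exact Option.some_ne_none _ h) hv hN
  have h3 : ∀ e : Option V × Option V, (if e = (none, some v) ∨ e = (some v, none) then
          - (Ff p ω v A ⬝ᵥ (m none - m (some v))) else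
          fl (fun w => p (w.getD v)) m e.1 e.2) = φ e.1 e.2 := by
    rintro ⟨a, b⟩
    simp only [φ, Prod.mk.injEq]
  simp only [h3]
  rw [h2]
  have h4 : φ none (some v) = - (Ff p ω v A ⬝ᵥ (m none - m (some v))) := by
    simp [φ]
  have h5 : ∀ i j, φ (some i) (some j) = fl p (fun i => m (some i)) i j := by
    intro i j
    simp only [φ]
    rw [if_neg (by simp)]
    rfl
  have h6 : ∀ w ∈ A, φ none (some w) - φ (some v) (some w) =
      (p v - p w) ⬝ᵥ (m none - m (some v)) := by
    intro w hw
    have hwv : w ≠ v := by rintro rfl; exact hvA hw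
    rw [h5]
    simp only [φ]
    rw [if_neg (by simp [hwv])]
    rw [← fl_getD, fl_dot]
    change (p v - p w) ⬝ᵥ (m none - m (some w)) - (p v - p w) ⬝ᵥ (m (some v) - m (some w)) = _
    rw [← dotProduct_sub]
    congr 1
    abel
  rw [h4, Finset.sum_congr rfl fun i _ => Finset.sum_congr rfl fun j _ => by rw [h5 i j],
    hω.sum_fl, Finset.sum_congr rfl fun w hw => by rw [h6 w hw]]
  unfold Ff
  rw [sum_dotProduct]
  simp only [smul_dotProduct, smul_eq_mul]
  ring

/-- The kernel of the modified rigidity matrix at the coincident point consists of trivial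
motions. -/
theorem ker_xs (K : SF) (hp : Gen p) (hIR : IR H p) (hω : Str H p ω)
    (hK : ∀ y ∈ Ker ω, ∃ a b, ∀ i, y i = a ⬝ᵥ p i + b) (hV : d + 2 ≤ Fintype.card V)
    (hC : C.card + 1 = d) (hCN : ∀ w ∈ C, H.Adj v w)
    (hAN : ∀ w ∈ A, H.Adj v w) (hBN : ∀ w ∈ B, H.Adj v w)
    (hN : ∀ w, H.Adj v w → w ∈ A ∨ w ∈ B ∨ w ∈ C)
    (hAC : Disjoint A C) (hBC : Disjoint B C) (hAB : Disjoint A B)
    (hA : A.Nonempty) (hB : B.Nonempty) (hv : v ∉ (B : Set V) ∪ C)
    (m : Conf d (Option V))
    (hm : evm (RX v K (splitG H v A B C hv)) (xs p ω v A) *ᵥ unc m = 0) :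
    unc m ∈ LinearMap.range (triv (cf v (xs p ω v A))) := by
  classical
  have hvA : v ∉ A := fun h => H.loopless.irrefl _ (hAN v h)
  have hrow : ∀ e : Option V × Option V, e ≠ (none, some v) → e ≠ (some v, none) →
      (splitG H v A B C hv).Adj e.1 e.2 →
      (p (e.1.getD v) - p (e.2.getD v)) ⬝ᵥ (m e.1 - m e.2) = 0 := by
    intro e he he' hadj
    have h1 := congrFun hm e
    rw [evm_RX v K _ _ m e he' hadj] at h1
    rw [Pi.zero_apply] at h1
    rw [← h1]
    refine Finset.sum_congr rfl fun a _ => ?_
    rw [df_of_ne v _ he, cf_xs, cf_xs]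
    rfl
  have hcoin : m none = m (some v) := by
    refine coin hp hIR hω hK hV hC hCN hAN hBN hN hAC hBC hAB hA hB (m := fun i => m (some i))
      ?_ ?_ ?_
    · intro i j hi hj hij
      exact hrow (some i, some j) (by simp) (by simp) (Or.inl ⟨hi, hj, hij⟩)
    · intro w hw
      have hwv : w ≠ v := by
        rintro rfl
        rcases hw with h | h
        · exact hvA h
        · exact H.loopless.irrefl _ (hCN _ h)
      exact hrow (none, some w) (by simpa using hwv) (by simp) (Or.inr hw)
    · intro w hw
      exact hrow (some v, some w) (by simp) (by simp) (Or.inr (Or.inl ⟨rfl, hw⟩))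
  have hflex : ∀ i j, H.Adj i j → fl p (fun i => m (some i)) i j = 0 := by
    have key : ∀ w, H.Adj v w → fl p (fun i => m (some i)) v w = 0 := by
      intro w hw
      rw [fl_dot]
      rcases hN w hw with h | h | h
      · have := hrow (none, some w) (by simpa using hw.ne') (by simp) (Or.inr (Or.inl h))
        simp only [hcoin] at this
        exact this
      · exact hrow (some v, some w) (by simp) (by simp) (Or.inr (Or.inl ⟨rfl, Or.inl h⟩))
      · exact hrow (some v, some w) (by simp) (by simp) (Or.inr (Or.inl ⟨rfl, Or.inr h⟩))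
    intro i j hij
    by_cases hi : i = v
    · subst hi; exact key j hij
    · by_cases hj : j = v
      · subst hj; rw [fl_symm]; exact key i hij.symm
      · exact hrow (some i, some j) (by simp) (by simp) (Or.inl ⟨hi, hj, hij⟩)
  have hAS : AS p := hp.as (by omega)
  obtain ⟨L, b, hL, hmL⟩ := trivial_motion hAS (hIR _ hflex)
  refine ⟨⟨(L, b), hL⟩, ?_⟩
  ext ⟨w, a⟩
  simp only [triv, LinearMap.coe_mk, AddHom.coe_mk, unc]
  rw [cf_xs]
  cases w with
  | none =>
    rw [hcoin]
    exact (congrFun (hmL v) a).symm
  | some i => exact (congrFun (hmL i) a).symm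

/-- Affine functions on the vertices. -/
def aff {W : Type*} (p : Conf d W) : ((Fin d → ℝ) × ℝ) →ₗ[ℝ] (W → ℝ) where
  toFun ab i := ab.1 ⬝ᵥ p i + ab.2
  map_add' x y := by
    ext i
    simp only [Prod.fst_add, Prod.snd_add, add_dotProduct, Pi.add_apply]; ring
  map_smul' r x := by
    ext i
    simp only [Prod.smul_fst, Prod.smul_snd, smul_dotProduct, Pi.smul_apply, smul_eq_mul,
      RingHom.id_apply]; ring

theorem finrank_Ker_le {W : Type*} [Fintype W] {p : Conf d W} {ω : W → W → ℝ}
    (hK : ∀ y ∈ Ker ω, ∃ a b, ∀ i, y i = a ⬝ᵥ p i + b) : Module.finrank ℝ (Ker ω) ≤ d + 1 := by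
  have h1 : Ker ω ≤ LinearMap.range (aff p) := by
    intro y hy
    obtain ⟨a, b, hab⟩ := hK y hy
    exact ⟨(a, b), by ext i; exact (hab i).symm⟩
  have h2 := Submodule.finrank_mono h1
  have h3 := LinearMap.finrank_range_le (aff p)
  have h4 : Module.finrank ℝ ((Fin d → ℝ) × ℝ) = d + 1 := by simp
  omega

theorem affine_of_finrank {W : Type*} [Fintype W] [Nonempty W] {G : SimpleGraph W} {p : Conf d W}
    {ω : W → W → ℝ} (hAS : AS p) (hω : Str G p ω) (hr : Module.finrank ℝ (Ker ω) ≤ d + 1) :
    ∀ y ∈ Ker ω, ∃ a b, ∀ i, y i = a ⬝ᵥ p i + b := by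
  have h1 : LinearMap.range (aff p) ≤ Ker ω := by
    rintro _ ⟨⟨a, b⟩, rfl⟩
    exact hω.affine a b
  have hinj : Function.Injective (aff p) := by
    rw [injective_iff_map_eq_zero]
    rintro ⟨a, b⟩ h0
    have h2 : ∀ i, a ⬝ᵥ p i + b = 0 := fun i => congrFun h0 i
    have h3 := hAS a b h2
    obtain ⟨i⟩ := (inferInstance : Nonempty W)
    have h4 := h2 i
    rw [h3, zero_dotProduct, zero_add] at h4
    exact Prod.ext h3 h4
  have h2 : Module.finrank ℝ (LinearMap.range (aff p)) = d + 1 := by
    rw [LinearMap.finrank_range_of_inj hinj]; simp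
  have h3 := Submodule.eq_of_le_of_finrank_le h1 (by rw [h2]; exact hr)
  intro y hy
  rw [← h3] at hy
  obtain ⟨⟨a, b⟩, rfl⟩ := hy
  exact ⟨a, b, fun i => rfl⟩

/-- The nullity of the modified energy matrix at the coincident point. -/
theorem nullity_xs (hω : Str H p ω) (hK : ∀ y ∈ Ker ω, ∃ a b, ∀ i, y i = a ⬝ᵥ p i + b)
    (hvA : v ∉ A) (hv : v ∉ (B : Set V) ∪ C)
    (hN : ∀ w, H.Adj v w → w ∈ A ∨ w ∈ B ∨ w ∈ C) :
    Module.finrank ℝ (LinearMap.ker
      (EM ℝ (splitG H v A B C hv) v 0 (ws ω v A)).mulVecLin) ≤ d + 1 := by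
  classical
  set M := EM ℝ (splitG H v A B C hv) v 0 (ws ω v A) with hM
  refine le_trans ?_ (finrank_Ker_le hK)
  let L : (Option (Option V) → ℝ) →ₗ[ℝ] (V → ℝ) :=
    LinearMap.funLeft ℝ ℝ (fun i : V => some (some i))
  have hadj : (splitG H v A B C hv).Adj none (some v) := Or.inl rfl
  have hws : ws ω v A (none, some v) = 1 := by simp [ws]
  -- consequences of lying in the kernel
  have key : ∀ y s, M *ᵥ cmb y s = 0 → y none = y (some v) ∧
      (fun i : V => y (some i)) ∈ Ker ω ∧ ((∀ i : V, y (some i) = 0) → s = 0) := by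
    intro y s h
    rw [hM, EM_ker] at h
    have h1 : y none = y (some v) := by
      have h2 := h 0 1
      unfold Qf at h2
      rw [Finset.sum_eq_single (none, some v)] at h2
      · rw [if_pos ⟨by simp, hadj⟩, if_pos rfl, hws] at h2
        simp only [Pi.zero_apply] at h2
        linarith
      · intro e _ he
        split_ifs
        · simp
        · rfl
      · intro h; exact absurd (Finset.mem_univ _) h
    refine ⟨h1, ?_, ?_⟩
    · intro z
      have h2 := h (fun w => z (w.getD v)) 0
      unfold Qf at h2
      have h3 := split_sum (B := B) (C := C) hω.1 hvA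
        (fun a b => (y a - y b) * (z (a.getD v) - z (b.getD v)))
        (fun a b => by ring) (fun a => by ring) hv hN
      have h4 : ∀ e : Option V × Option V, (if e ≠ (some v, none) ∧
          (splitG H v A B C hv).Adj e.1 e.2 then ws ω v A e *
          (if e = (none, some v) then 0 * (y none - y (some v)) +
            (z ((none : Option V).getD v) - z ((some v : Option V).getD v)) * s - 0 * 0 * s
            else (y e.1 - y e.2) * (z (e.1.getD v) - z (e.2.getD v))) else 0) =
          (if e ≠ (some v, none) ∧ (splitG H v A B C hv).Adj e.1 e.2 then ws ω v A e *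
            ((y e.1 - y e.2) * (z (e.1.getD v) - z (e.2.getD v))) else 0) := by
        intro e
        by_cases he : e = (none, some v)
        · subst he
          simp
        · simp only [if_neg he]
      rw [Finset.sum_congr rfl fun e _ => h4 e] at h2
      rw [h3] at h2
      simp only [Option.getD_some, Option.getD_none, sub_self, mul_zero, zero_add] at h2
      have h5 : ∑ w ∈ A, (ω v w + ω w v) * ((y none - y (some w)) * (z v - z w) -
          (y (some v) - y (some w)) * (z v - z w)) = 0 := by
        refine Finset.sum_eq_zero fun w _ => ?_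
        rw [h1]; ring
      rw [h5, add_zero] at h2
      exact h2
    · intro h0
      have hy0 : ∀ w : Option V, y w = 0 := by
        intro w
        cases w with
        | none => rw [h1]; exact h0 v
        | some i => exact h0 i
      have h2 := h (fun w => if w = none then 1 else 0) 0
      unfold Qf at h2
      rw [Finset.sum_eq_single (none, some v)] at h2
      · rw [if_pos ⟨by simp, hadj⟩, if_pos rfl, hws] at h2
        simp only [hy0] at h2
        simpa using h2
      · intro e _ he
        split_ifs
        · simp [hy0]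
        · rfl
      · intro h; exact absurd (Finset.mem_univ _) h
  have hmaps : ∀ Y ∈ LinearMap.ker M.mulVecLin, L Y ∈ Ker ω := by
    intro Y hY
    obtain ⟨y, s, rfl⟩ := exists_cmb Y
    exact (key y s hY).2.1
  have hinj : Function.Injective (L.restrict hmaps) := by
    rw [injective_iff_map_eq_zero]
    rintro ⟨Y, hY⟩ h0
    obtain ⟨y, s, rfl⟩ := exists_cmb Y
    have h1 := key y s hY
    have h2 : ∀ i : V, y (some i) = 0 := by
      intro i
      have := congrArg (fun f : Ker ω => (f : V → ℝ) i) h0
      exact this
    apply Subtype.ext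
    ext k
    match k with
    | none => exact h1.2.2 h2
    | some none => exact h1.1.trans (h2 v)
    | some (some i) => exact h2 i
  exact LinearMap.finrank_le_finrank_of_injective hinj

end Pool.Agent.H135R2.VS
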