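import Pool.Agent.H135R2.VS.Gst
import Pool.Agent.H135R2.VS.Trans2

set_option autoImplicit false
set_option linter.unusedSectionVars false

/-! # Coordinates on the space of configurations with a given stress -/

namespace Pool.Agent.H135R2.VS

open Set Matrix MvPolynomial

variable {V : Type*} {d : ℕ} [Fintype V] [DecidableEq V]

/-- The field of definition of the stress. -/
noncomputable def K0 (ω : V → V → ℝ) : SF := adj ⊥ (range fun e : V × V => ω e.1 e.2)

theorem mem_K0 (ω : V → V → ℝ) (i j : V) : ω i j ∈ K0 ω := mem_adj ⊥ ⟨(i, j), rfl⟩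

instance (ω : V → V → ℝ) : Countable (K0 ω) := countable_adj (countable_range _)

theorem single_mem (K : SF) {C : Type*} [DecidableEq C] (i j : C) : (Pi.single i 1 : C → ℝ) j ∈ K := by
  by_cases hij : j = i
  · subst hij; rw [Pi.single_eq_same]; exact one_mem _
  · rw [Pi.single_eq_of_ne hij]; exact zero_mem _

theorem exists_Ker_basis (ω : V → V → ℝ) : ∃ (k : ℕ) (b : Fin k → V → ℝ),
    LinearIndependent ℝ b ∧ (∀ l i, b l i ∈ K0 ω) ∧ Submodule.span ℝ (range b) = Ker ω := by
  let M : Matrix V V ℝ := Matrix.of fun i j => en ω (Pi.single j 1) (Pi.single i 1)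
  have hM : ∀ y i, (M *ᵥ y) i = en ω y (Pi.single i 1) := by
    intro y i
    rw [en_symm, en_eq_sum_single]
    simp only [Matrix.mulVec, dotProduct, M, Matrix.of_apply]
    refine Finset.sum_congr rfl fun j _ => ?_
    rw [en_symm]; ring
  have hMk : ∀ y, M *ᵥ y = 0 ↔ y ∈ Ker ω := by
    intro y
    constructor
    · intro h z
      rw [en_eq_sum_single]
      refine Finset.sum_eq_zero fun k _ => ?_
      rw [← hM, h, Pi.zero_apply, mul_zero]
    · intro h
      ext i
      rw [hM]; exact h _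
  have hMK : ∀ i j, M i j ∈ K0 ω := by
    intro i j
    simp only [M, Matrix.of_apply, en]
    exact sum_mem fun a _ => sum_mem fun b _ => mul_mem (mem_K0 ω a b)
      (mul_mem (sub_mem (single_mem _ _ _) (single_mem _ _ _))
        (sub_mem (single_mem _ _ _) (single_mem _ _ _)))
  refine exists_rat_basis (K := K0 ω) (Ker ω) ?_
  intro x hx
  have h1 := ker_rational M hMK ((hMk x).2 hx)
  have h2 : {y : V → ℝ | M.mulVec y = 0 ∧ ∀ j, y j ∈ K0 ω} = {y | y ∈ Ker ω ∧ ∀ j, y j ∈ K0 ω} := by
    ext y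
    simp only [mem_ofPred_eq, hMk]
  rwa [h2] at h1

/-- Coordinates on `K^d`. -/
noncomputable def cW {k : ℕ} (d : ℕ) (b : Fin k → V → ℝ) : (Fin k × Fin d → ℝ) →ₗ[ℝ] Conf d V where
  toFun x i a := ∑ j, x (j, a) * b j i
  map_add' x y := by
    funext i a
    simp only [Pi.add_apply, add_mul, Finset.sum_add_distrib]
  map_smul' c x := by
    funext i a
    simp only [Pi.smul_apply, smul_eq_mul, RingHom.id_apply, Finset.mul_sum]
    exact Finset.sum_congr rfl fun j _ => by ring

section cW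

variable {ω : V → V → ℝ} {k : ℕ} {b : Fin k → V → ℝ}

theorem cW_apply (x : Fin k × Fin d → ℝ) (i : V) (a : Fin d) :
    cW d b x i a = ∑ j, x (j, a) * b j i := rfl

theorem cW_mem (hb : Submodule.span ℝ (range b) = Ker ω) (x : Fin k × Fin d → ℝ) (a : Fin d) :
    (fun i => cW d b x i a) ∈ Ker ω := by
  have h1 : (fun i => cW d b x i a) = ∑ j, x (j, a) • b j := by
    ext i
    simp [cW_apply, Finset.sum_apply]
  rw [h1, ← hb]
  exact Submodule.sum_mem _ fun l _ => Submodule.smul_mem _ _ (Submodule.subset_span ⟨l, rfl⟩)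

theorem cW_surj (hb : Submodule.span ℝ (range b) = Ker ω) {m : Conf d V}
    (hm : ∀ a, (fun i => m i a) ∈ Ker ω) : ∃ x, cW d b x = m := by
  have h1 : ∀ a, ∃ c : Fin k → ℝ, ∑ j, c j • b j = fun i => m i a := by
    intro a
    have := hm a
    rw [← hb] at this
    exact (Submodule.mem_span_range_iff_exists_fun ℝ).1 this
  choose c hc using h1
  refine ⟨fun ja => c ja.2 ja.1, ?_⟩
  funext i a
  have := congrFun (hc a) i
  simp only [Finset.sum_apply, Pi.smul_apply, smul_eq_mul] at this
  exact this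

theorem cW_inj (hb : LinearIndependent ℝ b) : Function.Injective (cW d b) := by
  rw [injective_iff_map_eq_zero]
  intro x hx
  ext ⟨j, a⟩
  have h1 : ∑ j, x (j, a) • b j = 0 := by
    ext i
    have := congrFun (congrFun hx i) a
    simpa [cW_apply, Finset.sum_apply] using this
  exact Fintype.linearIndependent_iff.1 hb _ h1 j

theorem cW_single_mem (hbK : ∀ l i, b l i ∈ K0 ω) (c : Fin k × Fin d) (i : V) (a : Fin d) :
    cW d b (Pi.single c 1) i a ∈ K0 ω := by
  rw [cW_apply]
  exact sum_mem fun j _ => mul_mem (single_mem _ _ _) (hbK _ _)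

theorem AL_cW_mem (hbK : ∀ l i, b l i ∈ K0 ω) (e : V × V) (c c' : Fin k × Fin d) :
    AL (cW d b) e c c' ∈ K0 ω := by
  simp only [AL, Matrix.of_apply, fl]
  exact sum_mem fun a _ => mul_mem (sub_mem (cW_single_mem hbK _ _ _) (cW_single_mem hbK _ _ _))
    (sub_mem (cW_single_mem hbK _ _ _) (cW_single_mem hbK _ _ _))

/-- Generic points of `K^d` are generic configurations. -/
theorem Gen_cW (hbK : ∀ l i, b l i ∈ K0 ω) {xp : Fin k × Fin d → ℝ}
    (hp : Gen (cW d b xp)) {y : Fin k × Fin d → ℝ} (hy : AlgebraicIndependent (K0 ω) y) :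
    Gen (cW d b y) := by
  unfold Gen at hp ⊢
  rw [algebraicIndependent_iff] at hp ⊢
  intro g hg
  let sub : V × Fin d → MvPolynomial (Fin k × Fin d) (K0 ω) := fun ia =>
    ∑ j, X (j, ia.2) * C ⟨b j ia.1, hbK _ _⟩
  let G : MvPolynomial (Fin k × Fin d) (K0 ω) := bind₁ sub (map (algebraMap ℚ (K0 ω)) g)
  have hG : ∀ x : Fin k × Fin d → ℝ, aeval x G = aeval (fun i : V × Fin d => cW d b x i.1 i.2) g := by
    intro x
    simp only [G]
    rw [aeval_bind₁]
    have h1 : (fun i => aeval x (sub i)) = fun i : V × Fin d => cW d b x i.1 i.2 := by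
      funext i
      simp only [sub, map_sum, map_mul, aeval_X, aeval_C, cW_apply]
      rfl
    rw [h1]
    rw [MvPolynomial.aeval_map_algebraMap]
  have h0 : G = 0 := by
    apply hy
    rw [map_zero, hG, hg]
  apply hp
  rw [← hG, h0, map_zero]

end cW

section setup

variable (H : SimpleGraph V) (p : Conf d V) (ω : V → V → ℝ) {k : ℕ} (b : Fin k → V → ℝ)

open Classical in
/-- The restricted rows. -/
noncomputable def rowW : Matrix (V × V) (Fin k × Fin d) ℝ :=
  Matrix.of fun e c => if H.Adj e.1 e.2 then fl p (cW d b (Pi.single c 1)) e.1 e.2 else 0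

theorem fl_cW (p : Conf d V) (x : Fin k × Fin d → ℝ) (i j : V) :
    fl p (cW d b x) i j = ∑ c, x c * fl p (cW d b (Pi.single c 1)) i j := by
  conv_lhs => rw [fun_eq_sum_single x]
  rw [map_sum, fl_sum]
  exact Finset.sum_congr rfl fun c _ => by rw [map_smul, fl_smul]

theorem rowW_dot (e : V × V) (he : H.Adj e.1 e.2) (x : Fin k × Fin d → ℝ) :
    rowW H p b e ⬝ᵥ x = fl p (cW d b x) e.1 e.2 := by
  rw [fl_cW]
  simp only [dotProduct, rowW, Matrix.of_apply, if_pos he]
  exact Finset.sum_congr rfl fun c _ => by ring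

theorem rowW_zero (e : V × V) (he : ¬ H.Adj e.1 e.2) : rowW H p b e = 0 := by
  ext c
  simp [rowW, he]

end setup

/-- The data of the argument. -/
structure Dat (H : SimpleGraph V) (p : Conf d V) (ω : V → V → ℝ) (k : ℕ) (b : Fin k → V → ℝ)
    (xp : Fin k × Fin d → ℝ) (L : Set (V × V)) : Prop where
  hp : Gen p
  hIR : IR H p
  hω : Str H p ω
  hb : LinearIndependent ℝ b
  hbK : ∀ l i, b l i ∈ K0 ω
  hbs : Submodule.span ℝ (range b) = Ker ω
  hxp : cW d b xp = p
  hL : ∀ e ∈ L, H.Adj e.1 e.2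
  hind : LinearIndependent ℝ fun e : L => rowW H p b e
  hrel : ∀ i j, H.Adj i j → ∃ γ : V × V → ℝ, ∀ x y : Fin k × Fin d → ℝ,
    fl (cW d b x) (cW d b y) i j = ∑ e : V × V, open Classical in
      if e ∈ L then γ e * fl (cW d b x) (cW d b y) e.1 e.2 else 0

theorem exists_dat {H : SimpleGraph V} {p : Conf d V} {ω : V → V → ℝ} (hp : Gen p) (hIR : IR H p)
    (hω : Str H p ω) (hT : Tan H p ω) : ∃ k b xp L, Dat H p ω k b xp L := by
  classical
  obtain ⟨k, b, hb, hbK, hbs⟩ := exists_Ker_basis ω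
  obtain ⟨xp, hxp⟩ := cW_surj (d := d) hbs hω.2
  obtain ⟨L, hL1, hL2⟩ := exists_row_basis (rowW (d := d) H p b)
  have := Fintype.ofFinite L
  refine ⟨k, b, xp, L, hp, hIR, hω, hb, hbK, hbs, hxp, ?_, hL1, ?_⟩
  · intro e he
    by_contra hadj
    exact hL1.ne_zero ⟨e, he⟩ (rowW_zero H p b e hadj)
  · intro i j hij
    have h1 := hL2 (i, j)
    rw [image_eq_range, Submodule.mem_span_range_iff_exists_fun] at h1
    obtain ⟨γ, hγ⟩ := h1
    let γ' : V × V → ℝ := fun e => if h : e ∈ L then γ ⟨e, h⟩ else 0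
    refine ⟨γ', ?_⟩
    have hLadj : ∀ e ∈ L, H.Adj e.1 e.2 := by
      intro e he
      by_contra hadj
      exact hL1.ne_zero ⟨e, he⟩ (rowW_zero H p b e hadj)
    -- the weights
    let σ : V → V → ℝ := fun a c => (if (a, c) = (i, j) then 1 else 0) -
      (if (a, c) ∈ L then γ' (a, c) else 0)
    have hσ : ∀ F : V → V → ℝ, ∑ a, ∑ c, σ a c * F a c =
        F i j - ∑ e : V × V, if e ∈ L then γ' e * F e.1 e.2 else 0 := by
      intro F
      have h2 : ∑ a, ∑ c, σ a c * F a c = ∑ e : V × V, σ e.1 e.2 * F e.1 e.2 := by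
        rw [Fintype.sum_prod_type]
      rw [h2]
      have h3 : ∀ e : V × V, σ e.1 e.2 * F e.1 e.2 = (if e = (i, j) then F e.1 e.2 else 0) -
          (if e ∈ L then γ' e * F e.1 e.2 else 0) := by
        intro e
        simp only [σ, sub_mul, ite_mul, one_mul, zero_mul]
      rw [Finset.sum_congr rfl fun e _ => h3 e, Finset.sum_sub_distrib, Finset.sum_ite_eq']
      simp
    have hflat : ∀ y ∈ Ker ω, ∀ y' ∈ Ker ω, en σ y y' = 0 := by
      intro y hy y' hy'
      refine flat hT (σ := σ) ?_ ?_ hy hy'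
      · intro a c hac
        simp only [σ]
        rw [if_neg, if_neg, sub_zero]
        · intro h; exact hac (hLadj _ h)
        · intro h
          rw [Prod.mk.injEq] at h
          rw [h.1, h.2] at hac
          exact hac hij
      · intro m hm
        obtain ⟨x, rfl⟩ := cW_surj hbs hm
        rw [hσ]
        have h4 := rowW_dot H p b (i, j) hij x
        simp only at h4
        rw [← h4, ← hγ, sum_dotProduct]
        have h5 := sum_dite_sub L (fun e : L => γ e * fl p (cW d b x) e.1.1 e.1.2)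
        rw [sub_eq_zero]
        have h6 : ∀ e : L, (γ e • rowW H p b e.1) ⬝ᵥ x = γ e * fl p (cW d b x) e.1.1 e.1.2 := by
          intro e
          rw [smul_dotProduct, rowW_dot H p b e.1 (hLadj _ e.2), smul_eq_mul]
        rw [Finset.sum_congr rfl fun e _ => h6 e, ← h5]
        refine Finset.sum_congr rfl fun e _ => ?_
        by_cases he : e ∈ L
        · rw [dif_pos he, if_pos he]
          simp only [γ', dif_pos he]
        · rw [dif_neg he, if_neg he]
    intro x y
    have h7 : ∑ a, ∑ c, σ a c * fl (cW d b x) (cW d b y) a c = 0 := by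
      rw [sum_fl]
      exact Finset.sum_eq_zero fun a _ => hflat _ (cW_mem hbs x a) _ (cW_mem hbs y a)
    rw [hσ] at h7
    linarith

end Pool.Agent.H135R2.VS
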